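import Pool.Agent.H893.DD.Stm6
import Mathlib.FieldTheory.FinTrdeg

/-!
# Valuations of rank one and of finite rational rank
-/

set_option autoImplicit false

universe u

namespace Pool.Agent.H893.DD

open Pool.Agent.W418.LU2 Polynomial

namespace Prank

/-- the elements which become integral after multiplication with a power of `a` -/
def powRing {F : Type u} [Field F] (V : ValuationSubring F) (a : F) (ha : a ∈ V) :
    ValuationSubring F where
  carrier := {z | ∃ N : ℕ, a ^ N * z ∈ V}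
  mul_mem' := by
    rintro x y ⟨N, hN⟩ ⟨M, hM⟩
    refine ⟨N + M, ?_⟩
    have e : a ^ (N + M) * (x * y) = (a ^ N * x) * (a ^ M * y) := by ring
    rw [e]
    exact V.mul_mem _ _ hN hM
  one_mem' := ⟨0, by rw [pow_zero, one_mul]; exact V.one_mem⟩
  add_mem' := by
    rintro x y ⟨N, hN⟩ ⟨M, hM⟩
    refine ⟨N + M, ?_⟩
    have e : a ^ (N + M) * (x + y) = a ^ M * (a ^ N * x) + a ^ N * (a ^ M * y) := by ring
    rw [e]
    exact V.add_mem _ _ (V.mul_mem _ _ (pow_mem ha M) hN) (V.mul_mem _ _ (pow_mem ha N) hM)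
  zero_mem' := ⟨0, by rw [mul_zero]; exact V.zero_mem⟩
  neg_mem' := by
    rintro x ⟨N, hN⟩
    refine ⟨N, ?_⟩
    rw [mul_neg]
    exact V.neg_mem _ hN
  mem_or_inv_mem' := by
    intro x
    rcases V.mem_or_inv_mem x with h | h
    · exact Or.inl ⟨0, by simpa using h⟩
    · exact Or.inr ⟨0, by simpa using h⟩

lemma mem_powRing {F : Type u} [Field F] (V : ValuationSubring F) (a : F) (ha : a ∈ V) (z : F) :
    z ∈ powRing V a ha ↔ ∃ N : ℕ, a ^ N * z ∈ V := Iff.rfl

/-- a sum of terms with different values is not zero -/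
lemma sum_ne {R Γ : Type*} [Field R] [LinearOrderedCommGroupWithZero Γ] (v : Valuation R Γ)
    {ι : Type*} (s : Finset ι) (f : ι → R) (hne : ∀ i ∈ s, f i ≠ 0) (hs : s.Nonempty)
    (hinj : ∀ i ∈ s, ∀ j ∈ s, i ≠ j → v (f i) ≠ v (f j)) : ∑ i ∈ s, f i ≠ 0 := by
  classical
  obtain ⟨i, hi, hmax⟩ := Finset.exists_max_image s (fun i => v (f i)) hs
  intro h0
  rw [← Finset.add_sum_erase s f hi] at h0
  have hvi : v (f i) ≠ 0 := (Valuation.ne_zero_iff v).2 (hne i hi)
  have hlt : v (∑ j ∈ s.erase i, f j) < v (f i) := by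
    refine Valuation.map_sum_lt v hvi fun j hj => ?_
    rw [Finset.mem_erase] at hj
    exact lt_of_le_of_ne (hmax j hj.2) (hinj j hj.2 i hi hj.1)
  have h1 : f i = -∑ j ∈ s.erase i, f j := eq_neg_of_add_eq_zero_left h0
  rw [h1, Valuation.map_neg] at hlt
  exact lt_irrefl _ hlt

section

variable {k F F1 : Type u} [Field k] [Field F] [Field F1] [Algebra k F] [Algebra F F1]

/-- independent families -/
def Ind (V : ValuationSubring F1) {s : ℕ} (γ : Fin s → F) : Prop :=
  (∀ i, γ i ≠ 0) ∧ ∀ m : Fin s → ℤ, V.valuation (algebraMap F F1 (mo γ m)) = 1 → m = 0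

lemma val_const (V : ValuationSubring F1) (hV : ∀ c : k, algebraMap F F1 (algebraMap k F c) ∈ V)
    {c : k} (hc : c ≠ 0) : V.valuation (algebraMap F F1 (algebraMap k F c)) = 1 := by
  have h1 : V.valuation (algebraMap F F1 (algebraMap k F c)) ≤ 1 :=
    (V.valuation_le_one_iff _).2 (hV c)
  have h2 : V.valuation (algebraMap F F1 (algebraMap k F c⁻¹)) ≤ 1 :=
    (V.valuation_le_one_iff _).2 (hV c⁻¹)
  have h3 : V.valuation (algebraMap F F1 (algebraMap k F c)) *
      V.valuation (algebraMap F F1 (algebraMap k F c⁻¹)) = 1 := by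
    rw [← map_mul, ← map_mul, ← map_mul, mul_inv_cancel₀ hc, map_one, map_one, map_one]
  refine le_antisymm h1 ?_
  calc (1 : V.ValueGroup) = V.valuation (algebraMap F F1 (algebraMap k F c)) *
      V.valuation (algebraMap F F1 (algebraMap k F c⁻¹)) := h3.symm
    _ ≤ V.valuation (algebraMap F F1 (algebraMap k F c)) * 1 := by gcongr
    _ = _ := mul_one _

lemma mo_nat {s : ℕ} (γ : Fin s → F) (m : Fin s →₀ ℕ) :
    m.prod (fun i e => γ i ^ e) = mo γ (fun i => (m i : ℤ)) := by
  unfold mo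
  rw [Finsupp.prod_fintype _ _ (fun i => pow_zero _)]
  refine Finset.prod_congr rfl fun i _ => ?_
  rw [zpow_natCast]

lemma ind_alg (V : ValuationSubring F1) (hV : ∀ c : k, algebraMap F F1 (algebraMap k F c) ∈ V)
    {s : ℕ} {γ : Fin s → F} (hγ : Ind V γ) : AlgebraicIndependent k γ := by
  obtain ⟨hγ0, hγ1⟩ := hγ
  rw [algebraicIndependent_iff]
  intro p hp
  by_contra hne
  rw [MvPolynomial.aeval_def, MvPolynomial.eval₂_eq'] at hp
  set v : Valuation F V.ValueGroup := V.valuation.comap (algebraMap F F1) with hv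
  refine sum_ne v p.support (fun m => algebraMap k F (p.coeff m) * ∏ i, γ i ^ m i) ?_ ?_ ?_ hp
  · intro m hm
    refine mul_ne_zero ?_ (Finset.prod_ne_zero_iff.2 fun i _ => pow_ne_zero _ (hγ0 i))
    rw [MvPolynomial.mem_support_iff] at hm
    simpa using hm
  · rw [Finset.nonempty_iff_ne_empty]
    intro h
    exact hne (MvPolynomial.support_eq_empty.1 h)
  · intro m hm m' hm' hmm heq
    apply hmm
    have hval : ∀ m ∈ p.support, v (algebraMap k F (p.coeff m) * ∏ i, γ i ^ m i) =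
        V.valuation (algebraMap F F1 (mo γ (fun i => (m i : ℤ)))) := by
      intro m hm
      rw [MvPolynomial.mem_support_iff] at hm
      rw [hv, Valuation.comap_apply, map_mul, map_mul, val_const V hV hm, one_mul]
      congr 2
      unfold mo
      refine Finset.prod_congr rfl fun i _ => ?_
      rw [zpow_natCast]
    rw [hval m hm, hval m' hm'] at heq
    have h1 : V.valuation (algebraMap F F1 (mo γ ((fun i => (m i : ℤ)) + -(fun i => (m' i : ℤ))))) =
        1 := by
      rw [mo_add hγ0, mo_neg, map_mul, map_mul, map_inv₀, map_inv₀, heq]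
      refine mul_inv_cancel₀ ?_
      rw [Valuation.ne_zero_iff]
      intro h0
      exact mo_ne_zero hγ0 _ ((map_eq_zero _).1 h0)
    have h2 := hγ1 _ h1
    ext i
    have h3 := congrFun h2 i
    simp only [Pi.add_apply, Pi.neg_apply, Pi.zero_apply] at h3
    omega

end

end Prank

open Prank

theorem t_arch : S_arch.{u} := by
  intro F _ V hV a b hb ha ha'
  have ha0 : a ≠ 0 := by
    rintro rfl
    rw [inv_zero] at ha'
    exact ha' V.zero_mem
  have hlt : V < powRing V a ha := by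
    refine lt_of_le_of_ne ?_ ?_
    · intro x hx
      exact ⟨0, by simpa using hx⟩
    · intro h
      apply ha'
      rw [h]
      refine ⟨1, ?_⟩
      rw [pow_one, mul_inv_cancel₀ ha0]
      exact V.one_mem
  have htop := hV _ hlt
  have hmem : b⁻¹ ∈ powRing V a ha := by
    rw [htop]
    exact ValuationSubring.mem_top _
  exact hmem

theorem t_nt : S_nt.{u} := by
  intro F F1 _ _ _ _ V hV
  -- an element of `F1` which is not in `V`
  obtain ⟨z, hz⟩ : ∃ z : F1, z ∉ V := by
    by_contra hcon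
    apply hV
    rw [eq_top_iff]
    intro x _
    by_contra hx
    exact hcon ⟨x, hx⟩
  obtain ⟨b, hb⟩ : ∃ b : F, algebraMap F F1 b ∉ V := by
    by_contra hcon
    have hall : ∀ b : F, algebraMap F F1 b ∈ V := fun b => by
      by_contra hb
      exact hcon ⟨b, hb⟩
    apply hz
    have hzi : IsIntegral F z := Algebra.IsIntegral.isIntegral z
    obtain ⟨p, hp, hpz⟩ := hzi
    set φ : F →+* V := (algebraMap F F1).codRestrict V.toSubring hall with hφ
    have hint : IsIntegral V z := by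
      refine ⟨p.map φ, hp.map φ, ?_⟩
      rw [eval₂_map]
      exact hpz
    obtain ⟨y, hy⟩ := IsIntegrallyClosed.isIntegral_iff.1 hint
    rw [← hy]
    exact y.2
  refine ⟨b⁻¹, ?_, ?_⟩
  · rw [map_inv₀]
    exact (V.mem_or_inv_mem _).resolve_left hb
  · rwa [inv_inv]

namespace Prank

variable {k F F1 : Type u} [Field k] [Field F] [Field F1] [Algebra k F] [Algebra F F1]

lemma base_case (V : ValuationSubring F1) {s : ℕ} {γ : Fin s → F} (hγ : Ind V γ)
    (hmax : ∀ γ' : Fin (s + 1) → F, ¬ Ind V γ') {z : F} (hz : z ≠ 0) :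
    ∃ n : ℕ, 0 < n ∧ ∃ m : Fin s → ℤ,
      V.valuation (algebraMap F F1 z) ^ n = V.valuation (algebraMap F F1 (mo γ m)) := by
  obtain ⟨hγ0, hγ1⟩ := hγ
  have h1 := hmax (Fin.cons z γ)
  have h2 : ∃ m : Fin (s + 1) → ℤ,
      V.valuation (algebraMap F F1 (mo (Fin.cons z γ : Fin (s + 1) → F) m)) = 1 ∧ m ≠ 0 := by
    by_contra hcon
    apply h1
    refine ⟨?_, ?_⟩
    · intro i
      refine Fin.cases ?_ (fun j => ?_) i
      · exact hz
      · exact hγ0 j
    · intro m hm
      by_contra hm0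
      exact hcon ⟨m, hm, hm0⟩
  obtain ⟨m, hm, hm0⟩ := h2
  have h3 : mo (Fin.cons z γ : Fin (s + 1) → F) m = z ^ m 0 * mo γ (fun i => m i.succ) := by
    unfold mo
    rw [Fin.prod_univ_succ]
    rfl
  rw [h3, map_mul, map_mul] at hm
  set t : Fin s → ℤ := fun i => m i.succ with ht
  have hzv : V.valuation (algebraMap F F1 z) ≠ 0 := by
    rw [Valuation.ne_zero_iff]
    exact fun h => hz ((map_eq_zero _).1 h)
  have hmv : V.valuation (algebraMap F F1 (mo γ t)) ≠ 0 := by
    rw [Valuation.ne_zero_iff]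
    exact fun h => mo_ne_zero hγ0 _ ((map_eq_zero _).1 h)
  have hm0' : m 0 ≠ 0 := by
    intro h0
    rw [h0, zpow_zero, map_one, map_one, one_mul] at hm
    have h4 := hγ1 t hm
    apply hm0
    funext i
    refine Fin.cases ?_ (fun j => ?_) i
    · exact h0
    · exact congrFun h4 j
  rcases lt_or_gt_of_ne hm0' with hneg | hpos
  · obtain ⟨n, hn⟩ := Int.eq_ofNat_of_zero_le (show 0 ≤ -m 0 by omega)
    refine ⟨n, by omega, t, ?_⟩
    have h5 : m 0 = -(n : ℤ) := by omega
    rw [h5, zpow_neg, zpow_natCast, map_inv₀, map_inv₀, map_pow, map_pow] at hm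
    have h6 : V.valuation (algebraMap F F1 z) ^ n ≠ 0 := pow_ne_zero _ hzv
    calc V.valuation (algebraMap F F1 z) ^ n = V.valuation (algebraMap F F1 z) ^ n * 1 :=
          (mul_one _).symm
      _ = V.valuation (algebraMap F F1 z) ^ n * ((V.valuation (algebraMap F F1 z) ^ n)⁻¹ *
            V.valuation (algebraMap F F1 (mo γ t))) := by rw [hm]
      _ = V.valuation (algebraMap F F1 (mo γ t)) := mul_inv_cancel_left₀ h6 _
  · obtain ⟨n, hn⟩ := Int.eq_ofNat_of_zero_le (show 0 ≤ m 0 by omega)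
    refine ⟨n, by omega, -t, ?_⟩
    rw [hn, zpow_natCast, map_pow, map_pow] at hm
    rw [mo_neg, map_inv₀, map_inv₀]
    exact eq_inv_of_mul_eq_one_left hm

end Prank

theorem t_frr : S_frr.{u} := by
  intro k F F1 _ _ _ _ _ _ _ V hV
  classical
  -- the bound
  have htr : Algebra.trdeg k F < Cardinal.aleph0 := trdeg_lt_aleph0 k F
  obtain ⟨N, hN⟩ := Cardinal.lt_aleph0.1 htr
  have hbound : ∀ s : ℕ, (∃ γ : Fin s → F, Ind V γ) → s ≤ N := by
    rintro s ⟨γ, hγ⟩
    have h1 := ind_alg V hV hγ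
    have h2 := h1.lift_cardinalMk_le_trdeg
    rw [hN, Cardinal.mk_fin, Cardinal.lift_natCast, Cardinal.lift_natCast] at h2
    exact_mod_cast h2
  have h0 : ∃ γ : Fin 0 → F, Ind V γ :=
    ⟨fun i => i.elim0, fun i => i.elim0, fun m _ => funext fun i => i.elim0⟩
  set s := Nat.findGreatest (fun s => ∃ γ : Fin s → F, Ind V γ) N with hs
  obtain ⟨γ, hγ⟩ : ∃ γ : Fin s → F, Ind V γ :=
    Nat.findGreatest_spec (P := fun s => ∃ γ : Fin s → F, Ind V γ) (Nat.zero_le N) h0
  have hmax : ∀ γ' : Fin (s + 1) → F, ¬ Ind V γ' := by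
    intro γ' hγ'
    have h1 := hbound (s + 1) ⟨γ', hγ'⟩
    have h2 := Nat.le_findGreatest (P := fun s => ∃ γ : Fin s → F, Ind V γ) h1 ⟨γ', hγ'⟩
    omega
  refine ⟨s, γ, hγ.1, fun z hz => ?_⟩
  have hzv : V.valuation z ≠ 0 := (Valuation.ne_zero_iff _).2 hz
  obtain ⟨p, hp0, hp⟩ := Algebra.IsAlgebraic.isAlgebraic (R := F) z
  rw [aeval_def, eval₂_eq_sum, Polynomial.sum_def] at hp
  have hex : ∃ i ∈ p.support, ∃ j ∈ p.support, i < j ∧
      V.valuation (algebraMap F F1 (p.coeff i) * z ^ i) =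
        V.valuation (algebraMap F F1 (p.coeff j) * z ^ j) := by
    by_contra hcon
    refine sum_ne V.valuation p.support (fun j => algebraMap F F1 (p.coeff j) * z ^ j) ?_ ?_ ?_ hp
    · intro j hj
      rw [mem_support_iff] at hj
      exact mul_ne_zero (fun h => hj ((map_eq_zero _).1 h)) (pow_ne_zero _ hz)
    · rw [Finset.nonempty_iff_ne_empty]
      intro h
      exact hp0 (support_eq_empty.1 h)
    · intro i hi j hj hij heq
      rcases lt_or_gt_of_ne hij with h | h
      · exact hcon ⟨i, hi, j, hj, h, heq⟩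
      · exact hcon ⟨j, hj, i, hi, h, heq.symm⟩
  obtain ⟨i, hi, j, hj, hij, heq⟩ := hex
  rw [mem_support_iff] at hi hj
  have hi' : V.valuation (algebraMap F F1 (p.coeff i)) ≠ 0 := by
    rw [Valuation.ne_zero_iff]
    exact fun h => hi ((map_eq_zero _).1 h)
  have hj' : V.valuation (algebraMap F F1 (p.coeff j)) ≠ 0 := by
    rw [Valuation.ne_zero_iff]
    exact fun h => hj ((map_eq_zero _).1 h)
  obtain ⟨n, hn, m, hm⟩ := base_case V hγ hmax (z := p.coeff i * (p.coeff j)⁻¹)
    (mul_ne_zero hi (inv_ne_zero hj))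
  refine ⟨(j - i) * n, Nat.mul_pos (by omega) hn, m, ?_⟩
  rw [← hm, pow_mul]
  congr 1
  rw [map_mul, map_mul, map_inv₀, map_inv₀]
  rw [map_mul, map_mul, map_pow, map_pow] at heq
  obtain ⟨c, rfl⟩ : ∃ c, j = i + c := ⟨j - i, by omega⟩
  rw [pow_add] at heq
  have h7 : i + c - i = c := by omega
  rw [h7]
  have hzi : V.valuation z ^ i ≠ 0 := pow_ne_zero _ hzv
  have h8 : V.valuation (algebraMap F F1 (p.coeff i)) =
      V.valuation (algebraMap F F1 (p.coeff (i + c))) * V.valuation z ^ c := by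
    apply mul_right_cancel₀ hzi
    rw [heq, mul_assoc, mul_comm (V.valuation z ^ i)]
  rw [h8, mul_comm (V.valuation (algebraMap F F1 (p.coeff (i + c)))), mul_assoc,
    mul_inv_cancel₀ hj', mul_one]

end Pool.Agent.H893.DD
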