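import Pool.Agent.H893.DD.Stm4

/-!
# Simultaneous log uniformization of finitely many valuations
-/

set_option autoImplicit false
set_option linter.unusedVariables false
set_option linter.unusedSectionVars false

universe u

namespace Pool.Agent.H893.DD.Psim

open Pool.Agent.W418.LU2 IsLocalRing
open Pool.Agent.H176.DT (Mod SU PP St val_one_iff)

lemma pow_le {R : Type u} [CommRing R] (c : Ideal R) (n : ℕ) :
    c ^ n ≤ Ideal.span {a | ∃ w : Fin n → R, (∀ i, w i ∈ c) ∧ a = ∏ i, w i} := by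
  induction n with
  | zero =>
    intro r _
    have h : (1 : R) ∈ Ideal.span {a | ∃ w : Fin 0 → R, (∀ i, w i ∈ c) ∧ a = ∏ i, w i} :=
      Ideal.subset_span ⟨Fin.elim0, fun i => i.elim0, by simp⟩
    have := Ideal.mul_mem_left _ r h
    rwa [mul_one] at this
  | succ n ih =>
    rw [pow_succ]
    refine Ideal.mul_le.2 fun r hr s hs => ?_
    have h := ih hr
    clear hr
    induction h using Submodule.span_induction with
    | mem a ha =>
      obtain ⟨w, hw, rfl⟩ := ha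
      refine Ideal.subset_span ⟨(Fin.snoc w s : Fin (n + 1) → R), ?_, ?_⟩
      · intro i
        refine Fin.lastCases ?_ (fun j => ?_) i
        · rw [Fin.snoc_last]; exact hs
        · rw [Fin.snoc_castSucc]; exact hw j
      · rw [Fin.prod_univ_castSucc, Fin.snoc_last]
        simp only [Fin.snoc_castSucc]
    | zero => rw [zero_mul]; exact zero_mem _
    | add a b _ _ ha hb => rw [add_mul]; exact add_mem ha hb
    | smul a b _ hb => rw [smul_eq_mul, mul_assoc]; exact Ideal.mul_mem_left _ _ hb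

variable {F : Type u} [Field F]

lemma div_span {A P : Subring F} (hAP : A ≤ P) {S : Set A} {b : F}
    (h : ∀ a ∈ S, (a : F) / b ∈ P) : ∀ a ∈ Ideal.span S, (a : F) / b ∈ P := by
  intro a ha
  induction ha using Submodule.span_induction with
  | mem a ha => exact h a ha
  | zero => simp
  | add a c _ _ ha hb =>
    have h1 : ((a + c : A) : F) / b = (a : F) / b + (c : F) / b := add_div _ _ _
    rw [h1]
    exact P.add_mem ha hb
  | smul c a _ ha =>
    have h1 : ((c • a : A) : F) / b = (c : F) * ((a : F) / b) := mul_div_assoc _ _ _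
    rw [h1]
    exact P.mul_mem (hAP c.2) ha

lemma mul_div {A P : Subring F} {I J : Ideal A} {f g : F}
    (hI : ∀ a ∈ I, (a : F) / f ∈ P) (hJ : ∀ a ∈ J, (a : F) / g ∈ P) :
    ∀ a ∈ I * J, (a : F) / (f * g) ∈ P := by
  intro a ha
  refine Submodule.mul_induction_on ha ?_ ?_
  · intro b hb c hc
    have h3 : ((b * c : A) : F) / (f * g) = (b : F) / f * ((c : F) / g) := by
      change (b : F) * (c : F) / (f * g) = _
      rw [div_mul_div_comm]
    change ((b * c : A) : F) / (f * g) ∈ _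
    rw [h3]
    exact P.mul_mem (hI b hb) (hJ c hc)
  · intro b c hb hc
    have h3 : ((b + c : A) : F) / (f * g) = (b : F) / (f * g) + (c : F) / (f * g) :=
      add_div _ _ _
    rw [h3]
    exact P.add_mem hb hc

lemma prod_div {A P : Subring F} (hAP : A ≤ P) {m : ℕ} (J : Fin m → Ideal A) (γ : Fin m → A)
    (h : ∀ j, ∀ a ∈ J j, (a : F) / (γ j : F) ∈ P) (s : Finset (Fin m)) :
    ∀ a ∈ ∏ j ∈ s, J j, (a : F) / ((∏ j ∈ s, γ j : A) : F) ∈ P := by
  classical
  induction s using Finset.induction_on with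
  | empty =>
    intro a _
    rw [Finset.prod_empty]
    have h1 : (a : F) / ((1 : A) : F) = (a : F) := div_one _
    rw [h1]
    exact hAP a.2
  | insert i s hi ih =>
    rw [Finset.prod_insert hi, Finset.prod_insert hi]
    exact mul_div (h i) ih

/-- The centre. -/
lemma mem_cen {V : ValuationSubring F} {A : Subring F} (hAV : A ≤ V.toSubring) (a : A) :
    a ∈ (maximalIdeal V).comap (Subring.inclusion hAV : A →+* V) ↔ V.valuation (a : F) < 1 := by
  rw [Ideal.mem_comap]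
  exact V.valuation_lt_one_iff ((Subring.inclusion hAV : A →+* V) a)

/-- The generators with respect to a valuation. -/
lemma gen (V : ValuationSubring F) (A : Subring F) [IsNoetherianRing A] (hAV : A ≤ V.toSubring)
    (D : Ideal A) (hD : D ≠ ⊥) : ∃ (d : A) (G : Set F), d ∈ D ∧ (d : F) ≠ 0 ∧ G.Finite ∧
      (∀ g ∈ G, g ≠ 0) ∧ (d : F) ∈ G ∧ ∀ P : Subring F, A ≤ P →
      (∀ g ∈ G, g ∈ V → g ∈ P) → ∀ a ∈ D, (a : F) / (d : F) ∈ P := by
  classical
  obtain ⟨SD, hSD⟩ := (IsNoetherian.noetherian D : D.FG)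
  have hSD' : D = Ideal.span (SD : Set A) := hSD.symm
  obtain ⟨d₀, hd₀S, hd₀0, hd₀⟩ := exists_gen V hAV (S := (SD : Set A)) SD.finite_toSet
    (by rw [← hSD']; exact hD)
  have hd₀0' : (d₀ : F) ≠ 0 := fun h => hd₀0 (Subtype.ext h)
  refine ⟨d₀, ((fun a : A => (a : F) / (d₀ : F)) '' ((SD : Set A) \ {0})) ∪ {(d₀ : F)}, ?_,
    hd₀0', ?_, ?_, ?_, ?_⟩
  · rw [hSD']; exact Ideal.subset_span hd₀S
  · exact (((SD.finite_toSet).sdiff).image _).union (Set.finite_singleton _)
  · rintro g (⟨a, ⟨_, ha⟩, rfl⟩ | hg)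
    · exact div_ne_zero (fun h => ha (Subtype.ext h)) hd₀0'
    · rw [Set.mem_singleton_iff] at hg
      rw [hg]
      exact hd₀0'
  · exact Or.inr rfl
  · intro P hAP hP a ha
    rw [hSD'] at ha
    refine div_span hAP (fun a ha => ?_) a ha
    by_cases h0 : a = 0
    · rw [h0]; simp
    · exact hP _ (Or.inl ⟨a, ⟨ha, h0⟩, rfl⟩) (hd₀ a (Ideal.subset_span ha))

/-- The log desingularization along one of the valuations. -/
lemma one {V : ValuationSubring F} {A : Subring F} {D I₀ : Ideal A} {T : Set F} {n : ℕ}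
    {x : Fin n → F} (hreg : RegP V.toSubring (PP V A T) x) {β : F} (hβA : β ∈ A)
    (hβm : PMon (PP V A T) x β) (hTβ : ∀ t ∈ T, β * t ∈ A) {d f : A} (hd : d ∈ D)
    (hd0 : (d : F) ≠ 0) (hf : f ∈ I₀) (hf0 : (f : F) ≠ 0) (hdm : PMon (PP V A T) x (d : F))
    (hfm : PMon (PP V A T) x (f : F)) (hDP : ∀ a ∈ D, (a : F) / (d : F) ∈ PP V A T)
    (hIP : ∀ a ∈ I₀, (a : F) / (f : F) ∈ PP V A T) {m : ℕ} (i : Fin m) (J : Fin m → Ideal A)
    (γ : Fin m → A) (hγ : ∀ j, γ j ∈ J j) (hγ0 : ∀ j, (γ j : F) ≠ 0) (hγi : (γ i : F) = β)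
    (hγm : ∀ j, PMon (PP V A T) x (γ j : F))
    (hJ : ∀ j, ∀ a ∈ J j, (a : F) / (γ j : F) ∈ PP V A T)
    (hTJ : ∀ t ∈ T, ∀ a : A, (a : F) = t * β → a ∈ J i) :
    LogDesing V A D (I₀ * ∏ j, J j) := by
  classical
  have hBP : Subring.closure ((A : Set F) ∪ T) ≤ PP V A T := le_lo _ _
  have hPV : PP V A T ≤ V.toSubring := hreg.PA
  have hBV : Subring.closure ((A : Set F) ∪ T) ≤ V.toSubring := hBP.trans hPV
  have hAP : A ≤ PP V A T := fun a ha => hBP (Subring.subset_closure (Or.inl ha))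
  have hβ0 : β ≠ 0 := by rw [← hγi]; exact hγ0 i
  set g : A := ∏ j, γ j with hg
  have hgm : PMon (PP V A T) x (g : F) := by
    have h1 : (g : F) = ∏ j, (γ j : F) := by rw [hg]; push_cast; rfl
    rw [h1]
    exact PMon.prod hreg.ne _ fun j _ => hγm j
  have hg0 : (g : F) ≠ 0 := by
    have h1 : (g : F) = ∏ j, (γ j : F) := by rw [hg]; push_cast; rfl
    rw [h1]
    exact Finset.prod_ne_zero_iff.2 fun j _ => hγ0 j
  have hgJ : g ∈ ∏ j, J j := Ideal.prod_mem_prod fun j _ => hγ j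
  set ff : A := f * g with hffd
  have hffc : (ff : F) = (f : F) * (g : F) := rfl
  have hff : ff ∈ I₀ * ∏ j, J j := Ideal.mul_mem_mul hf hgJ
  have hff0' : (ff : F) ≠ 0 := by rw [hffc]; exact mul_ne_zero hf0 hg0
  have hff0 : ff ≠ 0 := fun h => hff0' (congrArg Subtype.val h)
  have hIIP : ∀ a ∈ I₀ * ∏ j, J j, (a : F) / (ff : F) ∈ PP V A T := by
    rw [hffc]
    exact mul_div hIP (prod_div hAP J γ hJ Finset.univ)
  have hchP : chart A (I₀ * ∏ j, J j) ff ≤ PP V A T := by
    unfold chart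
    rw [Subring.closure_le]
    rintro z (hz | ⟨a, ha, rfl⟩)
    · exact hAP hz
    · exact hIIP a ha
  have hBch : Subring.closure ((A : Set F) ∪ T) ≤ chart A (I₀ * ∏ j, J j) ff := by
    rw [Subring.closure_le]
    rintro z (hz | hz)
    · exact Subring.subset_closure (Or.inl hz)
    · have hzA : z * β ∈ A := by rw [mul_comm]; exact hTβ z hz
      have hzJ : (⟨z * β, hzA⟩ : A) ∈ J i := hTJ z hz _ rfl
      refine Subring.subset_closure (Or.inr ⟨f * (⟨z * β, hzA⟩ * ∏ j ∈ Finset.univ.erase i, γ j),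
        Ideal.mul_mem_mul hf ?_, ?_⟩)
      · rw [← Finset.mul_prod_erase Finset.univ J (Finset.mem_univ i)]
        exact Ideal.mul_mem_mul hzJ (Ideal.prod_mem_prod fun j _ => hγ j)
      · rw [eq_div_iff hff0', hffc, hg, ← Finset.mul_prod_erase Finset.univ γ (Finset.mem_univ i)]
        change z * ((f : F) * ((γ i : F) * ((∏ j ∈ Finset.univ.erase i, γ j : A) : F))) =
          (f : F) * ((z * β) * ((∏ j ∈ Finset.univ.erase i, γ j : A) : F))
        rw [hγi]
        ring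
  refine logDesing_of hff hff0 (fun a ha => ?_) hd (fun h => hd0 (congrArg Subtype.val h))
    (P := PP V A T) ?_ hreg hDP ?_
  · exact hPV (hIIP a ha)
  · exact lo_eq hBV hBch hchP
  · rw [hffc]
    exact hdm.mul hreg.ne (hfm.mul hreg.ne hgm)

end Pool.Agent.H893.DD.Psim

namespace Pool.Agent.H893.DD

open Pool.Agent.W418.LU2 IsLocalRing
open Pool.Agent.H176.DT (Mod SU PP St val_one_iff)

theorem t_sim (h : S_stage.{u}) : S_sim.{u} := by
  classical
  intro F _ A _ m V hAV hrk hSU hc D I₀ hD hI₀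
  choose d GD hd hd0 hGDf hGD0 hdG hDP using fun i => Psim.gen (V i) A (hAV i) D hD
  choose f GI hf hf0 hGIf hGI0 hfG hIP using fun i => Psim.gen (V i) A (hAV i) I₀ hI₀
  choose T n x β N hT hreg hβA hβm hTβ hG hcen using fun i =>
    h (V i) A (hAV i) (hrk i) (hSU i) (GD i ∪ GI i) ((hGDf i).union (hGIf i))
      (by
        rintro g (hg | hg)
        · exact hGD0 i g hg
        · exact hGI0 i g hg)
  have hAP : ∀ i, A ≤ PP (V i) A (T i) := fun i a ha =>
    le_lo _ _ (Subring.subset_closure (Or.inl ha))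
  have hβ0 : ∀ i, β i ≠ 0 := by
    intro i
    obtain ⟨u, u0, -, -, δ, hu⟩ := hβm i
    rw [hu]
    exact mul_ne_zero u0 (mo_ne_zero (hreg i).ne δ)
  -- the centres
  set c : Fin m → Ideal A := fun i => (maximalIdeal (V i)).comap
    (Subring.inclusion (hAV i) : A →+* V i) with hcdef
  have hcm : ∀ i (a : A), a ∈ c i ↔ (V i).valuation (a : F) < 1 := fun i a =>
    Psim.mem_cen (hAV i) a
  set S : Fin m → Set A := fun i => {a | (a : F) = β i ∨ ∃ t ∈ T i, (a : F) = t * β i} with hS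
  set J : Fin m → Ideal A := fun i => Ideal.span (S i) ⊔ c i ^ N i with hJ
  have hβJ : ∀ i, (⟨β i, hβA i⟩ : A) ∈ J i := fun i =>
    Ideal.mem_sup_left (Ideal.subset_span (Or.inl rfl))
  have hJP : ∀ i, ∀ a ∈ J i, (a : F) / β i ∈ PP (V i) A (T i) := by
    intro i a ha
    obtain ⟨b, hb, e, he, rfl⟩ := Submodule.mem_sup.1 ha
    have h1 : ((b + e : A) : F) / β i = (b : F) / β i + (e : F) / β i := add_div _ _ _
    rw [h1]
    refine Subring.add_mem _ (Psim.div_span (hAP i) ?_ b hb) ?_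
    · rintro a (h | ⟨t, ht, h⟩)
      · rw [h, div_self (hβ0 i)]; exact Subring.one_mem _
      · rw [h, mul_div_assoc, div_self (hβ0 i), mul_one]
        exact le_lo _ _ (Subring.subset_closure (Or.inr ht))
    · refine Psim.div_span (hAP i) ?_ e (Psim.pow_le (c i) (N i) he)
      rintro a ⟨w, hw, rfl⟩
      have h2 := hcen i (fun k => (w k : F)) fun k => ⟨(w k).2, (hcm i _).1 (hw k)⟩
      rw [div_eq_mul_inv]
      have h3 : ((∏ k, w k : A) : F) = ∏ k, (w k : F) := by push_cast; rfl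
      rw [h3]
      exact h2
  refine ⟨∏ j, J j, ?_, fun i => ?_, ?_⟩
  · -- not zero
    intro h0
    have h1 : (∏ j, (⟨β j, hβA j⟩ : A)) ∈ ∏ j, J j := Ideal.prod_mem_prod fun j _ => hβJ j
    rw [h0, Ideal.mem_bot, Finset.prod_eq_zero_iff] at h1
    obtain ⟨j, -, hj⟩ := h1
    exact hβ0 j (congrArg Subtype.val hj)
  · -- along the valuation `V i`
    have hex : ∀ j, ∃ γ : A, γ ∈ J j ∧ (γ : F) ≠ 0 ∧ (j = i → (γ : F) = β i) ∧
        PMon (PP (V i) A (T i)) (x i) (γ : F) ∧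
        ∀ a ∈ J j, (a : F) / (γ : F) ∈ PP (V i) A (T i) := by
      intro j
      by_cases hji : j = i
      · subst hji
        exact ⟨⟨β j, hβA j⟩, hβJ j, hβ0 j, fun _ => rfl, hβm j, hJP j⟩
      · obtain ⟨a, haA, ha1, ha2⟩ := hc j i hji
        have h1 : (⟨a, haA⟩ : A) ^ N j ∈ J j :=
          Ideal.mem_sup_right (Ideal.pow_mem_pow ((hcm j _).2 ha1) _)
        have h2 : (((⟨a, haA⟩ : A) ^ N j : A) : F) = a ^ N j := rfl
        have h3 : (V i).valuation (a ^ N j) = 1 := by rw [map_pow, ha2, one_pow]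
        obtain ⟨h4, h5, h6⟩ := (val_one_iff (V i) _).1 h3
        have h7 : a ^ N j ∈ PP (V i) A (T i) := hAP i (pow_mem haA _)
        have h8 : (a ^ N j)⁻¹ ∈ PP (V i) A (T i) := (hreg i).inv _ h7 h4 h6
        refine ⟨(⟨a, haA⟩ : A) ^ N j, h1, ?_, fun h => absurd h hji, ?_, ?_⟩
        · rw [h2]; exact h4
        · rw [h2]
          exact ⟨a ^ N j, h4, h7, h8, 0, by rw [mo_zero, mul_one]⟩
        · intro b hb
          rw [h2, div_eq_mul_inv]
          exact Subring.mul_mem _ (hAP i b.2) h8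
    choose γ hγ hγ0 hγi hγm hγP using hex
    exact Psim.one (hreg i) (hβA i) (hβm i) (hTβ i) (hd i) (hd0 i) (hf i) (hf0 i)
      (hG i _ (Or.inl (hdG i))).1 (hG i _ (Or.inr (hfG i))).1
      (hDP i _ (hAP i) fun g hg => (hG i g (Or.inl hg)).2)
      (hIP i _ (hAP i) fun g hg => (hG i g (Or.inr hg)).2) i J γ hγ hγ0 (hγi i rfl) hγm hγP
      (fun t ht a ha => Ideal.mem_sup_left (Ideal.subset_span (Or.inr ⟨t, ht, ha⟩)))
  · -- the support
    intro q hq hIq
    obtain ⟨i, -, hi⟩ := (Ideal.IsPrime.prod_le hq).1 hIq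
    refine ⟨i, fun a ha => ?_⟩
    have h1 : c i ^ N i ≤ q := le_trans le_sup_right hi
    have h2 : c i ≤ q := Ideal.IsPrime.le_of_pow_le h1
    exact h2 ((hcm i a).2 ha)

end Pool.Agent.H893.DD
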