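import Pool.Agent.H893.DD.Stm5
import Pool.Agent.H893.DD.P_sim

/-!
# Separation of the centres of finitely many valuations of rank one by one ideal
-/

set_option autoImplicit false
set_option linter.unusedVariables false
set_option linter.unusedSectionVars false

universe u

namespace Pool.Agent.H893.DD.Psep

open Pool.Agent.W418.LU2 IsLocalRing
open Pool.Agent.H176.DT (Mod SU PP St val_one_iff)

variable {F : Type u} [Field F]

/-- A generator of an ideal with respect to a valuation. -/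
lemma gen1 (V : ValuationSubring F) (A : Subring F) [IsNoetherianRing A] (hAV : A ≤ V.toSubring)
    (I : Ideal A) (hI : I ≠ ⊥) :
    ∃ f ∈ I, (f : F) ≠ 0 ∧ ∀ a ∈ I, (a : F) / (f : F) ∈ V := by
  obtain ⟨d, G, hd, hd0, -, -, -, h⟩ := Psim.gen V A hAV I hI
  exact ⟨d, hd, hd0, h V.toSubring hAV (fun g _ hg => hg)⟩

lemma pow_div {A P : Subring F} (hAP : A ≤ P) {c : Ideal A} {g : F}
    (h : ∀ a ∈ c, (a : F) / g ∈ P) (N : ℕ) : ∀ a ∈ c ^ N, (a : F) / g ^ N ∈ P := by
  induction N with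
  | zero =>
    intro a _
    rw [pow_zero, div_one]
    exact hAP a.2
  | succ N ih =>
    intro a ha
    rw [pow_succ] at ha ⊢
    exact Psim.mul_div ih h a ha

/-- A power of the centre is divisible by a given nonzero element. -/
lemma powers (V : ValuationSubring F) (A : Subring F) [IsNoetherianRing A]
    (hAV : A ≤ V.toSubring)
    (hrk : ∀ a b : F, b ≠ 0 → a ∈ V → a⁻¹ ∉ V → ∃ N : ℕ, a ^ N * b⁻¹ ∈ V)
    (c : Ideal A) (hc : ∀ a : A, a ∈ c ↔ V.valuation (a : F) < 1) (e : F) (he : e ≠ 0) :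
    ∃ N : ℕ, ∀ w ∈ c ^ N, (w : F) / e ∈ V := by
  by_cases h0 : c = ⊥
  · refine ⟨1, fun w hw => ?_⟩
    rw [h0, pow_one, Ideal.mem_bot] at hw
    rw [hw]
    have h1 : ((0 : A) : F) / e = 0 := by simp
    rw [h1]
    exact V.zero_mem
  · obtain ⟨g, hg, hg0, hgV⟩ := gen1 V A hAV c h0
    have hg1 : V.valuation (g : F) < 1 := (hc g).1 hg
    have hgi : (g : F)⁻¹ ∉ V := fun h =>
      absurd ((val_one_iff V (g : F)).2 ⟨hg0, hAV g.2, h⟩) hg1.ne
    obtain ⟨N, hN⟩ := hrk (g : F) e he (hAV g.2) hgi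
    refine ⟨N, fun w hw => ?_⟩
    have h1 : (w : F) / (g : F) ^ N ∈ V := pow_div hAV hgV N w hw
    have h2 : (w : F) / e = (w : F) / (g : F) ^ N * ((g : F) ^ N * e⁻¹) := by
      field_simp
    rw [h2]
    exact V.mul_mem _ _ h1 hN

/-- The ideal of a pair of valuations. -/
lemma pair (A : Subring F) [IsNoetherianRing A] (V W : ValuationSubring F) (hV : Mod V A)
    (hW : Mod W A)
    (hVr : ∀ a b : F, b ≠ 0 → a ∈ V → a⁻¹ ∉ V → ∃ N : ℕ, a ^ N * b⁻¹ ∈ V)
    (hWr : ∀ a b : F, b ≠ 0 → a ∈ W → a⁻¹ ∉ W → ∃ N : ℕ, a ^ N * b⁻¹ ∈ W)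
    (c d : Ideal A) (hc : ∀ a : A, a ∈ c ↔ V.valuation (a : F) < 1)
    (hd : ∀ a : A, a ∈ d ↔ W.valuation (a : F) < 1)
    (hz : ∃ z : F, V.valuation z < 1 ∧ 1 < W.valuation z) :
    ∃ (K : Ideal A) (a b : A), a ∈ K ∧ b ∈ K ∧ (a : F) ≠ 0 ∧ (b : F) ≠ 0 ∧
      (∀ u ∈ K, (u : F) / (b : F) ∈ V) ∧ (∀ u ∈ K, (u : F) / (a : F) ∈ W) ∧
      V.valuation ((a : F) / (b : F)) < 1 ∧
      ∀ q : Ideal A, q.IsPrime → K ≤ q → c ≤ q ∨ d ≤ q := by
  obtain ⟨z, hz1, hz2⟩ := hz
  obtain ⟨a, ha, b, hb, hb0, hzab⟩ := hV.2 z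
  have hz0 : z ≠ 0 := by
    rintro rfl
    rw [map_zero] at hz2
    exact absurd hz2 not_lt_zero
  have ha0 : a ≠ 0 := by
    rintro rfl
    exact hz0 (by rw [hzab, zero_mul])
  obtain ⟨N₁, h1⟩ := powers V A hV.1 hVr c hc b hb0
  obtain ⟨N₂, h2⟩ := powers W A hW.1 hWr d hd a ha0
  have hzd : a / b = z := by rw [hzab, div_eq_mul_inv]
  have hzV : z ∈ V := (V.valuation_le_one_iff z).1 hz1.le
  have hzW : z⁻¹ ∈ W := by
    rw [← W.valuation_le_one_iff, map_inv₀]
    exact inv_le_one_of_one_le₀ hz2.le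
  refine ⟨Ideal.span {(⟨a, ha⟩ : A), (⟨b, hb⟩ : A)} ⊔ c ^ N₁ * d ^ N₂, ⟨a, ha⟩, ⟨b, hb⟩,
    Ideal.mem_sup_left (Ideal.subset_span (Or.inl rfl)),
    Ideal.mem_sup_left (Ideal.subset_span (Or.inr rfl)), ha0, hb0, ?_, ?_, ?_, ?_⟩
  · intro u hu
    obtain ⟨s, hs, t, ht, rfl⟩ := Submodule.mem_sup.1 hu
    have h3 : ((s + t : A) : F) / b = (s : F) / b + (t : F) / b := add_div _ _ _
    change ((s + t : A) : F) / b ∈ V
    rw [h3]
    have htc : t ∈ c ^ N₁ := (Ideal.mul_le_left : c ^ N₁ * d ^ N₂ ≤ c ^ N₁) ht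
    refine V.add_mem _ _ ?_ (h1 t htc)
    refine Psim.div_span (P := V.toSubring) hV.1 ?_ s hs
    rintro x (rfl | hx)
    · change a / b ∈ V
      rw [hzd]; exact hzV
    · rw [Set.mem_singleton_iff] at hx
      subst hx
      change b / b ∈ V
      rw [div_self hb0]; exact V.one_mem
  · intro u hu
    obtain ⟨s, hs, t, ht, rfl⟩ := Submodule.mem_sup.1 hu
    have h3 : ((s + t : A) : F) / a = (s : F) / a + (t : F) / a := add_div _ _ _
    change ((s + t : A) : F) / a ∈ W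
    rw [h3]
    have htd : t ∈ d ^ N₂ := (Ideal.mul_le_right : c ^ N₁ * d ^ N₂ ≤ d ^ N₂) ht
    refine W.add_mem _ _ ?_ (h2 t htd)
    refine Psim.div_span (P := W.toSubring) hW.1 ?_ s hs
    rintro x (rfl | hx)
    · change a / a ∈ W
      rw [div_self ha0]; exact W.one_mem
    · rw [Set.mem_singleton_iff] at hx
      subst hx
      change b / a ∈ W
      have h4 : b / a = z⁻¹ := by rw [← hzd, inv_div]
      rw [h4]; exact hzW
  · change V.valuation (a / b) < 1
    rw [hzd]; exact hz1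
  · intro q hq hK
    have h3 : c ^ N₁ * d ^ N₂ ≤ q := le_trans le_sup_right hK
    rcases (Ideal.IsPrime.mul_le hq).1 h3 with h | h
    · exact Or.inl (hq.le_of_pow_le h)
    · exact Or.inr (hq.le_of_pow_le h)

lemma prod_div {A P : Subring F} (hAP : A ≤ P) {ι : Type} (J : ι → Ideal A) (γ : ι → A)
    (h : ∀ j, ∀ a ∈ J j, (a : F) / (γ j : F) ∈ P) (s : Finset ι) :
    ∀ a ∈ ∏ j ∈ s, J j, (a : F) / ((∏ j ∈ s, γ j : A) : F) ∈ P := by
  classical
  induction s using Finset.induction_on with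
  | empty =>
    intro a _
    rw [Finset.prod_empty]
    have h1 : (a : F) / ((1 : A) : F) = (a : F) := div_one _
    rw [h1]
    exact hAP a.2
  | insert i s hi ih =>
    rw [Finset.prod_insert hi, Finset.prod_insert hi]
    exact Psim.mul_div (h i) ih

end Pool.Agent.H893.DD.Psep

namespace Pool.Agent.H893.DD

open Pool.Agent.W418.LU2 IsLocalRing
open Pool.Agent.H176.DT (Mod SU PP St val_one_iff)

theorem t_sep : S_sep.{u} := by
  classical
  intro F _ A _ m V hV hrk hz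
  -- the centres
  set c : Fin m → Ideal A := fun i => (maximalIdeal (V i)).comap
    (Subring.inclusion (hV i).1 : A →+* V i) with hcdef
  have hcm : ∀ i (a : A), a ∈ c i ↔ (V i).valuation (a : F) < 1 := fun i a =>
    Psim.mem_cen (hV i).1 a
  -- the pairs
  let Pr : Type := {p : Fin m × Fin m // p.1 ≠ p.2}
  choose K a b ha hb ha0 hb0 hKb hKa hab hK using fun p : Pr =>
    Psep.pair A (V p.1.1) (V p.1.2) (hV _) (hV _) (hrk _) (hrk _) (c p.1.1) (c p.1.2) (hcm _)
      (hcm _) (hz _ _ p.2)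
  have hK0 : ∀ p, K p ≠ ⊥ := by
    intro p h
    have h1 := ha p
    rw [h, Ideal.mem_bot] at h1
    exact ha0 p (congrArg Subtype.val h1)
  choose g hg hg0 hgV using fun (l : Fin m) (p : Pr) =>
    Psep.gen1 (V l) A (hV l).1 (K p) (hK0 p)
  have hfJ : ∀ l, (∏ p, g l p) ∈ ∏ p, K p := fun l => Ideal.prod_mem_prod fun p _ => hg l p
  have hf0 : ∀ l, ((∏ p, g l p : A) : F) ≠ 0 := by
    intro l
    have h1 : ((∏ p, g l p : A) : F) = ∏ p, (g l p : F) := by push_cast; rfl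
    rw [h1]
    exact Finset.prod_ne_zero_iff.2 fun p _ => hg0 l p
  have hfV : ∀ l, ∀ u ∈ ∏ p, K p, (u : F) / ((∏ p, g l p : A) : F) ∈ V l := fun l =>
    Psep.prod_div (P := (V l).toSubring) (hV l).1 K (g l) (hgV l) Finset.univ
  refine ⟨∏ p, K p, fun l => ∏ p, g l p, fun l => ⟨hfJ l, hf0 l, hfV l⟩, ?_, ?_⟩
  · intro i j hij
    set p : Pr := ⟨(i, j), hij⟩ with hp
    set r : A := ∏ s ∈ Finset.univ.erase p, g j s with hr
    have hrK : ∀ x ∈ K p, x * r ∈ ∏ s, K s := by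
      intro x hx
      rw [← Finset.mul_prod_erase Finset.univ K (Finset.mem_univ p)]
      exact Ideal.mul_mem_mul hx (Ideal.prod_mem_prod fun s _ => hg j s)
    have hr0 : (r : F) ≠ 0 := by
      have h1 : (r : F) = ∏ s ∈ Finset.univ.erase p, (g j s : F) := by rw [hr]; push_cast; rfl
      rw [h1]
      exact Finset.prod_ne_zero_iff.2 fun s _ => hg0 j s
    refine ⟨a p * r, hrK _ (ha p), ?_, ?_⟩
    · have h1 : ((a p * r : A) : F) / ((∏ s, g i s : A) : F) =
          ((a p : F) / (b p : F)) * (((b p * r : A) : F) / ((∏ s, g i s : A) : F)) := by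
        have h2 : ((a p * r : A) : F) = (a p : F) * (r : F) := rfl
        have h3 : ((b p * r : A) : F) = (b p : F) * (r : F) := rfl
        have h4 := hb0 p
        have h5 := hf0 i
        rw [h2, h3]
        field_simp
      rw [h1, map_mul]
      have h2 : (V i).valuation (((b p * r : A) : F) / ((∏ s, g i s : A) : F)) ≤ 1 :=
        ((V i).valuation_le_one_iff _).2 (hfV i _ (hrK _ (hb p)))
      exact lt_of_le_of_lt (mul_le_of_le_one_right' h2) (hab p)
    · have h1 : ((a p * r : A) : F) / ((∏ s, g j s : A) : F) = (a p : F) / (g j p : F) := by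
        have h2 : ((a p * r : A) : F) = (a p : F) * (r : F) := rfl
        have h3 : ((∏ s, g j s : A) : F) = (g j p : F) * (r : F) := by
          rw [← Finset.mul_prod_erase Finset.univ (g j) (Finset.mem_univ p)]
          rfl
        have h4 := hg0 j p
        rw [h2, h3]
        field_simp
      rw [h1, val_one_iff]
      refine ⟨div_ne_zero (ha0 p) (hg0 j p), hgV j p _ (ha p), ?_⟩
      rw [inv_div]
      exact hKa p _ (hg j p)
  · intro q hq hJq
    obtain ⟨p, -, hp⟩ := (Ideal.IsPrime.prod_le hq).1 hJq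
    rcases hK p q hq hp with h | h
    · exact ⟨p.1.1, fun x hx => h ((hcm _ x).2 hx)⟩
    · exact ⟨p.1.2, fun x hx => h ((hcm _ x).2 hx)⟩

end Pool.Agent.H893.DD
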