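import Pool.Agent.H893.DD.Stm

/-!
# After a change of monomials all coordinates divide all monomials of positive value
(project DD of helper893, written by helper97)
-/

set_option autoImplicit false
set_option linter.unusedVariables false
set_option linter.unusedSectionVars false

universe u

namespace Pool.Agent.H893.DD

open Pool.Agent.W418.LU2 IsLocalRing Polynomial
open Pool.Agent.H176.DT (Mod SU PP St)

namespace Ppos

variable {F : Type u} [Field F] {s : ℕ}

lemma mo_one (x : Fin s → F) : mo x 1 = ∏ i, x i := by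
  unfold mo
  exact Finset.prod_congr rfl fun i _ => by rw [Pi.one_apply, zpow_one]

lemma mo_sub {x : Fin s → F} (hx : ∀ i, x i ≠ 0) (δ γ : Fin s → ℤ) :
    mo x (δ - γ) = mo x δ * (mo x γ)⁻¹ := by
  rw [sub_eq_add_neg, mo_add hx, mo_neg]

lemma zpow_sum {a : F} (ha : a ≠ 0) (S : Finset (Fin s)) (f : Fin s → ℤ) :
    ∏ i ∈ S, a ^ f i = a ^ (∑ i ∈ S, f i) := by
  classical
  induction S using Finset.induction_on with
  | empty => rw [Finset.prod_empty, Finset.sum_empty, zpow_zero]
  | insert b S hb ih => rw [Finset.prod_insert hb, Finset.sum_insert hb, zpow_add₀ ha, ih]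

/-- Composition of changes of monomials. -/
lemma mo_comp {x y : Fin s → F} (hx : ∀ i, x i ≠ 0) (D : Matrix (Fin s) (Fin s) ℤ)
    (h : ∀ i, y i = mo x (D i)) (γ : Fin s → ℤ) : mo y γ = mo x (Matrix.vecMul γ D) := by
  have h1 : ∀ i, y i ^ γ i = ∏ l, x l ^ (γ i * D i l) := by
    intro i
    rw [h i, ← Pool.Agent.Y67.DT.mo_zsmul]
    unfold mo
    exact Finset.prod_congr rfl fun l _ => by rw [Pi.smul_apply, smul_eq_mul]
  have h2 : mo y γ = ∏ i, ∏ l, x l ^ (γ i * D i l) := by
    unfold mo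
    exact Finset.prod_congr rfl fun i _ => h1 i
  rw [h2, Finset.prod_comm]
  unfold mo
  refine Finset.prod_congr rfl fun l _ => ?_
  rw [Matrix.vecMul, dotProduct]
  exact zpow_sum (hx l) _ _

end Ppos

open Ppos

/-- **The change of monomials.** -/
theorem t_pos : S_pos.{u} := by
  classical
  intro F _ V hN A T s x hst hxV hind G hG hGP
  have hx : ∀ i, x i ≠ 0 := hst.reg.ne
  have hxmV : ∀ i, x i ∈ V := fun i => hst.reg.PA (hst.reg.mem i)
  choose N hNV using fun i j : Fin s => hN (x i) (x j) (hx j) (hxmV i) (hxV i)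
  -- the comparison
  obtain ⟨T', x', hTT, hst', hRef, hx'm, hPM, hmem⟩ := Pool.Agent.H176.DT.p_ref V A T x hst
    (G ∪ Set.range (fun p : Fin s × Fin s => x p.1 ^ N p.1 p.2 * (x p.2)⁻¹))
    (hG.union (Set.finite_range _)) (by
      rintro g (hg | ⟨⟨i, j⟩, rfl⟩)
      · exact hGP g hg
      · have h1 : x i ^ N i j * (x j)⁻¹ =
            mo x ((N i j : ℤ) • Pi.single i 1 - Pi.single j 1) := by
          rw [mo_sub hx, Pool.Agent.Y67.DT.mo_zsmul, mo_single, mo_single, zpow_natCast]
        show PMon (PP V A T) x (x i ^ N i j * (x j)⁻¹)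
        rw [h1]
        exact ⟨1, one_ne_zero, Subring.one_mem _, by rw [inv_one]; exact Subring.one_mem _, _,
          by rw [one_mul]⟩)
  have hx' : ∀ i, x' i ≠ 0 := hst'.reg.ne
  choose D hD using hx'm
  have hCex : ∀ j, ∃ γ' : Fin s → ℤ, 0 ≤ γ' ∧ x j = mo x' γ' := by
    intro j
    obtain ⟨γ', h1, h2⟩ := hRef (Pi.single j 1) (by
      rw [Pi.single_nonneg]
      exact zero_le_one)
    exact ⟨γ', h1, by rw [← h2, mo_single]⟩
  choose C hC0 hC using hCex
  have hDmo : ∀ γ : Fin s → ℤ, mo x' γ = mo x (Matrix.vecMul γ (Matrix.of D)) := fun γ =>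
    mo_comp hx (Matrix.of D) hD γ
  have hCmo : ∀ γ : Fin s → ℤ, mo x γ = mo x' (Matrix.vecMul γ (Matrix.of C)) := fun γ =>
    mo_comp hx' (Matrix.of C) hC γ
  have hCD : Matrix.of C * Matrix.of D = 1 := by
    ext j l
    have h1 : mo x (Matrix.vecMul (C j) (Matrix.of D) - Pi.single j 1) = 1 := by
      rw [mo_sub hx, ← hDmo, ← hC, mo_single, mul_inv_cancel₀ (hx j)]
    have h2 := hind _ (by rw [h1, map_one])
    have h3 := congrFun h2 l
    rw [Pi.sub_apply, Pi.zero_apply, sub_eq_zero] at h3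
    rw [Matrix.one_apply, Matrix.mul_apply]
    rw [Pi.single_apply] at h3
    rw [Matrix.vecMul, dotProduct] at h3
    rw [show (if j = l then (1 : ℤ) else 0) = if l = j then 1 else 0 by simp only [eq_comm]]
    exact h3
  have hDC : Matrix.of D * Matrix.of C = 1 := mul_eq_one_comm.1 hCD
  have hind' : ∀ δ : Fin s → ℤ, V.valuation (mo x' δ) = 1 → δ = 0 := by
    intro δ hδ
    rw [hDmo] at hδ
    have h1 := hind _ hδ
    have h2 : Matrix.vecMul (Matrix.vecMul δ (Matrix.of D)) (Matrix.of C) = δ := by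
      rw [Matrix.vecMul_vecMul, hDC, Matrix.vecMul_one]
    rw [← h2, h1, Matrix.zero_vecMul]
  have hx'V : ∀ i, (x' i)⁻¹ ∉ V := by
    intro i hi
    have h1 : x' i ∈ V := hst'.reg.PA (hst'.reg.mem i)
    have h2 : V.valuation (x' i) = 1 := by
      rw [← V.valuation_le_one_iff] at h1 hi
      rw [map_inv₀] at hi
      refine le_antisymm h1 ?_
      have h3 : V.valuation (x' i) ≠ 0 := by
        rw [Ne, map_eq_zero]
        exact hx' i
      exact (inv_le_one₀ (zero_lt_iff.2 h3)).1 hi
    have h3 := congrFun (hind' (Pi.single i 1) (by rw [mo_single]; exact h2)) i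
    rw [Pi.single_eq_same, Pi.zero_apply] at h3
    exact one_ne_zero h3
  have hcol : ∀ l, ∃ j, 1 ≤ C j l := by
    intro l
    by_contra hcon
    push Not at hcon
    have h1 : ∀ j, C j l = 0 := fun j => le_antisymm (by have := hcon j; omega) (hC0 j l)
    have h2 := congrFun (congrFun hDC l) l
    rw [Matrix.one_apply_eq, Matrix.mul_apply] at h2
    have h3 : ∑ j, (Matrix.of D) l j * (Matrix.of C) j l = 0 :=
      Finset.sum_eq_zero fun j _ => by
        rw [Matrix.of_apply C, h1 j, mul_zero]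
    rw [h3] at h2
    exact zero_ne_one h2
  have hCpos : ∀ i l, 1 ≤ C i l := by
    intro i l
    obtain ⟨j, hj⟩ := hcol l
    have h1 : x i ^ N i j * (x j)⁻¹ ∈ PP V A T' :=
      hmem _ (Or.inr ⟨(i, j), rfl⟩) (hNV i j)
    have h2 : x i ^ N i j * (x j)⁻¹ = mo x' ((N i j : ℤ) • C i - C j) := by
      rw [mo_sub hx', Pool.Agent.Y67.DT.mo_zsmul, ← hC, ← hC, zpow_natCast]
    rw [h2] at h1
    have h3 := Pool.Agent.H176.DT.p_expo hst'.reg _ h1 l (hx'V l)
    rw [Pi.sub_apply, Pi.smul_apply, smul_eq_mul] at h3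
    by_contra hcon
    have h4 : C i l = 0 := le_antisymm (by omega) (hC0 i l)
    rw [h4, mul_zero] at h3
    omega
  refine ⟨T', x', hst', hx'V, hind', ?_, ?_⟩
  · intro g hg
    exact ⟨hPM g (hGP g hg), hmem g (Or.inl hg)⟩
  · rintro w hw hwV ⟨u, u0, u1, u2, α, rfl⟩
    have hPP : PP V A T ≤ PP V A T' :=
      lo_mono (Subring.closure_mono (Set.union_subset_union_right _ hTT))
    have hmoP : mo x α ∈ PP V A T := by
      have h1 : mo x α = u⁻¹ * (u * mo x α) := by
        rw [← mul_assoc, inv_mul_cancel₀ u0, one_mul]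
      rw [h1]
      exact Subring.mul_mem _ u2 hw
    have hα : ∀ j, 0 ≤ α j := fun j => Pool.Agent.H176.DT.p_expo hst.reg α hmoP j (hxV j)
    have hα0 : ∃ j, 1 ≤ α j := by
      by_contra hcon
      push Not at hcon
      have h1 : α = 0 := by
        funext j
        have := hcon j
        have := hα j
        rw [Pi.zero_apply]
        omega
      apply hwV
      rw [h1, mo_zero, mul_one]
      exact hst.reg.PA u2
    obtain ⟨j0, hj0⟩ := hα0
    have hge : (0 : Fin s → ℤ) ≤ Matrix.vecMul α (Matrix.of C) - 1 := by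
      intro l
      rw [Pi.zero_apply, Pi.sub_apply, Pi.one_apply, sub_nonneg, Matrix.vecMul, dotProduct]
      calc (1 : ℤ) ≤ α j0 * C j0 l := by
            have := hCpos j0 l
            nlinarith
        _ ≤ ∑ j, α j * (Matrix.of C) j l :=
            Finset.single_le_sum (f := fun j => α j * (Matrix.of C) j l)
              (fun j _ => mul_nonneg (hα j) (hC0 j l)) (Finset.mem_univ j0)
    have h5 : u * mo x α * (∏ i, x' i)⁻¹ = u * mo x' (Matrix.vecMul α (Matrix.of C) - 1) := by
      rw [mo_sub hx', ← hCmo, mo_one, mul_assoc]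
    rw [h5]
    exact Subring.mul_mem _ (hPP u1) (mo_mem hst'.reg.mem hge)

end Pool.Agent.H893.DD
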