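import Pool.Agent.H893.DD.Stm4
import Pool.Agent.H893.DD.P_pos

/-!
# One stage: all coordinates divide the centre
(project DD of helper893, written by helper539)
-/

set_option autoImplicit false
set_option linter.unusedVariables false
set_option linter.unusedSectionVars false

universe u

namespace Pool.Agent.H893.DD

open Pool.Agent.W418.LU2 IsLocalRing Polynomial
open Pool.Agent.H176.DT (Mod SU PP St)

namespace Pstage

variable {F : Type u} [Field F]

lemma le_PP (V : ValuationSubring F) (A : Subring F) (T : Set F) : A ≤ PP V A T :=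
  fun _ ha => le_lo _ _ (Subring.subset_closure (Or.inl ha))

lemma lo_le_PP (V : ValuationSubring F) (A : Subring F) (T : Set F) :
    lo V.toSubring A ≤ PP V A T :=
  lo_mono fun _ ha => Subring.subset_closure (Or.inl ha)

/-- A power of the product of the coordinates is divisible by a monomial. -/
lemma pow_div {P : Subring F} {s : ℕ} {x : Fin s → F} (hx : ∀ i, x i ≠ 0) (hm : ∀ i, x i ∈ P)
    {u : F} (u2 : u⁻¹ ∈ P) (δ : Fin s → ℤ) (hδ : ∀ j, 0 ≤ δ j) :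
    (∏ j, x j) ^ (∑ j, δ j).toNat * (u * mo x δ)⁻¹ ∈ P := by
  have h1 : (∏ j, x j) ^ (∑ j, δ j).toNat * (u * mo x δ)⁻¹ =
      u⁻¹ * mo x ((((∑ j, δ j).toNat : ℕ) : ℤ) • (1 : Fin s → ℤ) - δ) := by
    rw [Ppos.mo_sub hx, Pool.Agent.Y67.DT.mo_zsmul, Ppos.mo_one, zpow_natCast, mul_inv]
    ring
  rw [h1]
  refine Subring.mul_mem _ u2 (mo_mem hm fun j => ?_)
  rw [Pi.zero_apply, Pi.sub_apply, Pi.smul_apply, Pi.one_apply, smul_eq_mul, mul_one, sub_nonneg,
    Int.toNat_of_nonneg (Finset.sum_nonneg fun i _ => hδ i)]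
  exact Finset.single_le_sum (fun i _ => hδ i) (Finset.mem_univ j)

end Pstage

open Pstage

/-- **One stage.** -/
theorem t_stage : S_stage.{u} := by
  classical
  intro F _ V A _ hAV hN hSU G hG hG0
  obtain ⟨m, w, hwA, hwV, hgen⟩ := exists_gens (W := V) A hAV
  have hGf : (G ∪ Set.range w).Finite := hG.union (Set.finite_range w)
  obtain ⟨T0, s, x0, hSt0, hx0V, hind0, hmon0⟩ := Pool.Agent.H176.DT.p_ind V A hSU
    (G ∪ Set.range w) hGf (by
      rintro g (hg | ⟨i, rfl⟩)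
      · exact hG0 g hg
      · exact ne_zero_of_inv (hwV i))
  obtain ⟨T, x, hSt, hxV, hind, hmon, hdiv⟩ := t_pos V hN A T0 x0 hSt0 hx0V hind0
    (G ∪ Set.range w) hGf fun g hg => (hmon0 g hg).1
  -- the centre is divisible by the product of the coordinates
  have hAdiv : ∀ a ∈ A, V.valuation a < 1 → a * (∏ j, x j)⁻¹ ∈ PP V A T := by
    intro a ha h1
    obtain ⟨c, hc, hac⟩ := hgen a (le_lo _ _ ha) ((lt_one_iff (hAV ha)).1 h1)
    rw [hac, Finset.sum_mul]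
    refine Subring.sum_mem _ fun i _ => ?_
    rw [mul_assoc]
    exact Subring.mul_mem _ (lo_le_PP V A T (hc i))
      (hdiv (w i) (le_PP V A T0 (hwA i)) (hwV i) (hmon0 (w i) (Or.inr ⟨i, rfl⟩)).1)
  -- the denominator
  obtain ⟨β, hβA, hβP, hβT, -⟩ := hSt.den
  have hβP' := hβP
  obtain ⟨u, u0, u1, u2, δ, hβ⟩ := hβP'
  have hmoP : mo x δ ∈ PP V A T := by
    have h1 : mo x δ = u⁻¹ * β := by
      rw [hβ, ← mul_assoc, inv_mul_cancel₀ u0, one_mul]
    rw [h1]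
    exact Subring.mul_mem _ u2 (le_PP V A T hβA)
  have hδ : ∀ j, 0 ≤ δ j := fun j =>
    Pool.Agent.H176.DT.p_expo hSt.reg δ hmoP j (hxV j)
  refine ⟨T, s, x, β, (∑ j, δ j).toNat, hSt.fin, hSt.reg, hβA, hβP, hβT,
    fun g hg => hmon g (Or.inl hg), fun v hv => ?_⟩
  have h1 : ∏ i, (v i * (∏ j, x j)⁻¹) ∈ PP V A T :=
    Subring.prod_mem _ fun i _ => hAdiv (v i) (hv i).1 (hv i).2
  rw [Finset.prod_mul_distrib, Finset.prod_const, Finset.card_univ, Fintype.card_fin] at h1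
  have h2 : (∏ j, x j) ^ (∑ j, δ j).toNat * (u * mo x δ)⁻¹ ∈ PP V A T :=
    pow_div hSt.reg.ne hSt.reg.mem u2 δ hδ
  have hx0 : (∏ j, x j) ≠ 0 := Finset.prod_ne_zero_iff.2 fun j _ => hSt.reg.ne j
  have h3 : (∏ i, v i) * β⁻¹ = ((∏ i, v i) * (∏ j, x j)⁻¹ ^ (∑ j, δ j).toNat) *
      ((∏ j, x j) ^ (∑ j, δ j).toNat * (u * mo x δ)⁻¹) := by
    rw [hβ, inv_pow, mul_assoc, ← mul_assoc ((∏ j, x j) ^ (∑ j, δ j).toNat)⁻¹,
      inv_mul_cancel₀ (pow_ne_zero _ hx0), one_mul]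
  rw [h3]
  exact Subring.mul_mem _ h1 h2

end Pool.Agent.H893.DD
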