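import Pool.Agent.H893.DD.Glue
import Pool.Agent.H893.DD.P_stage
import Pool.Agent.H893.DD.P_sep
import Pool.Agent.H893.DD.P_sim2

/-!
# Simultaneous log uniformization
-/

set_option autoImplicit false
set_option linter.unusedVariables false
set_option linter.unusedSectionVars false

universe u

namespace Pool.Agent.H893.DD

open Pool.Agent.W418.LU2 IsLocalRing Polynomial
open Pool.Agent.H176.DT (Mod SU PP St p_move p_noe)
open scoped NNReal

/-- The change of the model. -/
theorem su_model {K : Type u} [Field K] (V : ValuationSubring K) (R : Subring K)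
    [IsNoetherianRing R] (U : Set K) (hU : U.Finite)
    (hM : Mod V (Subring.closure ((R : Set K) ∪ U)))
    (hSU : SU V (Subring.closure ((R : Set K) ∪ U))) (A : Subring K) (G : Set K) (hG : G.Finite)
    (hA : A = Subring.closure ((R : Set K) ∪ G)) (hAM : Mod V A) :
    SU V A ∧ IsNoetherianRing A := by
  have hGA : ∀ g ∈ G, g ∈ V := fun g hg => hAM.1 (by
    rw [hA]
    exact Subring.subset_closure (Or.inr hg))
  have hUA : ∀ g ∈ U, g ∈ V := fun g hg => hM.1 (Subring.subset_closure (Or.inr hg))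
  have h2 := (p_move V _ hM G hG hGA).1 hSU
  have h3 : Subring.closure ((Subring.closure ((R : Set K) ∪ U) : Set K) ∪ G) =
      Subring.closure ((A : Set K) ∪ U) := by
    rw [hA]
    apply le_antisymm
    · rw [Subring.closure_le]
      rintro z (hz | hz)
      · refine (?_ : Subring.closure ((R : Set K) ∪ U) ≤ _) hz
        rw [Subring.closure_le]
        rintro z (hz | hz)
        · exact Subring.subset_closure (Or.inl (Subring.subset_closure (Or.inl hz)))
        · exact Subring.subset_closure (Or.inr hz)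
      · exact Subring.subset_closure (Or.inl (Subring.subset_closure (Or.inr hz)))
    · rw [Subring.closure_le]
      rintro z (hz | hz)
      · refine (?_ : Subring.closure ((R : Set K) ∪ G) ≤ _) hz
        rw [Subring.closure_le]
        rintro z (hz | hz)
        · exact Subring.subset_closure (Or.inl (Subring.subset_closure (Or.inl hz)))
        · exact Subring.subset_closure (Or.inr hz)
      · exact Subring.subset_closure (Or.inl (Subring.subset_closure (Or.inr hz)))
  rw [h3] at h2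
  have h4 : SU V A := (p_move V A hAM U hU hUA).2 h2
  have hN : IsNoetherianRing A := by
    rw [hA]
    exact p_noe R G hG
  exact ⟨h4, hN⟩

section sep

variable {K : Type u} [Field K]

lemma not_le_of_rank (v w : Valuation K ℝ≥0) (hv : ∃ z, z ≠ 0 ∧ v z ≠ 1)
    (h : w.valuationSubring ≤ v.valuationSubring) : v.valuationSubring ≤ w.valuationSubring := by
  intro x hx
  by_contra hxw
  rw [mem_vs] at hxw hx
  rw [not_le] at hxw
  -- then v is trivial
  have key : ∀ y : K, v y ≤ 1 := by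
    intro y
    obtain ⟨N, hN⟩ := pow_unbounded_of_one_lt (w y) hxw
    have hx0 : x ≠ 0 := by
      rintro rfl
      rw [map_zero] at hxw
      exact absurd hxw (not_lt.2 zero_le_one)
    have h1 : w (y * (x ^ N)⁻¹) ≤ 1 := by
      rw [map_mul, map_inv₀, map_pow]
      refine (mul_inv_le_iff₀ (pow_pos (lt_trans zero_lt_one hxw) N)).2 ?_
      rw [one_mul]
      exact hN.le
    have h2 : v (y * (x ^ N)⁻¹) ≤ 1 := h h1
    have h3 : v y = v (y * (x ^ N)⁻¹) * v x ^ N := by
      rw [← map_pow, ← map_mul, mul_assoc, inv_mul_cancel₀ (pow_ne_zero N hx0), mul_one]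
    rw [h3]
    exact mul_le_one' h2 (pow_le_one₀ zero_le hx)
  obtain ⟨z, hz0, hz1⟩ := hv
  apply hz1
  refine le_antisymm (key z) ?_
  have h4 := key z⁻¹
  rw [map_inv₀] at h4
  have h5 : v z ≠ 0 := (Valuation.ne_zero_iff _).2 hz0
  exact (inv_le_one₀ (zero_lt_iff.2 h5)).1 h4

/-- Different valuations of rank one are independent. -/
lemma exists_sep (v w : Valuation K ℝ≥0) (hv : ∃ z, z ≠ 0 ∧ v z ≠ 1) (hw : ∃ z, z ≠ 0 ∧ w z ≠ 1)
    (hne : v.valuationSubring ≠ w.valuationSubring) : ∃ z, v z < 1 ∧ 1 < w z := by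
  obtain ⟨x, hx, hxw⟩ : ∃ x, x ∈ v.valuationSubring ∧ x ∉ w.valuationSubring := by
    by_contra h
    push Not at h
    exact hne (le_antisymm h (not_le_of_rank w v hw h))
  obtain ⟨y, hy, hyv⟩ : ∃ y, y ∈ w.valuationSubring ∧ y ∉ v.valuationSubring := by
    by_contra h
    push Not at h
    exact hne (le_antisymm (not_le_of_rank v w hv h) h)
  rw [mem_vs] at hx hxw hy hyv
  rw [not_le] at hxw hyv
  have hy0 : y ≠ 0 := by
    rintro rfl
    rw [map_zero] at hyv
    exact absurd hyv (not_lt.2 zero_le_one)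
  have hwy : w y ≠ 0 := (Valuation.ne_zero_iff _).2 hy0
  refine ⟨x * y⁻¹, ?_, ?_⟩
  · rw [map_mul, map_inv₀]
    exact (mul_inv_lt_iff₀ (lt_trans zero_lt_one hyv)).2 (by rw [one_mul]; exact lt_of_le_of_lt hx hyv)
  · rw [map_mul, map_inv₀]
    exact (lt_mul_inv_iff₀ (zero_lt_iff.2 hwy)).2 (by rw [one_mul]; exact lt_of_le_of_lt hy hxw)

end sep

/-- Simultaneous log uniformization of finitely many different valuations. -/
theorem sim_all {k K : Type u} [Field k] (p : ℕ) [Fact p.Prime] [CharP k p]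
    [Field K] [Algebra k K] [Algebra.EssFiniteType k K] {m : ℕ} (v : Fin m → Valuation K ℝ≥0)
    (hne : ∀ i j, i ≠ j → (v i).valuationSubring ≠ (v j).valuationSubring)
    (hk : ∀ i, ∀ c : k, c ≠ 0 → v i (algebraMap k K c) = 1)
    (hess : ∀ i, letI := rAlg (v i) (hk i); Algebra.EssFiniteType k (Rf (v i)))
    (hsg : ∀ i, letI := rAlg (v i) (hk i);
      ∃ s : Finset (Rf (v i)), IsTranscendenceBasis k ((↑) : s → Rf (v i)) ∧
      Algebra.IsSeparable (IntermediateField.adjoin k (s : Set (Rf (v i)))) (Rf (v i)))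
    (r : Fin m → ℕ) (hr : ∀ i, 2 ≤ r i)
    (htr : ∀ i, letI := rAlg (v i) (hk i);
      Algebra.trdeg k K = Algebra.trdeg k (Rf (v i)) + ((r i + 1 : ℕ) : Cardinal))
    (x : ∀ i, Fin (r i) → K) (hx0 : ∀ i j, x i j ≠ 0)
    (hind : ∀ i, ∀ n : Fin (r i) → ℤ, ∏ j, v i (x i j) ^ n j = 1 → n = 0)
    (hrr : ∀ i, ∀ z : K, z ≠ 0 → ∃ n : ℕ, n ≠ 0 ∧
      ∃ m : Fin (r i) → ℤ, v i z ^ n = ∏ j, v i (x i j) ^ m j)
    (G : Set K) (hG : G.Finite) (A : Subring K)
    (hA : A = Subring.closure (Set.range (algebraMap k K) ∪ G))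
    (hAM : ∀ i, Mod (v i).valuationSubring A) (D I₀ : Ideal A) (hD : D ≠ ⊥) (hI₀ : I₀ ≠ ⊥) :
    ∃ I₁ : Ideal A, I₁ ≠ ⊥ ∧ (∀ i, LogDesing (v i).valuationSubring A D (I₀ * I₁)) ∧
      ∀ q : Ideal A, q.IsPrime → I₁ ≤ q → ∃ i, ∀ a : A, v i (a : K) < 1 → a ∈ q := by
  have hR : ((algebraMap k K).range : Set K) = Set.range (algebraMap k K) := rfl
  have hNk : IsNoetherianRing (algebraMap k K).range :=
    isNoetherianRing_of_surjective k _ (algebraMap k K).rangeRestrict
      (algebraMap k K).rangeRestrict_surjective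
  have hN : IsNoetherianRing A := by
    rw [hA, ← hR]
    exact p_noe (algebraMap k K).range G hG
  have hSU : ∀ i, SU (v i).valuationSubring A := by
    intro i
    obtain ⟨U, hU, hM, h1⟩ := su_all p (v i) (hk i) (hess i) (hsg i) (r i) (hr i) (htr i) (x i)
      (hx0 i) (hind i) (hrr i)
    rw [← hR] at hM h1
    exact (su_model (v i).valuationSubring (algebraMap k K).range U hU hM h1 A G hG
      (by rw [hA, ← hR]) (hAM i)).1
  have hnt : ∀ i, ∃ z, z ≠ 0 ∧ v i z ≠ 1 := by
    intro i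
    have hr0 : 0 < r i := by have := hr i; omega
    refine ⟨x i ⟨0, hr0⟩, hx0 i _, fun h => ?_⟩
    have h2 := hind i (Pi.single ⟨0, hr0⟩ 1) (by
      rw [Finset.prod_eq_single ⟨0, hr0⟩]
      · rw [Pi.single_eq_same, zpow_one, h]
      · intro j _ hj
        rw [Pi.single_eq_of_ne hj, zpow_zero]
      · intro h; exact absurd (Finset.mem_univ _) h)
    have h3 := congrFun h2 ⟨0, hr0⟩
    rw [Pi.single_eq_same] at h3
    exact one_ne_zero h3
  obtain ⟨I₁, h1, h2, h3⟩ := t_sim2 t_stage t_sep A (fun i => (v i).valuationSubring) hAM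
    (fun i a b hb ha hai => arch a b hb ha hai) hSU
    (fun i j hij => by
      obtain ⟨z, hz1, hz2⟩ := exists_sep (v i) (v j) (hnt i) (hnt j) (hne i j hij)
      refine ⟨z, val_lt_one_iff.2 hz1, ?_⟩
      by_contra h
      rw [not_lt] at h
      have h5 := ((v j).valuationSubring.valuation_le_one_iff z).1 h
      rw [mem_vs] at h5
      exact absurd hz2 (not_lt.2 h5)) D I₀ hD hI₀
  refine ⟨I₁, h1, h2, fun q hq hIq => ?_⟩
  obtain ⟨i, hi⟩ := h3 q hq hIq
  exact ⟨i, fun a ha => hi a (val_lt_one_iff.2 ha)⟩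

end Pool.Agent.H893.DD
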