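import Pool.Agent.H893.DD.Stm5

/-!
# Statements on valuations of rank one and of finite rational rank
-/

set_option autoImplicit false
set_option linter.unusedVariables false
set_option linter.unusedSectionVars false

universe u

namespace Pool.Agent.H893.DD

open Pool.Agent.W418.LU2 IsLocalRing Polynomial
open Pool.Agent.H176.DT (Mod SU PP St)

/-- The value group of a valuation ring of rank one is archimedean. -/
def S_arch : Prop :=
  ∀ {F : Type u} [Field F] (V : ValuationSubring F),
    (∀ U : ValuationSubring F, V < U → U = ⊤) →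
    ∀ a b : F, b ≠ 0 → a ∈ V → a⁻¹ ∉ V → ∃ N : ℕ, a ^ N * b⁻¹ ∈ V

/-- Nontrivial valuations are nontrivial on subfields over which the field is algebraic. -/
def S_nt : Prop :=
  ∀ {F F1 : Type u} [Field F] [Field F1] [Algebra F F1] [Algebra.IsAlgebraic F F1]
    (V : ValuationSubring F1), V ≠ ⊤ → ∃ a : F, algebraMap F F1 a ∈ V ∧ algebraMap F F1 a⁻¹ ∉ V

/-- The rational rank is finite. -/
def S_frr : Prop :=
  ∀ {k F F1 : Type u} [Field k] [Field F] [Field F1] [Algebra k F] [Algebra F F1]
    [Algebra.EssFiniteType k F] [Algebra.IsAlgebraic F F1] (V : ValuationSubring F1),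
    (∀ c : k, algebraMap F F1 (algebraMap k F c) ∈ V) →
    ∃ (r : ℕ) (γ : Fin r → F), (∀ i, γ i ≠ 0) ∧ ∀ z : F1, z ≠ 0 → ∃ n : ℕ, 0 < n ∧
      ∃ m : Fin r → ℤ, V.valuation z ^ n = V.valuation (algebraMap F F1 (mo γ m))

end Pool.Agent.H893.DD
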