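import Pool.Agent.H893.DD.Stm3

/-!
# Project DD, part down (helper337): from an intermediate field to the ground field
-/

set_option autoImplicit false
set_option linter.unusedVariables false
set_option linter.unusedSectionVars false

universe u

namespace Pool.Agent.H893.DD

open Pool.Agent.W418.LU2 IsLocalRing Polynomial
open Pool.Agent.H176.DT (Mod SU PP St)
open scoped NNReal

namespace Pdown

variable {F : Type u} [Field F]

/-- common denominators -/
lemma common {A A0 : Subring F} {E : Set F} (hE : E.Finite) (h : ∀ e ∈ E, e ∈ lo A A0) :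
    ∃ σ ∈ A0, σ ≠ 0 ∧ σ⁻¹ ∈ A ∧ ∀ e ∈ E, σ * e ∈ A0 := by
  induction E, hE using Set.Finite.induction_on with
  | empty => exact ⟨1, A0.one_mem, one_ne_zero, by rw [inv_one]; exact A.one_mem, fun e he =>
      absurd he (Set.notMem_empty e)⟩
  | @insert e E he hE ih =>
    obtain ⟨σ, h1, h2, h3, h4⟩ := ih fun e' he' => h e' (Set.mem_insert_of_mem _ he')
    obtain ⟨a, ha, b, hb, hb0, hbA, hab⟩ := h e (Set.mem_insert _ _)
    refine ⟨σ * b, mul_mem h1 hb, mul_ne_zero h2 hb0, ?_, ?_⟩
    · rw [mul_inv]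
      exact mul_mem h3 hbA
    · intro e' he'
      rcases Set.mem_insert_iff.1 he' with rfl | he''
      · have h5 : σ * b * e' = σ * a := by
          rw [hab]
          field_simp
        rw [h5]
        exact mul_mem h1 ha
      · have h5 : σ * b * e' = b * (σ * e') := by ring
        rw [h5]
        exact mul_mem hb (h4 e' he'')

lemma closure_union_le {A A' : Subring F} {T : Set F} (h : A ≤ A') :
    Subring.closure ((A : Set F) ∪ T) ≤ Subring.closure ((A' : Set F) ∪ T) :=
  Subring.closure_mono (Set.union_subset_union_left _ h)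

lemma PP_eq {V : ValuationSubring F} {A A0 : Subring F} (h1 : A0 ≤ A)
    (h2 : A ≤ lo V.toSubring A0) {T : Set F} (hT : PP V A T ≤ V.toSubring) :
    PP V A T = PP V A0 T := by
  have hcl : Subring.closure ((A0 : Set F) ∪ T) ≤ V.toSubring :=
    (closure_union_le h1).trans ((le_lo _ _).trans hT)
  apply le_antisymm
  · apply lo_lo hcl
    rw [Subring.closure_le]
    rintro z (hz | hz)
    · exact lo_mono (fun y hy => Subring.subset_closure (Or.inl hy)) (h2 hz)
    · exact le_lo _ _ (Subring.subset_closure (Or.inr hz))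
  · exact lo_mono (closure_union_le h1)

lemma Mod_of {V : ValuationSubring F} {A A0 : Subring F} (h1 : A0 ≤ A)
    (h2 : A ≤ lo V.toSubring A0) (h : Mod V A) : Mod V A0 := by
  refine ⟨h1.trans h.1, fun z => ?_⟩
  obtain ⟨a, ha, b, hb, hb0, rfl⟩ := h.2 z
  obtain ⟨a1, ha1, a2, ha2, ha20, -, rfl⟩ := h2 ha
  obtain ⟨b1, hb1, b2, hb2, hb20, -, rfl⟩ := h2 hb
  have hb10 : b1 ≠ 0 := by
    rintro rfl
    apply hb0
    rw [zero_mul]
  refine ⟨a1 * b2, mul_mem ha1 hb2, a2 * b1, mul_mem ha2 hb1, mul_ne_zero ha20 hb10, ?_⟩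
  field_simp

lemma SU_of {V : ValuationSubring F} {A A0 : Subring F} (h1 : A0 ≤ A)
    (h2 : A ≤ lo V.toSubring A0) (h : SU V A) : SU V A0 := by
  intro G hG hG0
  obtain ⟨T, n, x, hst, hg⟩ := h G hG hG0
  have hPP := PP_eq h1 h2 (T := T) hst.reg.PA
  rw [hPP] at hg
  refine ⟨T, n, x, ⟨hst.fin, ?_, ?_⟩, hg⟩
  · rw [← hPP]
    exact hst.reg
  · obtain ⟨β, hβ, hβP, hβT, hβx⟩ := hst.den
    have hfin : (insert β ((fun t => β * t) '' T ∪ Set.range (fun i => β * x i))).Finite :=
      (((hst.fin.image _).union (Set.finite_range _))).insert _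
    obtain ⟨σ, s1, s2, s3, s4⟩ := common (A := V.toSubring) (A0 := A0) hfin (by
      rintro e (rfl | ⟨t, ht, rfl⟩ | ⟨i, rfl⟩)
      · exact h2 hβ
      · exact h2 (hβT t ht)
      · exact h2 (hβx i))
    have hσP : σ ∈ PP V A T := by
      rw [hPP]
      exact le_lo _ _ (Subring.subset_closure (Or.inl s1))
    have hσP' : σ⁻¹ ∈ PP V A T := hst.reg.inv σ hσP s2 s3
    refine ⟨σ * β, s4 β (Set.mem_insert _ _), ?_, ?_, ?_⟩
    · rw [← hPP]
      obtain ⟨w, w0, w1, w2, δ, hw⟩ := hβP
      refine ⟨σ * w, mul_ne_zero s2 w0, mul_mem hσP w1, ?_, δ, ?_⟩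
      · rw [mul_inv]
        exact mul_mem hσP' w2
      · rw [hw, mul_assoc]
    · intro t ht
      rw [mul_assoc]
      exact s4 _ (Set.mem_insert_of_mem _ (Or.inl ⟨t, ht, rfl⟩))
    · intro i
      rw [mul_assoc]
      exact s4 _ (Set.mem_insert_of_mem _ (Or.inr ⟨i, rfl⟩))

end Pdown

open Pdown in
theorem t_down : S_down.{u} := by
  intro k K _ _ _ v S F0 hF0 hv U hU hmod hsu
  set V := v.valuationSubring with hV
  set A := Subring.closure ((F0 : Set K) ∪ U) with hA
  refine ⟨(S : Set K) ∪ U, S.finite_toSet.union hU, ?_⟩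
  set A0 := Subring.closure (Set.range (algebraMap k K) ∪ ((S : Set K) ∪ U)) with hA0
  have hadj : ∀ z ∈ Algebra.adjoin k (S : Set K), z ∈ A0 ∧ z ∈ F0 := by
    intro z hz
    constructor
    · have h1 : z ∈ (Algebra.adjoin k (S : Set K)).toSubring := hz
      rw [Algebra.adjoin_eq_ring_closure] at h1
      exact Subring.closure_mono (Set.union_subset_union_right _ Set.subset_union_left) h1
    · rw [hF0]
      exact IntermediateField.algebra_adjoin_le_adjoin k _ hz
  have hF : ∀ z ∈ F0, z ∈ lo V.toSubring A0 := by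
    intro z hz
    rw [hF0, IntermediateField.mem_adjoin_iff_div] at hz
    obtain ⟨a, ha, b, hb, rfl⟩ := hz
    by_cases hb0 : b = 0
    · rw [hb0, div_zero]
      exact zero_mem _
    · refine ⟨a, (hadj a ha).1, b, (hadj b hb).1, hb0, ?_, div_eq_mul_inv a b⟩
      have h1 : v b = 1 := hv ⟨b, (hadj b hb).2⟩ fun h => hb0 (congrArg Subtype.val h)
      change v b⁻¹ ≤ 1
      rw [map_inv₀, h1, inv_one]
  have h1 : A0 ≤ A := by
    rw [hA0, Subring.closure_le]
    rintro z (⟨c, rfl⟩ | hz | hz)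
    · exact Subring.subset_closure (Or.inl (F0.algebraMap_mem c))
    · refine Subring.subset_closure (Or.inl ?_)
      rw [hF0]
      exact IntermediateField.subset_adjoin k _ hz
    · exact Subring.subset_closure (Or.inr hz)
  have h2 : A ≤ lo V.toSubring A0 := by
    rw [hA, Subring.closure_le]
    rintro z (hz | hz)
    · exact hF z hz
    · exact le_lo _ _ (Subring.subset_closure (Or.inr (Or.inr hz)))
  exact ⟨Mod_of h1 h2 hmod, SU_of h1 h2 hsu⟩

end Pool.Agent.H893.DD
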