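import Pool.Agent.H893.DD.Stm3

/-!
# Lifts of a separating transcendence basis and of a primitive element (by helper738)
-/

set_option autoImplicit false
set_option linter.unusedVariables false
set_option linter.unusedSectionVars false

universe u

namespace Pool.Agent.H893.DD

open Pool.Agent.W418.LU2 IsLocalRing Polynomial
open Pool.Agent.H176.DT (Mod SU PP St)
open scoped NNReal

namespace Prdata

/-- A separating transcendence basis and a primitive element. -/
theorem absA (k κ : Type u) [Field k] [Field κ] [Algebra k κ] [Algebra.EssFiniteType k κ]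
    (hsg : ∃ s : Finset κ, IsTranscendenceBasis k ((↑) : s → κ) ∧
      Algebra.IsSeparable (IntermediateField.adjoin k (s : Set κ)) κ) : ∃ (s : Finset κ) (θ : κ),
      IsTranscendenceBasis k ((↑) : s → κ) ∧
      Algebra.IsAlgebraic (IntermediateField.adjoin k (s : Set κ)) κ ∧
      IsSeparable (IntermediateField.adjoin k (s : Set κ)) θ ∧
      Algebra.adjoin (IntermediateField.adjoin k (s : Set κ)) {θ} = ⊤ := by
  obtain ⟨s, hs, hsep⟩ := hsg
  have halg : Algebra.IsAlgebraic (IntermediateField.adjoin k (s : Set κ)) κ := inferInstance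
  have hess : Algebra.EssFiniteType (IntermediateField.adjoin k (s : Set κ)) κ :=
    Algebra.EssFiniteType.of_comp k _ _
  obtain ⟨T, hT⟩ := IntermediateField.fg_top (IntermediateField.adjoin k (s : Set κ)) κ
  have hfd1 : FiniteDimensional (IntermediateField.adjoin k (s : Set κ))
      (IntermediateField.adjoin (IntermediateField.adjoin k (s : Set κ)) (T : Set κ)) :=
    IntermediateField.finiteDimensional_adjoin fun x _ => Algebra.IsIntegral.isIntegral x
  rw [hT] at hfd1
  have hfd : FiniteDimensional (IntermediateField.adjoin k (s : Set κ)) κ :=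
    IntermediateField.topEquiv.toLinearEquiv.finiteDimensional
  obtain ⟨θ, hθ⟩ := Field.exists_primitive_element (IntermediateField.adjoin k (s : Set κ)) κ
  refine ⟨s, θ, hs, halg, Algebra.IsSeparable.isSeparable _ θ, ?_⟩
  have h1 := IntermediateField.adjoin_simple_toSubalgebra_of_isAlgebraic
    (Algebra.IsAlgebraic.isAlgebraic (R := IntermediateField.adjoin k (s : Set κ)) θ)
  rw [← h1, hθ]
  rfl

section

variable {k K κ : Type u} [Field k] [Field K] [Field κ] [Algebra k K] [Algebra k κ]
  {v : Valuation K ℝ≥0}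

/-- The main step, for an arbitrary residue map. -/
theorem absB [Algebra.EssFiniteType k κ]
    (hsg : ∃ s : Finset κ, IsTranscendenceBasis k ((↑) : s → κ) ∧
      Algebra.IsSeparable (IntermediateField.adjoin k (s : Set κ)) κ) (res : v.valuationSubring →+* κ)
    (hsurj : Function.Surjective res) (hres : ∀ x, res x = 0 ↔ v (x : K) < 1)
    (kv : k →+* v.valuationSubring) (hkv : ∀ c, ((kv c : v.valuationSubring) : K) = algebraMap k K c)
    (hkκ : ∀ c, res (kv c) = algebraMap k κ c) :
    ∃ (S : Finset K) (F0 : IntermediateField k K) (a : K) (m : F0[X]),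
      F0 = IntermediateField.adjoin k (S : Set K) ∧
      (∀ c : F0, c ≠ 0 → v (c : K) = 1) ∧ v a ≤ 1 ∧ m.Monic ∧ Irreducible m ∧ m.Separable ∧
      v (aeval a m) < 1 ∧ (∀ x : K, v x ≤ 1 → ∃ q : F0[X], v (x - aeval a q) < 1) ∧
      Algebra.trdeg k F0 = Algebra.trdeg k κ := by
  classical
  obtain ⟨s, θ, hs, halg, hsep, hadj⟩ := absA k κ hsg
  choose lift hlift using hsurj
  -- the lifts
  let g : s → v.valuationSubring := fun i => lift i
  have hg : ∀ i, res (g i) = (i : κ) := fun i => hlift i
  let gK : s → K := fun i => (g i : K)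
  -- polynomials in the lifts
  let evV : MvPolynomial s k →+* v.valuationSubring := MvPolynomial.eval₂Hom kv g
  have hev1 : ∀ p, ((evV p : v.valuationSubring) : K) = MvPolynomial.aeval gK p := by
    intro p
    have h1 : (v.valuationSubring.subtype).comp evV =
        ((MvPolynomial.aeval gK : MvPolynomial s k →ₐ[k] K) : MvPolynomial s k →+* K) := by
      apply MvPolynomial.ringHom_ext
      · intro c
        simp only [evV, RingHom.comp_apply, MvPolynomial.coe_eval₂Hom, MvPolynomial.eval₂_C,
          RingHom.coe_coe, MvPolynomial.aeval_C]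
        exact hkv c
      · intro i
        simp only [evV, RingHom.comp_apply, MvPolynomial.coe_eval₂Hom, MvPolynomial.eval₂_X,
          RingHom.coe_coe, MvPolynomial.aeval_X]
        rfl
    exact congrArg (fun f : MvPolynomial s k →+* K => f p) h1
  have hev2 : ∀ p, res (evV p) = MvPolynomial.aeval ((↑) : s → κ) p := by
    intro p
    have h1 : res.comp evV =
        ((MvPolynomial.aeval ((↑) : s → κ) : MvPolynomial s k →ₐ[k] κ) :
          MvPolynomial s k →+* κ) := by
      apply MvPolynomial.ringHom_ext
      · intro c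
        simp only [evV, RingHom.comp_apply, MvPolynomial.coe_eval₂Hom, MvPolynomial.eval₂_C,
          RingHom.coe_coe, MvPolynomial.aeval_C]
        exact hkκ c
      · intro i
        simp only [evV, RingHom.comp_apply, MvPolynomial.coe_eval₂Hom, MvPolynomial.eval₂_X,
          RingHom.coe_coe, MvPolynomial.aeval_X]
        exact hg i
    exact congrArg (fun f : MvPolynomial s k →+* κ => f p) h1
  have hinj : Function.Injective (MvPolynomial.aeval ((↑) : s → κ) : MvPolynomial s k →ₐ[k] κ) :=
    hs.1
  have hval : ∀ p : MvPolynomial s k, p ≠ 0 → v (MvPolynomial.aeval gK p) = 1 := by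
    intro p hp
    have h1 : res (evV p) ≠ 0 := by
      rw [hev2]
      exact fun h => hp (hinj (h.trans (map_zero _).symm))
    rw [Ne, hres, not_lt, hev1] at h1
    refine le_antisymm ?_ h1
    rw [← hev1]
    exact (evV p).2
  let S : Finset K := Finset.univ.image gK
  have hS : (S : Set K) = Set.range gK := by
    simp only [S, Finset.coe_image, Finset.coe_univ, Set.image_univ]
  set F0 : IntermediateField k K := IntermediateField.adjoin k (S : Set K) with hF0
  have hmem : ∀ x : K, x ∈ F0 ↔ ∃ r t : MvPolynomial s k,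
      x = MvPolynomial.aeval gK r / MvPolynomial.aeval gK t := by
    intro x
    rw [hF0, hS]
    exact IntermediateField.mem_adjoin_range_iff _ _ _
  have hF1 : ∀ c : F0, c ≠ 0 → v (c : K) = 1 := by
    intro c hc
    obtain ⟨r, t, hrt⟩ := (hmem c).1 c.2
    have hc0 : (c : K) ≠ 0 := fun h => hc (Subtype.ext h)
    have hr : r ≠ 0 := by
      rintro rfl
      rw [map_zero, zero_div] at hrt
      exact hc0 hrt
    have ht : t ≠ 0 := by
      rintro rfl
      rw [map_zero, div_zero] at hrt
      exact hc0 hrt
    rw [hrt, map_div₀, hval r hr, hval t ht, div_one]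
  have hFV : ∀ c : F0, (c : K) ∈ v.valuationSubring := by
    intro c
    change v (c : K) ≤ 1
    by_cases hc : c = 0
    · rw [hc, ZeroMemClass.coe_zero, map_zero]
      exact zero_le_one
    · exact (hF1 c hc).le
  let inc : F0 →+* v.valuationSubring :=
    (algebraMap F0 K).codRestrict v.valuationSubring.toSubring fun c => hFV c
  have hinc : ∀ c : F0, ((inc c : v.valuationSubring) : K) = c := fun c => rfl
  let ρ : F0 →ₐ[k] κ :=
    { toRingHom := res.comp inc
      commutes' := by
        intro c
        change res (inc (algebraMap k F0 c)) = _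
        rw [← hkκ]
        congr 1
        apply Subtype.ext
        rw [hkv, hinc]
        rfl }
  have hρ : ∀ c : F0, ρ c = res (inc c) := fun c => rfl
  have hρdiv : ∀ (c : F0) (r t : MvPolynomial s k),
      (c : K) = MvPolynomial.aeval gK r / MvPolynomial.aeval gK t →
      ρ c = MvPolynomial.aeval ((↑) : s → κ) r / MvPolynomial.aeval ((↑) : s → κ) t := by
    intro c r t hc
    by_cases ht : t = 0
    · rw [ht, map_zero, div_zero] at hc
      have hc0 : c = 0 := Subtype.ext hc
      rw [ht, map_zero, div_zero, hc0, map_zero]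
    · have ht' : (MvPolynomial.aeval ((↑) : s → κ) t : κ) ≠ 0 :=
        fun h => ht (hinj (h.trans (map_zero _).symm))
      have ht2 : (MvPolynomial.aeval gK t : K) ≠ 0 := by
        intro h
        have := hval t ht
        rw [h, map_zero] at this
        exact zero_ne_one this
      rw [eq_div_iff ht', hρ, ← hev2, ← hev2, ← map_mul]
      congr 1
      apply Subtype.ext
      have h2 : ((inc c * evV t : v.valuationSubring) : K) = (c : K) * MvPolynomial.aeval gK t := by
        rw [← hev1]
        rfl
      rw [h2, hev1, hc, div_mul_cancel₀ _ ht2]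
  set E0 : IntermediateField k κ := IntermediateField.adjoin k (s : Set κ) with hE0
  have hmemE : ∀ x : κ, x ∈ E0 ↔ ∃ r t : MvPolynomial s k,
      x = MvPolynomial.aeval ((↑) : s → κ) r / MvPolynomial.aeval ((↑) : s → κ) t := by
    intro x
    have h1 : (s : Set κ) = Set.range ((↑) : s → κ) := by
      rw [Subtype.range_coe_subtype]
      rfl
    rw [hE0, h1]
    exact IntermediateField.mem_adjoin_range_iff _ _ _
  have hρE : ∀ c : F0, ρ c ∈ E0 := by
    intro c
    obtain ⟨r, t, hrt⟩ := (hmem c).1 c.2
    exact (hmemE _).2 ⟨r, t, hρdiv c r t hrt⟩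
  have hρs : ∀ x : E0, ∃ c : F0, ρ c = x := by
    intro x
    obtain ⟨r, t, hrt⟩ := (hmemE x).1 x.2
    refine ⟨⟨MvPolynomial.aeval gK r / MvPolynomial.aeval gK t, (hmem _).2 ⟨r, t, rfl⟩⟩, ?_⟩
    rw [hrt]
    exact hρdiv _ r t rfl
  let ρ' : F0 →ₐ[k] E0 := ρ.codRestrict E0.toSubalgebra hρE
  have hρ' : ∀ c : F0, ((ρ' c : E0) : κ) = ρ c := fun c => rfl
  have hbij : Function.Bijective ρ' := by
    refine ⟨ρ'.toRingHom.injective, fun x => ?_⟩
    obtain ⟨c, hc⟩ := hρs x
    exact ⟨c, Subtype.ext hc⟩
  let e : F0 ≃ₐ[k] E0 := AlgEquiv.ofBijective ρ' hbij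
  have he : ∀ c : F0, ((e c : E0) : κ) = ρ c := fun c => rfl
  have hes : ∀ x : E0, ρ (e.symm x) = x := by
    intro x
    rw [← he, AlgEquiv.apply_symm_apply]
  -- the lift of the primitive element
  let a : v.valuationSubring := lift θ
  have ha : res a = θ := hlift θ
  have haev : ∀ q : F0[X], ∃ y : v.valuationSubring, (y : K) = aeval (a : K) q ∧
      res y = eval₂ (ρ : F0 →+* κ) θ q := by
    intro q
    refine ⟨eval₂ inc a q, ?_, ?_⟩
    · have h1 := hom_eval₂ q inc v.valuationSubring.subtype a
      exact h1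
    · rw [hom_eval₂, ha]
      rfl
  have hlift2 : ∀ q0 : E0[X], eval₂ (ρ : F0 →+* κ) θ (q0.map (e.symm : E0 →+* F0)) = aeval θ q0 := by
    intro q0
    rw [eval₂_map, aeval_def]
    congr 1
    ext x
    exact hes x
  have hint : IsIntegral E0 θ := hsep.isIntegral
  refine ⟨S, F0, (a : K), (minpoly E0 θ).map (e.symm : E0 →+* F0), rfl, hF1, a.2, ?_, ?_, ?_, ?_,
    ?_, ?_⟩
  · exact (minpoly.monic hint).map _
  · have h1 := (MulEquiv.irreducible_iff
      (Polynomial.mapEquiv (e.symm.toRingEquiv : E0 ≃+* F0)).toMulEquiv).2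
      (minpoly.irreducible hint)
    exact h1
  · exact Polynomial.Separable.map hsep
  · obtain ⟨y, hy1, hy2⟩ := haev ((minpoly E0 θ).map (e.symm : E0 →+* F0))
    rw [← hy1, ← hres, hy2, hlift2, minpoly.aeval]
  · intro x hx
    have h1 : res ⟨x, hx⟩ ∈ Algebra.adjoin E0 {θ} := by
      rw [hadj]
      trivial
    rw [Algebra.adjoin_singleton_eq_range_aeval] at h1
    obtain ⟨q0, hq0⟩ := h1
    refine ⟨q0.map (e.symm : E0 →+* F0), ?_⟩
    obtain ⟨y, hy1, hy2⟩ := haev (q0.map (e.symm : E0 →+* F0))
    rw [hlift2] at hy2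
    have h2 : res (⟨x, hx⟩ - y) = 0 := by
      rw [map_sub, hy2, sub_eq_zero]
      exact hq0.symm
    rw [hres] at h2
    rw [← hy1]
    exact h2
  · have h1 : Algebra.trdeg k E0 + Algebra.trdeg E0 κ = Algebra.trdeg k κ := trdeg_add_eq k E0
    have h2 : Algebra.trdeg E0 κ = 0 := by
      have := halg
      exact trdeg_eq_zero
    rw [e.trdeg_eq, ← h1, h2, add_zero]

end

end Prdata

/-- The lifts of a separating transcendence basis and of a primitive element of the residue
field. -/
theorem rdata {k K : Type u} [Field k] [Field K] [Algebra k K] (v : Valuation K ℝ≥0)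
    (hk : ∀ c : k, c ≠ 0 → v (algebraMap k K c) = 1)
    (hess : letI := rAlg v hk; Algebra.EssFiniteType k (Rf v))
    (hsg : letI := rAlg v hk; ∃ s : Finset (Rf v), IsTranscendenceBasis k ((↑) : s → Rf v) ∧
      Algebra.IsSeparable (IntermediateField.adjoin k (s : Set (Rf v))) (Rf v)) :
    ∃ (S : Finset K) (F0 : IntermediateField k K) (a : K) (m : F0[X]),
      F0 = IntermediateField.adjoin k (S : Set K) ∧
      (∀ c : F0, c ≠ 0 → v (c : K) = 1) ∧ v a ≤ 1 ∧ m.Monic ∧ Irreducible m ∧ m.Separable ∧
      v (aeval a m) < 1 ∧ (∀ x : K, v x ≤ 1 → ∃ q : F0[X], v (x - aeval a q) < 1) ∧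
      (letI := rAlg v hk; Algebra.trdeg k F0 = Algebra.trdeg k (Rf v)) := by
  let _ := rAlg v hk
  have : Algebra.EssFiniteType k (Rf v) := hess
  exact Prdata.absB hsg (IsLocalRing.residue v.valuationSubring) IsLocalRing.residue_surjective
    (fun x => by
      rw [IsLocalRing.residue_eq_zero_iff, ValuationSubring.valuation_lt_one_iff]
      exact (v.isEquiv_valuation_valuationSubring.lt_one_iff_lt_one).symm) (kV v hk)
    (fun c => rfl) (fun c => rfl)

theorem sepGen (k κ : Type u) [Field k] [Field κ] [Algebra k κ] [Algebra.EssFiniteType k κ]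
    [PerfectField k] : ∃ s : Finset κ, IsTranscendenceBasis k ((↑) : s → κ) ∧
      Algebra.IsSeparable (IntermediateField.adjoin k (s : Set κ)) κ :=
  exists_isTranscendenceBasis_and_isSeparable_of_perfectField k κ

theorem t_rdata : S_rdata.{u} := by
  intro k K _ _ _ _ v hk hess
  refine rdata v hk hess ?_
  let _ := rAlg v hk
  have : Algebra.EssFiniteType k (Rf v) := hess
  exact sepGen k (Rf v)

end Pool.Agent.H893.DD
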