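import Pool.Agent.H893.DD.Asm3
import Pool.Agent.H893.DD.P_rdata
import Pool.Agent.H893.DD.P_down

/-!
# Log uniformization if the residue field is finitely and separably generated
-/

set_option autoImplicit false
set_option linter.unusedVariables false
set_option linter.unusedSectionVars false

universe u

namespace Pool.Agent.H893.DD

open Pool.Agent.W418.LU2 IsLocalRing Polynomial
open Pool.Agent.H176.DT (Mod SU PP St)
open scoped NNReal

/-- Strong uniformization if the residue field is finitely and separably generated. -/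
theorem su_all {k K : Type u} [Field k] (p : ℕ) [Fact p.Prime] [CharP k p]
    [Field K] [Algebra k K] [Algebra.EssFiniteType k K] (v : Valuation K ℝ≥0)
    (hk : ∀ c : k, c ≠ 0 → v (algebraMap k K c) = 1)
    (hess : letI := rAlg v hk; Algebra.EssFiniteType k (Rf v))
    (hsg : letI := rAlg v hk; ∃ s : Finset (Rf v), IsTranscendenceBasis k ((↑) : s → Rf v) ∧
      Algebra.IsSeparable (IntermediateField.adjoin k (s : Set (Rf v))) (Rf v))
    (r : ℕ) (hr : 2 ≤ r)
    (htr : letI := rAlg v hk; Algebra.trdeg k K = Algebra.trdeg k (Rf v) + ((r + 1 : ℕ) : Cardinal))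
    (x : Fin r → K) (hx0 : ∀ i, x i ≠ 0)
    (hind : ∀ m : Fin r → ℤ, ∏ i, v (x i) ^ m i = 1 → m = 0)
    (hrr : ∀ z : K, z ≠ 0 → ∃ n : ℕ, n ≠ 0 ∧ ∃ m : Fin r → ℤ, v z ^ n = ∏ i, v (x i) ^ m i) :
    ∃ U : Set K, U.Finite ∧
      Mod v.valuationSubring (Subring.closure (Set.range (algebraMap k K) ∪ U)) ∧
      SU v.valuationSubring (Subring.closure (Set.range (algebraMap k K) ∪ U)) := by
  obtain ⟨S, F0, a, m, hF0, hF1, ha, hm, hirr, hsep, hma, hres, htd⟩ := rdata v hk hess hsg
  have hchar : CharP F0 p := charP_of_injective_algebraMap (algebraMap k F0).injective p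
  have hE : Algebra.EssFiniteType F0 K := Algebra.EssFiniteType.of_comp k F0 K
  have htr1 : Algebra.trdeg F0 K = ((r + 1 : ℕ) : Cardinal) := by
    have h1 := _root_.trdeg_add_eq k F0 (A := K)
    rw [htd, htr] at h1
    have h2 : Algebra.trdeg k K < Cardinal.aleph0 := trdeg_lt_aleph0 k K
    rw [htr] at h2
    exact Cardinal.eq_of_add_eq_add_left h1 (lt_of_le_of_lt (self_le_add_right _ _) h2)
  obtain ⟨U, hU, hM, hSU⟩ := su_gen p v hF1 a m hm hirr hsep ha hma hres r hr htr1 x hx0 hind hrr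
  have h1 : Set.range (algebraMap F0 K) = (F0 : Set K) := by
    ext z
    constructor
    · rintro ⟨c, rfl⟩
      exact c.2
    · intro hz
      exact ⟨⟨z, hz⟩, rfl⟩
  rw [h1] at hM hSU
  exact t_down v S F0 hF0 hF1 U hU hM hSU

/-- Log uniformization if the residue field is finitely and separably generated. -/
theorem lu_all {k K : Type u} [Field k] (p : ℕ) [Fact p.Prime] [CharP k p]
    [Field K] [Algebra k K] [Algebra.EssFiniteType k K] (v : Valuation K ℝ≥0)
    (hk : ∀ c : k, c ≠ 0 → v (algebraMap k K c) = 1)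
    (hess : letI := rAlg v hk; Algebra.EssFiniteType k (Rf v))
    (hsg : letI := rAlg v hk; ∃ s : Finset (Rf v), IsTranscendenceBasis k ((↑) : s → Rf v) ∧
      Algebra.IsSeparable (IntermediateField.adjoin k (s : Set (Rf v))) (Rf v))
    (r : ℕ) (hr : 2 ≤ r)
    (htr : letI := rAlg v hk; Algebra.trdeg k K = Algebra.trdeg k (Rf v) + ((r + 1 : ℕ) : Cardinal))
    (x : Fin r → K) (hx0 : ∀ i, x i ≠ 0)
    (hind : ∀ m : Fin r → ℤ, ∏ i, v (x i) ^ m i = 1 → m = 0)
    (hrr : ∀ z : K, z ≠ 0 → ∃ n : ℕ, n ≠ 0 ∧ ∃ m : Fin r → ℤ, v z ^ n = ∏ i, v (x i) ^ m i)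
    (G : Set K) (hG : G.Finite) (A : Subring K)
    (hA : A = Subring.closure (Set.range (algebraMap k K) ∪ G))
    (hAM : Mod v.valuationSubring A) : LogUnif v.valuationSubring A := by
  obtain ⟨U, hU, hM, hSU⟩ := su_all p v hk hess hsg r hr htr x hx0 hind hrr
  have hR : ((algebraMap k K).range : Set K) = Set.range (algebraMap k K) := rfl
  rw [← hR] at hM hSU hA
  exact fin_of_su v.valuationSubring (algebraMap k K).range U hU hM hSU A G hG hA hAM

/-- The residue field is a finite extension of a perfect field. -/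
theorem lu_zero {k K : Type u} [Field k] (p : ℕ) [Fact p.Prime] [CharP k p] [PerfectField k]
    [Field K] [Algebra k K] [Algebra.EssFiniteType k K] (v : Valuation K ℝ≥0)
    (hk : ∀ c : k, c ≠ 0 → v (algebraMap k K c) = 1)
    (hres : ((IsLocalRing.residue v.valuationSubring).comp (kV v hk)).Finite)
    (r : ℕ) (hr : 2 ≤ r) (htr : Algebra.trdeg k K = ((r + 1 : ℕ) : Cardinal))
    (x : Fin r → K) (hx0 : ∀ i, x i ≠ 0)
    (hind : ∀ m : Fin r → ℤ, ∏ i, v (x i) ^ m i = 1 → m = 0)
    (hrr : ∀ z : K, z ≠ 0 → ∃ n : ℕ, n ≠ 0 ∧ ∃ m : Fin r → ℤ, v z ^ n = ∏ i, v (x i) ^ m i)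
    (G : Set K) (hG : G.Finite) (A : Subring K)
    (hA : A = Subring.closure (Set.range (algebraMap k K) ∪ G))
    (hAM : Mod v.valuationSubring A) : LogUnif v.valuationSubring A := by
  let _ := rAlg v hk
  have hfin : Module.Finite k (Rf v) := hres
  have hess : Algebra.EssFiniteType k (Rf v) := inferInstance
  have htd : Algebra.trdeg k (Rf v) = 0 := by
    have : Algebra.IsAlgebraic k (Rf v) := inferInstance
    exact trdeg_eq_zero
  refine lu_all p v hk hess (sepGen k (Rf v)) r hr ?_ x hx0 hind hrr G hG A hA hAM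
  change Algebra.trdeg k K = Algebra.trdeg k (Rf v) + _
  rw [htd, zero_add, htr]

/-- The residue field is finitely generated over a perfect field. -/
theorem lu_pos {k K : Type u} [Field k] (p : ℕ) [Fact p.Prime] [CharP k p] [PerfectField k]
    [Field K] [Algebra k K] [Algebra.EssFiniteType k K] (v : Valuation K ℝ≥0)
    (hk : ∀ c : k, c ≠ 0 → v (algebraMap k K c) = 1)
    (hess : letI := rAlg v hk; Algebra.EssFiniteType k (Rf v)) (s : ℕ)
    (hsr : letI := rAlg v hk; Algebra.trdeg k (Rf v) = (s : Cardinal))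
    (r : ℕ) (hr : 2 ≤ r) (htr : Algebra.trdeg k K = ((r + s + 1 : ℕ) : Cardinal))
    (x : Fin r → K) (hx0 : ∀ i, x i ≠ 0)
    (hind : ∀ m : Fin r → ℤ, ∏ i, v (x i) ^ m i = 1 → m = 0)
    (hrr : ∀ z : K, z ≠ 0 → ∃ n : ℕ, n ≠ 0 ∧ ∃ m : Fin r → ℤ, v z ^ n = ∏ i, v (x i) ^ m i)
    (G : Set K) (hG : G.Finite) (A : Subring K)
    (hA : A = Subring.closure (Set.range (algebraMap k K) ∪ G))
    (hAM : Mod v.valuationSubring A) : LogUnif v.valuationSubring A := by
  let _ := rAlg v hk
  have hess' : Algebra.EssFiniteType k (Rf v) := hess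
  refine lu_all p v hk hess (sepGen k (Rf v)) r hr ?_ x hx0 hind hrr G hG A hA hAM
  change Algebra.trdeg k K = Algebra.trdeg k (Rf v) + _
  have h1 : Algebra.trdeg k (Rf v) = (s : Cardinal) := hsr
  rw [h1, htr, ← Nat.cast_add]
  congr 1
  omega

/-- The residue field is finitely and separably generated. -/
theorem lu_sep {k K : Type u} [Field k] (p : ℕ) [Fact p.Prime] [CharP k p]
    [Field K] [Algebra k K] [Algebra.EssFiniteType k K] (v : Valuation K ℝ≥0)
    (hk : ∀ c : k, c ≠ 0 → v (algebraMap k K c) = 1)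
    (hess : letI := rAlg v hk; Algebra.EssFiniteType k (Rf v))
    (hsg : letI := rAlg v hk; ∃ s : Finset (Rf v), IsTranscendenceBasis k ((↑) : s → Rf v) ∧
      Algebra.IsSeparable (IntermediateField.adjoin k (s : Set (Rf v))) (Rf v)) (s : ℕ)
    (hsr : letI := rAlg v hk; Algebra.trdeg k (Rf v) = (s : Cardinal))
    (r : ℕ) (hr : 2 ≤ r) (htr : Algebra.trdeg k K = ((r + s + 1 : ℕ) : Cardinal))
    (x : Fin r → K) (hx0 : ∀ i, x i ≠ 0)
    (hind : ∀ m : Fin r → ℤ, ∏ i, v (x i) ^ m i = 1 → m = 0)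
    (hrr : ∀ z : K, z ≠ 0 → ∃ n : ℕ, n ≠ 0 ∧ ∃ m : Fin r → ℤ, v z ^ n = ∏ i, v (x i) ^ m i)
    (G : Set K) (hG : G.Finite) (A : Subring K)
    (hA : A = Subring.closure (Set.range (algebraMap k K) ∪ G))
    (hAM : Mod v.valuationSubring A) : LogUnif v.valuationSubring A := by
  let _ := rAlg v hk
  have hess' : Algebra.EssFiniteType k (Rf v) := hess
  refine lu_all p v hk hess hsg r hr ?_ x hx0 hind hrr G hG A hA hAM
  change Algebra.trdeg k K = Algebra.trdeg k (Rf v) + _
  have h1 : Algebra.trdeg k (Rf v) = (s : Cardinal) := hsr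
  rw [h1, htr, ← Nat.cast_add]
  congr 1
  omega

end Pool.Agent.H893.DD
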