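import Pool.Agent.H893.DD.Stm2
import Pool.Graph.R_seed8.H176.DT.G2

/-!
# Descent of strong uniformization
-/

set_option autoImplicit false
set_option linter.unusedVariables false
set_option linter.unusedSectionVars false

universe u

namespace Pool.Agent.H893.DD

open Pool.Agent.W418.LU2 IsLocalRing Polynomial
open Pool.Agent.H176.DT (Mod SU PP St val_one_iff p_ind p_flat p_regd p_noe desc pmon_desc
  pmon_asc map_mo mo_comp)
open scoped NNReal

section

variable {F F1 : Type u} [Field F] [Field F1] [Algebra F F1] (V : ValuationSubring F1) (ζ : F1)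

lemma az_le {A : Subring F} {h : F[X]} (E : Et V ζ h A)
    (hres : ∃ a ∈ A, V.valuation (ζ - algebraMap F F1 a) < 1) : Az ζ A ≤ V.toSubring := by
  obtain ⟨a, ha, h1⟩ := hres
  rw [Subring.closure_le]
  rintro z (hz | hz)
  · obtain ⟨b, hb, rfl⟩ := hz
    exact E.BV hb
  · rw [Set.mem_singleton_iff] at hz
    rw [hz]
    have h2 := add_mem ((V.valuation_le_one_iff _).1 h1.le) (E.BV ha)
    rwa [sub_add_cancel] at h2

lemma et_mono {A : Subring F} {h : F[X]} (E : Et V ζ h A) {T : Set F} (hT : T.Finite)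
    (hV : Subring.closure ((A : Set F) ∪ T) ≤ (V.comap (algebraMap F F1)).toSubring) :
    Et V ζ h (Subring.closure ((A : Set F) ∪ T)) := by
  have hle : A ≤ Subring.closure ((A : Set F) ∪ T) := fun z hz =>
    Subring.subset_closure (Or.inl hz)
  refine ⟨hV, E.monic, fun i => hle (E.coeff i), E.root, E.der, E.min, E.gen, fun z => ?_, ?_⟩
  · obtain ⟨a, ha, b, hb, h1⟩ := E.frac z
    exact ⟨a, hle ha, b, hle hb, h1⟩
  · have := E.noe
    exact p_noe A T hT

/-- Denominators. -/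
lemma exists_pow_mul {A : Subring F} {T : Set F} {α : F} (hα : α ∈ A) (hT : ∀ t ∈ T, α * t ∈ A)
    {z : F} (hz : z ∈ Subring.closure ((A : Set F) ∪ T)) : ∃ M : ℕ, ∀ n, M ≤ n → α ^ n * z ∈ A := by
  induction hz using Subring.closure_induction with
  | mem z hz =>
    rcases hz with hz | hz
    · exact ⟨0, fun n _ => mul_mem (pow_mem hα n) hz⟩
    · refine ⟨1, fun n hn => ?_⟩
      obtain ⟨l, rfl⟩ := Nat.exists_eq_add_of_le hn
      rw [pow_add, pow_one, mul_comm α, mul_assoc]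
      exact mul_mem (pow_mem hα l) (hT z hz)
  | zero => exact ⟨0, fun n _ => by rw [mul_zero]; exact zero_mem _⟩
  | one => exact ⟨0, fun n _ => by rw [mul_one]; exact pow_mem hα n⟩
  | add a b _ _ ha hb =>
    obtain ⟨M, hM⟩ := ha
    obtain ⟨N, hN⟩ := hb
    refine ⟨max M N, fun n hn => ?_⟩
    rw [mul_add]
    exact add_mem (hM n ((le_max_left _ _).trans hn)) (hN n ((le_max_right _ _).trans hn))
  | neg a _ ha =>
    obtain ⟨M, hM⟩ := ha
    refine ⟨M, fun n hn => ?_⟩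
    rw [mul_neg]
    exact neg_mem (hM n hn)
  | mul a b _ _ ha hb =>
    obtain ⟨M, hM⟩ := ha
    obtain ⟨N, hN⟩ := hb
    refine ⟨M + N, fun n hn => ?_⟩
    obtain ⟨l, rfl⟩ := Nat.exists_eq_add_of_le hn
    have h1 : α ^ (M + N + l) * (a * b) = α ^ l * ((α ^ M * a) * (α ^ N * b)) := by
      rw [pow_add, pow_add]
      ring
    rw [h1]
    exact mul_mem (pow_mem hα l) (mul_mem (hM M le_rfl) (hN N le_rfl))

lemma pmon_pow {E : Type u} [Field E] {P : Subring E} {ι : Type} [Fintype ι] {x : ι → E}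
    (hx : ∀ i, x i ≠ 0) {g : E} (hg : PMon P x g) (n : ℕ) : PMon P x (g ^ n) := by
  induction n with
  | zero => rw [pow_zero]; exact PMon.one
  | succ n ih => rw [pow_succ]; exact ih.mul hx hg

theorem desc_su (h1 : S_coord.{u}) (h3 : S_pos.{u}) (h5 : S_cmp.{u}) (h : F[X]) (A : Subring F)
    (E : Et V ζ h A) (hres : ∃ a ∈ A, V.valuation (ζ - algebraMap F F1 a) < 1)
    (harch : ∀ a b : F1, b ≠ 0 → a ∈ V → a⁻¹ ∉ V → ∃ N : ℕ, a ^ N * b⁻¹ ∈ V)
    (hnt : ∃ a : F, algebraMap F F1 a ∈ V ∧ algebraMap F F1 a⁻¹ ∉ V)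
    {r : ℕ} (γ : Fin r → F) (hγ : ∀ i, γ i ≠ 0)
    (hrr : ∀ z : F1, z ≠ 0 → ∃ n : ℕ, 0 < n ∧ ∃ m : Fin r → ℤ,
      V.valuation z ^ n = V.valuation (algebraMap F F1 (mo γ m)))
    (hSU : SU V (Az ζ A)) : SU (V.comap (algebraMap F F1)) A := by
  classical
  intro G hG hG0
  have hnoe := E.noe
  have hinj : Function.Injective (algebraMap F F1) := (algebraMap F F1).injective
  have h0 : ∀ z : F, z ≠ 0 → algebraMap F F1 z ≠ 0 := fun z hz => (_root_.map_ne_zero _).2 hz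
  obtain ⟨m, w, hwA, hwn, hgen⟩ := exists_gens (W := V.comap (algebraMap F F1)) A E.BV
  have hw0 : ∀ i, w i ≠ 0 := fun i => ne_zero_of_inv (hwn i)
  have hm : 0 < m := by
    obtain ⟨a, ha, hai⟩ := hnt
    obtain ⟨b, hb, c, hc, hc0, rfl⟩ := E.frac a
    have hb1 : b ∈ lo (V.comap (algebraMap F F1)).toSubring A := le_lo _ _ hb
    have hb2 : algebraMap F F1 b⁻¹ ∉ V := by
      intro h2
      apply hai
      rw [mul_inv, inv_inv, map_mul]
      exact mul_mem h2 (E.BV hc)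
    obtain ⟨c', -, h2⟩ := hgen b hb1 fun _ => hb2
    rcases Nat.eq_zero_or_pos m with hm | hm
    · exfalso
      subst hm
      rw [Finset.univ_eq_empty, Finset.sum_empty] at h2
      apply hb2
      rw [h2, inv_zero, map_zero]
      exact zero_mem _
    · exact hm
  set G1 : Set F1 := algebraMap F F1 '' (G ∪ Set.range w ∪ Set.range γ) with hG1def
  have hG1fin : G1.Finite :=
    ((hG.union (Set.finite_range w)).union (Set.finite_range γ)).image _
  have hG10 : ∀ g ∈ G1, g ≠ 0 := by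
    rintro _ ⟨g, (hg | ⟨i, rfl⟩) | ⟨i, rfl⟩, rfl⟩
    · exact h0 g (hG0 g hg)
    · exact h0 _ (hw0 i)
    · exact h0 _ (hγ i)
  obtain ⟨T, s, x, hSt, hx, hind, hG1⟩ := p_ind V (Az ζ A) hSU G1 hG1fin hG10
  obtain ⟨T', x', hSt', hx', hind', hG', hdiv⟩ := h3 V harch (Az ζ A) T x hSt hx hind G1 hG1fin
    fun g hg => (hG1 g hg).1
  have hwG : ∀ i, algebraMap F F1 (w i) ∈ G1 := fun i => ⟨w i, Or.inl (Or.inr ⟨i, rfl⟩), rfl⟩
  have hw' : ∀ i, algebraMap F F1 (w i) * (∏ j, x' j)⁻¹ ∈ PP V (Az ζ A) T' := by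
    intro i
    refine hdiv _ ?_ ?_ (hG1 _ (hwG i)).1
    · refine le_lo _ _ (Subring.subset_closure (Or.inl ?_))
      exact Subring.subset_closure (Or.inl ⟨w i, hwA i, rfl⟩)
    · intro h2
      apply hwn i
      change algebraMap F F1 (w i)⁻¹ ∈ V
      rw [map_inv₀]
      exact h2
  obtain ⟨T3, hT3, hB3, hPP, α, hαA, hα0, hαP, hαT⟩ := h5 V ζ h A E hres w hm hwA
    (fun i => hwn i) (fun z hz hn => hgen z hz fun h2 => hn h2) T' x' hSt' hx' hw'
  set B3 := Subring.closure ((A : Set F) ∪ T3) with hB3def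
  have E3 : Et V ζ h B3 := et_mono V ζ E hT3 hB3
  have hreg : RegP V.toSubring (Q1 V ζ B3) x' := by
    rw [← hPP]
    exact hSt'.reg
  have hx'0 : ∀ i, x' i ≠ 0 := hreg.ne
  -- the powers
  have hpw : ∀ i, ∃ (n : ℕ) (g : F), 0 < n ∧ As (Q1 V ζ B3) (algebraMap F F1 g) (x' i ^ n) := by
    intro i
    obtain ⟨n, hn, μ, hμ⟩ := hrr (x' i) (hx'0 i)
    have hγP : ∀ j, ∃ δ, As (Q1 V ζ B3) (algebraMap F F1 (γ j)) (mo x' δ) := by
      intro j
      rw [← pmon_iff_as, ← hPP]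
      exact (hG' _ ⟨γ j, Or.inr ⟨j, rfl⟩, rfl⟩).1
    choose δ hδ using hγP
    have h2 : As (Q1 V ζ B3) (algebraMap F F1 (mo γ μ)) (mo (fun j => mo x' (δ j)) μ) := by
      rw [map_mo]
      exact As.mo hδ μ
    have h3 : mo (fun j => mo x' (δ j)) μ = mo x' (fun i => ∑ j, μ j * δ j i) := by
      rw [mo_comp (δ := δ) hx'0 (fun j => rfl) μ]
      congr 1
      funext i
      rw [Finset.sum_apply]
      exact Finset.sum_congr rfl fun j _ => by rw [Pi.smul_apply, smul_eq_mul]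
    rw [h3] at h2
    have h4 : V.valuation (mo x' (fun i => ∑ j, μ j * δ j i)) = V.valuation (x' i ^ n) := by
      obtain ⟨ε, e0, e1, e2, he⟩ := h2
      have h5 : V.valuation ε = 1 := (val_one_iff V ε).2 ⟨e0, hreg.PA e1, hreg.PA e2⟩
      rw [map_pow, hμ, he, map_mul, h5, one_mul]
    have h5 : x' i ^ n = mo x' (Pi.single i (n : ℤ)) := by
      unfold Pool.Agent.W418.LU2.mo
      rw [Finset.prod_eq_single i]
      · rw [Pi.single_eq_same, zpow_natCast]
      · intro j _ hj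
        rw [Pi.single_eq_of_ne hj, zpow_zero]
      · intro h6; exact absurd (Finset.mem_univ _) h6
    have h6 := hind' ((fun i => ∑ j, μ j * δ j i) + -Pi.single i (n : ℤ)) (by
      rw [mo_add hx'0, mo_neg, map_mul, map_inv₀, h4, h5]
      exact mul_inv_cancel₀ (by rw [Valuation.ne_zero_iff]; exact mo_ne_zero hx'0 _))
    rw [← sub_eq_add_neg, sub_eq_zero] at h6
    rw [h6, ← h5] at h2
    exact ⟨n, mo γ μ, hn, h2⟩
  have hy := fun i => h1 V ζ h B3 E3 x' hreg i (hx' i) (hpw i)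
  choose y hy using hy
  have hregy : RegP V.toSubring (Q1 V ζ B3) (fun i => algebraMap F F1 (y i)) := RegP.as hreg hy
  obtain ⟨hdown, hreg0⟩ := desc V ζ p_flat p_regd B3 h hB3 E.monic E3.coeff E.root E.der E.min y
    (Q1 V ζ B3) rfl hregy
  -- the numerators
  have hnum : ∀ i, ∃ a ∈ B3, As (lo (V.comap (algebraMap F F1)).toSubring B3) a (y i) := by
    intro i
    obtain ⟨a, ha, b, hb, hb0, hbA, h2⟩ := hreg0.mem i
    refine ⟨a, ha, b, hb0, le_lo _ _ hb, ⟨1, one_mem _, b, hb, hb0, hbA, (one_mul _).symm⟩, ?_⟩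
    rw [h2, mul_comm a, ← mul_assoc, mul_inv_cancel₀ hb0, one_mul]
  choose y' hy'B hy' using hnum
  have hreg' : RegP (V.comap (algebraMap F F1)).toSubring
      (lo (V.comap (algebraMap F F1)).toSubring B3) y' := RegP.as hreg0 hy'
  have hdp : ∀ g : F, PMon (PP V (Az ζ A) T') x' (algebraMap F F1 g) →
      PMon (lo (V.comap (algebraMap F F1)).toSubring B3) y' g := by
    intro g hg
    rw [hPP] at hg
    exact PMon.as (fun i => (hy' i).symm) (pmon_desc hreg0.ne hdown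
      (PMon.as (fun i => (hy i).symm) hg))
  have hden : ∀ i, ∃ M : ℕ, ∀ n, M ≤ n → α ^ n * y' i ∈ A := fun i =>
    exists_pow_mul hαA hαT (hy'B i)
  choose M hM using hden
  let N := ∑ i, M i + 1
  refine ⟨T3, s, y', ⟨hT3, hreg', α ^ N, pow_mem hαA N, ?_, fun t ht => ?_, fun i => ?_⟩,
    fun g hg => ⟨?_, fun hgV => ?_⟩⟩
  · exact pmon_pow hreg'.ne (hdp α hαP) N
  · change α ^ (∑ i, M i + 1) * t ∈ A
    rw [pow_succ, mul_assoc]
    exact mul_mem (pow_mem hαA _) (hαT t ht)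
  · refine hM i N ?_
    exact (Finset.single_le_sum (f := M) (fun _ _ => Nat.zero_le _) (Finset.mem_univ i)).trans
      (Nat.le_succ _)
  · exact hdp g (hG' _ ⟨g, Or.inl (Or.inl hg), rfl⟩).1
  · apply hdown
    rw [← hPP]
    exact (hG' _ ⟨g, Or.inl (Or.inl hg), rfl⟩).2 hgV

end

end Pool.Agent.H893.DD
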