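import Pool.Agent.H893.DD.Stm3

/-!
# Project DD, task Lk
-/

set_option autoImplicit false

universe u

namespace Pool.Agent.H893.DD

open Polynomial
open scoped NNReal

namespace PLk

/-- Integral elements have value at most one. -/
theorem le_one_of_integral {k L : Type u} [Field k] [Field L] [Algebra k L]
    (w : Valuation L ℝ≥0) (hk : ∀ c : k, w (algebraMap k L c) ≤ 1) {c : L}
    (hc : IsIntegral k c) : w c ≤ 1 := by
  by_contra hlt
  rw [not_le] at hlt
  obtain ⟨p, hp, h0⟩ := hc
  have h1 : c ^ p.natDegree + ∑ i ∈ Finset.range p.natDegree, algebraMap k L (p.coeff i) * c ^ i =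
      0 := by
    have h2 := h0
    rw [hp.as_sum] at h2
    simpa [eval₂_add, eval₂_finsetSum] using h2
  have h3 : w (∑ i ∈ Finset.range p.natDegree, algebraMap k L (p.coeff i) * c ^ i) <
      w (c ^ p.natDegree) := by
    have hpos : 0 < w c := zero_lt_one.trans hlt
    refine w.map_sum_lt (by rw [map_pow]; exact (pow_pos hpos _).ne') fun i hi => ?_
    rw [map_mul, map_pow, map_pow]
    calc w (algebraMap k L (p.coeff i)) * w c ^ i ≤ 1 * w c ^ i :=
          mul_le_mul_left (hk _) _
      _ = w c ^ i := one_mul _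
      _ < w c ^ p.natDegree := pow_lt_pow_right₀ hlt (Finset.mem_range.1 hi)
  have h4 : c ^ p.natDegree =
      -∑ i ∈ Finset.range p.natDegree, algebraMap k L (p.coeff i) * c ^ i :=
    eq_neg_of_add_eq_zero_left h1
  rw [h4, Valuation.map_neg] at h3
  exact lt_irrefl _ h3

/-- Congruent elements have congruent values of polynomials. -/
theorem aeval_sub_lt {k L : Type u} [Field k] [Field L] [Algebra k L]
    (w : Valuation L ℝ≥0) (hk : ∀ c : k, w (algebraMap k L c) ≤ 1) {x y : L}
    (hx : w x ≤ 1) (hy : w y ≤ 1) (hxy : w (x - y) < 1) (q : k[X]) :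
    w (aeval x q - aeval y q) < 1 := by
  induction q using Polynomial.induction_on' with
  | add p q hp hq =>
    have h : aeval x (p + q) - aeval y (p + q) =
        (aeval x p - aeval y p) + (aeval x q - aeval y q) := by
      rw [map_add, map_add]; ring
    rw [h]
    exact w.map_add_lt hp hq
  | monomial n c =>
    rw [aeval_monomial, aeval_monomial, ← mul_sub, map_mul]
    have hn : w (x ^ n - y ^ n) < 1 := by
      induction n with
      | zero => simp
      | succ n ih =>
        have h : x ^ (n + 1) - y ^ (n + 1) = x * (x ^ n - y ^ n) + (x - y) * y ^ n := by ring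
        rw [h]
        refine w.map_add_lt ?_ ?_
        · rw [map_mul]
          calc w x * w (x ^ n - y ^ n) ≤ 1 * w (x ^ n - y ^ n) := mul_le_mul_left hx _
            _ = w (x ^ n - y ^ n) := one_mul _
            _ < 1 := ih
        · rw [map_mul, map_pow]
          calc w (x - y) * w y ^ n ≤ w (x - y) * 1 :=
                mul_le_mul_right (pow_le_one₀ (zero_le) hy) _
            _ = w (x - y) := mul_one _
            _ < 1 := hxy
    calc w (algebraMap k L c) * w (x ^ n - y ^ n) ≤ 1 * w (x ^ n - y ^ n) :=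
          mul_le_mul_left (hk c) _
      _ = w (x ^ n - y ^ n) := one_mul _
      _ < 1 := hn

end PLk

open PLk

theorem t_Lk : S_Lk.{u} := by
  intro k K L _ _ _ _ _ _ _ _ v w hk a ζ m hm hζ hva hres hζa hw hgen hdense k' hk'
  have hkw1 : ∀ c : k, c ≠ 0 → w (algebraMap k L c) = 1 := by
    intro c hc
    rw [IsScalarTower.algebraMap_apply k K L, hw, hk c hc]
  have hkw : ∀ c : k, w (algebraMap k L c) ≤ 1 := by
    intro c
    by_cases hc : c = 0
    · rw [hc, map_zero, map_zero]; exact zero_le_one
    · exact (hkw1 c hc).le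
  have hζint : IsIntegral k ζ := ⟨m, hm, hζ⟩
  have hζintK : IsIntegral K ζ := hζint.tower_top
  have htop : Algebra.adjoin K {ζ} = ⊤ := by
    rw [eq_top_iff]
    intro z _
    obtain ⟨f, rfl⟩ := hgen z
    exact aeval_mem_adjoin_singleton K ζ
  have hfin : Module.Finite K L := by
    have h1 := hζintK.fg_adjoin_singleton
    rw [htop] at h1
    exact ⟨by simpa using h1⟩
  have hess : Algebra.EssFiniteType k' L := by
    have h1 : Algebra.EssFiniteType K L := inferInstance
    have h2 : Algebra.EssFiniteType k L := Algebra.EssFiniteType.comp k K L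
    exact Algebra.EssFiniteType.of_comp k k' L
  have hadj : (k' : Set L) = (Algebra.adjoin k {ζ} : Set L) := by
    rw [← IntermediateField.adjoin_simple_toSubalgebra_of_isAlgebraic hζint.isAlgebraic, hk']
    rfl
  have hk'int : ∀ c : L, c ∈ k' → IsIntegral k c := by
    intro c hc
    have h1 : c ∈ Algebra.adjoin k {ζ} := by
      have : c ∈ (k' : Set L) := hc
      rw [hadj] at this
      exact this
    exact adjoin_le_integralClosure hζint h1
  have hk'1 : ∀ c : k', c ≠ 0 → w (c : L) = 1 := by
    intro c hc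
    have hc0 : (c : L) ≠ 0 := fun h => hc (Subtype.ext h)
    have h1 : w (c : L) ≤ 1 := le_one_of_integral w hkw (hk'int _ c.2)
    have h2 : w ((c : L)⁻¹) ≤ 1 := le_one_of_integral w hkw (hk'int _ (k'.inv_mem c.2))
    refine le_antisymm h1 ?_
    rw [map_inv₀] at h2
    exact (inv_le_one₀ (zero_lt_iff.2 ((Valuation.ne_zero_iff w).2 hc0))).1 h2
  have hval : ∀ z : L, z ≠ 0 → ∃ b : K, b ≠ 0 ∧ w (z - algebraMap K L b) < w z ∧ w z = v b := by
    intro z hz
    obtain ⟨b, hb⟩ := hdense z hz
    have h1 : w (algebraMap K L b) = w z := by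
      refine Valuation.map_eq_of_sub_lt w ?_
      rw [Valuation.map_sub_swap]
      exact hb
    refine ⟨b, ?_, hb, ?_⟩
    · rintro rfl
      rw [map_zero, map_zero] at h1
      exact hz ((Valuation.zero_iff w).1 h1.symm)
    · rw [← h1, hw]
  have haL : w (algebraMap K L a) ≤ 1 := by rw [hw]; exact hva
  have hζ1 : w ζ ≤ 1 := le_one_of_integral w hkw hζint
  refine ⟨hess, hk'1, ?_, ?_, ?_, hadj⟩
  · intro x hx
    by_cases hx0 : x = 0
    · refine ⟨0, ?_⟩
      rw [hx0]
      simp
    · obtain ⟨b, hb0, hb1, hb2⟩ := hval x hx0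
      have hvb : v b ≤ 1 := by rw [← hb2]; exact hx
      obtain ⟨q, hq⟩ := hres b hvb
      have hmem : aeval ζ q ∈ k' := by
        have : aeval ζ q ∈ (Algebra.adjoin k {ζ} : Set L) := aeval_mem_adjoin_singleton k ζ
        rw [← hadj] at this
        exact this
      refine ⟨⟨aeval ζ q, hmem⟩, ?_⟩
      have h1 : w (algebraMap K L b - aeval (algebraMap K L a) q) < 1 := by
        rw [aeval_algebraMap_apply, ← map_sub, hw]
        exact hq
      have h2 : w (aeval (algebraMap K L a) q - aeval ζ q) < 1 := by
        refine aeval_sub_lt w hkw haL hζ1 ?_ q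
        rw [Valuation.map_sub_swap]
        exact hζa
      have h3 : x - aeval ζ q = (x - algebraMap K L b) +
          (algebraMap K L b - aeval (algebraMap K L a) q) +
          (aeval (algebraMap K L a) q - aeval ζ q) := by ring
      change w (x - aeval ζ q) < 1
      rw [h3]
      exact w.map_add_lt (w.map_add_lt (hb1.trans_le hx) h1) h2
  · intro z hz
    obtain ⟨b, h0, -, h1⟩ := hval z hz
    exact ⟨b, h0, h1⟩
  · have halg : Algebra.IsAlgebraic k k' := by
      refine ⟨fun c => ?_⟩
      have h1 : IsAlgebraic k (c : L) := (hk'int _ c.2).isAlgebraic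
      have h2 : ((algebraMap k' L) c) = (c : L) := rfl
      rw [← h2] at h1
      exact (isAlgebraic_algebraMap_iff (algebraMap k' L).injective).1 h1
    have h1 : Algebra.trdeg k k' + Algebra.trdeg k' L = Algebra.trdeg k L :=
      _root_.trdeg_add_eq k k'
    have h2 : Algebra.trdeg k K + Algebra.trdeg K L = Algebra.trdeg k L :=
      _root_.trdeg_add_eq k K
    have h3 : Algebra.trdeg k k' = 0 := _root_.trdeg_eq_zero
    have h4 : Algebra.trdeg K L = 0 := _root_.trdeg_eq_zero
    rw [h3, zero_add] at h1
    rw [h4, add_zero] at h2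
    rw [h1, h2]

end Pool.Agent.H893.DD
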