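import Pool.Agent.H893.DD.Stm

set_option autoImplicit false

universe u

open Polynomial

namespace Pool.Agent.H893.DD

namespace Palg1

/-- powers of a prime and the derivative -/
lemma pow_dvd_der {κ : Type u} [Field κ] {h P : κ[X]} {e : ℕ} (hP : P ^ e ∣ h) :
    P ^ (e - 1) ∣ derivative h := by
  obtain ⟨r, rfl⟩ := hP
  rw [derivative_mul, derivative_pow]
  refine dvd_add ?_ ?_
  · exact ((dvd_mul_left _ _).mul_right _).mul_right _
  · exact (pow_dvd_pow P (Nat.sub_le e 1)).mul_right _

lemma main {κ : Type u} [Field κ] (h s q : κ[X]) (n : ℕ) (hd : h ∣ s * q ^ n) (P : κ[X])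
    (hP : Prime P) (e : ℕ) (he : P ^ e ∣ h) : P ^ e ∣ derivative h ^ 2 * s * q := by
  rcases Nat.lt_or_ge e 2 with h2 | h2
  · interval_cases e
    · rw [pow_zero]
      exact one_dvd _
    · rw [pow_one] at he ⊢
      rcases hP.dvd_or_dvd (he.trans hd) with h1 | h1
      · exact (h1.mul_left _).mul_right _
      · exact (hP.dvd_of_dvd_pow h1).mul_left _
  · have h1 := pow_dvd_pow_of_dvd (pow_dvd_der he) 2
    rw [← pow_mul] at h1
    exact (((pow_dvd_pow P (by omega : e ≤ (e - 1) * 2)).trans h1).mul_right _).mul_right _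

end Palg1

theorem t_alg1 : S_alg1.{u} := by
  intro κ _ h s q n hd
  by_cases h0 : h = 0
  · subst h0
    rw [zero_dvd_iff] at hd
    rcases mul_eq_zero.1 hd with h1 | h1
    · rw [h1, mul_zero, zero_mul]
    · rw [eq_zero_of_pow_eq_zero h1, mul_zero]
  · rw [UniqueFactorizationMonoid.dvd_iff_emultiplicity_le h0]
    intro P hP
    exact emultiplicity_le_emultiplicity_iff.2 fun e he => Palg1.main h s q n hd P hP e he

end Pool.Agent.H893.DD
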