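import Pool.Agent.H893.DD.Stm

/-!
# Density of `Q0` in `Q1` modulo the powers of the maximal ideal
-/

set_option autoImplicit false
set_option linter.unusedVariables false
set_option linter.unusedSectionVars false

universe u

namespace Pool.Agent.H893.DD.Pdens

open Pool.Agent.W418.LU2 IsLocalRing Polynomial
open Pool.Agent.H176.DT (Mod SU PP St)
open Pool.Agent.H893.DD

variable {F F1 : Type u} [Field F] [Field F1] [Algebra F F1]

/-- the ring `B[ζ]` -/
abbrev Bz (ζ : F1) (B : Subring F) : Subring F1 :=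
  Subring.closure ((B.map (algebraMap F F1) : Set F1) ∪ {ζ})

lemma map_mem_Bz (ζ : F1) (B : Subring F) {b : F} (hb : b ∈ B) : algebraMap F F1 b ∈ Bz ζ B :=
  Subring.subset_closure (Or.inl ⟨b, hb, rfl⟩)

lemma approx {V : ValuationSubring F1} {ζ : F1} {B : Subring F}
    (hB : B ≤ (V.comap (algebraMap F F1)).toSubring) {a : F} (ha : a ∈ B)
    (hζ : V.valuation (ζ - algebraMap F F1 a) < 1) (z : F1) (hz : z ∈ Bz ζ B) :
    z ∈ V ∧ ∃ b ∈ B, V.valuation (z - algebraMap F F1 b) < 1 := by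
  have hBV : ∀ b ∈ B, algebraMap F F1 b ∈ V := fun b hb => hB hb
  induction hz using Subring.closure_induction with
  | mem y hy =>
    rcases hy with ⟨b, hb, rfl⟩ | hy
    · exact ⟨hBV b hb, b, hb, by simp⟩
    · rw [Set.mem_singleton_iff] at hy
      subst hy
      refine ⟨?_, a, ha, hζ⟩
      have h1 : y = (y - algebraMap F F1 a) + algebraMap F F1 a := by ring
      rw [h1]
      exact V.add_mem _ _ ((V.valuation_le_one_iff _).1 hζ.le) (hBV a ha)
  | zero => exact ⟨V.zero_mem, 0, B.zero_mem, by simp⟩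
  | one => exact ⟨V.one_mem, 1, B.one_mem, by simp⟩
  | add x y _ _ hx hy =>
    obtain ⟨hx1, b, hb, hb1⟩ := hx
    obtain ⟨hy1, c, hc, hc1⟩ := hy
    refine ⟨V.add_mem _ _ hx1 hy1, b + c, B.add_mem hb hc, ?_⟩
    have h1 : x + y - algebraMap F F1 (b + c) =
        (x - algebraMap F F1 b) + (y - algebraMap F F1 c) := by
      rw [map_add]; ring
    rw [h1]
    exact lt_of_le_of_lt (Valuation.map_add _ _ _) (max_lt hb1 hc1)
  | neg x _ hx =>
    obtain ⟨hx1, b, hb, hb1⟩ := hx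
    refine ⟨V.neg_mem _ hx1, -b, B.neg_mem hb, ?_⟩
    have h1 : -x - algebraMap F F1 (-b) = -(x - algebraMap F F1 b) := by
      rw [map_neg]; ring
    rw [h1, Valuation.map_neg]
    exact hb1
  | mul x y _ _ hx hy =>
    obtain ⟨hx1, b, hb, hb1⟩ := hx
    obtain ⟨hy1, c, hc, hc1⟩ := hy
    refine ⟨V.mul_mem _ _ hx1 hy1, b * c, B.mul_mem hb hc, ?_⟩
    have h1 : x * y - algebraMap F F1 (b * c) =
        x * (y - algebraMap F F1 c) + (x - algebraMap F F1 b) * algebraMap F F1 c := by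
      rw [map_mul]; ring
    rw [h1]
    refine lt_of_le_of_lt (Valuation.map_add _ _ _) (max_lt ?_ ?_)
    · rw [map_mul]
      exact mul_lt_one_of_nonneg_of_lt_one_right ((V.valuation_le_one_iff _).2 hx1)
        zero_le hc1
    · rw [map_mul]
      exact mul_lt_one_of_nonneg_of_lt_one_left zero_le hb1
        ((V.valuation_le_one_iff _).2 (hBV c hc))

lemma map_mem_Q1 {V : ValuationSubring F1} {ζ : F1} {B : Subring F} {z : F} (hz : z ∈ Q0 V B) :
    algebraMap F F1 z ∈ Q1 V ζ B := by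
  obtain ⟨a, ha, b, hb, hb0, hbV, rfl⟩ := hz
  refine ⟨algebraMap F F1 a, map_mem_Bz ζ B ha, algebraMap F F1 b, map_mem_Bz ζ B hb, ?_, ?_, ?_⟩
  · rw [Ne, map_eq_zero]
    exact hb0
  · rw [← map_inv₀]
    exact hbV
  · rw [map_mul, map_inv₀]

lemma key {V : ValuationSubring F1} {ζ : F1} {h : F[X]} {B : Subring F} (het : Et V ζ h B)
    (ha : ∃ a ∈ B, V.valuation (ζ - algebraMap F F1 a) < 1) {m : ℕ} (w : Fin m → F)
    (hw : ∀ i, w i ∈ Q0 V B)
    (hg : ∀ z ∈ Q0 V B, (z ≠ 0 → algebraMap F F1 z⁻¹ ∉ V) →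
      ∃ c : Fin m → F, (∀ i, c i ∈ Q0 V B) ∧ z = ∑ i, c i * w i) (τ : F1) (hτ : τ ∈ Q1 V ζ B) :
    ∃ p ∈ Q0 V B, ∃ c : Fin m → F1, (∀ i, c i ∈ Q1 V ζ B) ∧
      τ = algebraMap F F1 p + ∑ i, algebraMap F F1 (w i) * c i := by
  obtain ⟨a, haB, hζ⟩ := ha
  have hap := approx (ζ := ζ) het.BV haB hζ
  have hBzV : Bz ζ B ≤ V.toSubring := fun z hz => (hap z hz).1
  have hBV : ∀ b ∈ B, algebraMap F F1 b ∈ V := fun b hb => het.BV hb
  -- the approximation of `τ`
  obtain ⟨p, hp, hpv⟩ : ∃ p ∈ Q0 V B, V.valuation (τ - algebraMap F F1 p) < 1 := by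
    obtain ⟨q, hq, s, hs, hs0, hsV, rfl⟩ := hτ
    obtain ⟨hq1, q0, hq0, hq2⟩ := hap q hq
    obtain ⟨hs1, s0, hs0', hs2⟩ := hap s hs
    have hvs : V.valuation s = 1 := by
      apply le_antisymm ((V.valuation_le_one_iff _).2 hs1)
      have h1 : V.valuation s⁻¹ ≤ 1 := (V.valuation_le_one_iff _).2 hsV
      rw [map_inv₀] at h1
      exact (inv_le_one₀ (by
        rw [zero_lt_iff, Valuation.ne_zero_iff]
        exact hs0)).1 h1
    have hvs0 : V.valuation (algebraMap F F1 s0) = 1 := by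
      have h1 : algebraMap F F1 s0 = s - (s - algebraMap F F1 s0) := by ring
      rw [h1, Valuation.map_sub_eq_of_lt_left _ (by rw [hvs]; exact hs2), hvs]
    have hs00 : algebraMap F F1 s0 ≠ 0 := by
      intro h0
      rw [h0, map_zero] at hvs0
      exact zero_ne_one hvs0
    refine ⟨q0 * s0⁻¹, ⟨q0, hq0, s0, hs0', ?_, ?_, rfl⟩, ?_⟩
    · rintro rfl
      simp at hs00
    · change algebraMap F F1 s0⁻¹ ∈ V
      rw [← V.valuation_le_one_iff, map_inv₀, map_inv₀, hvs0, inv_one]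
    · have h1 : q * s⁻¹ - algebraMap F F1 (q0 * s0⁻¹) =
          ((q - algebraMap F F1 q0) * algebraMap F F1 s0 -
            algebraMap F F1 q0 * (s - algebraMap F F1 s0)) * (s * algebraMap F F1 s0)⁻¹ := by
        rw [map_mul, map_inv₀]
        field_simp
        ring
      rw [h1, map_mul, map_inv₀, map_mul, hvs, hvs0, mul_one, inv_one, mul_one]
      refine lt_of_le_of_lt (Valuation.map_sub _ _ _) (max_lt ?_ ?_)
      · rw [map_mul, hvs0, mul_one]
        exact hq2
      · rw [map_mul]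
        exact mul_lt_one_of_nonneg_of_lt_one_right
          ((V.valuation_le_one_iff _).2 (hBV q0 hq0)) zero_le hs2
  -- the inclusion
  let inc : Q0 V B →+* Q1 V ζ B :=
    ((algebraMap F F1).comp (Q0 V B).subtype).codRestrict (Q1 V ζ B) fun z => map_mem_Q1 z.2
  have hinc : ∀ z : Q0 V B, ((inc z : Q1 V ζ B) : F1) = algebraMap F F1 z := fun z => rfl
  have hfl := (Pool.Agent.H176.DT.p_flat V ζ B h het.BV het.monic het.coeff het.root het.der
    het.min (Q0 V B) (Q1 V ζ B) rfl rfl inc hinc).2.2.1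
  have hmem : τ - algebraMap F F1 p ∈ Q1 V ζ B := (Q1 V ζ B).sub_mem hτ (map_mem_Q1 hp)
  have hnu : ¬ IsUnit (⟨τ - algebraMap F F1 p, hmem⟩ : Q1 V ζ B) := by
    intro hu
    have h1 := (isUnit_lo_iff (A := V.toSubring) hBzV _).1 hu
    have h2 : V.valuation (τ - algebraMap F F1 p)⁻¹ ≤ 1 := (V.valuation_le_one_iff _).2 h1.2
    rw [map_inv₀] at h2
    have h3 : 0 < V.valuation (τ - algebraMap F F1 p) := by
      rw [zero_lt_iff, Valuation.ne_zero_iff]
      exact h1.1
    have h4 := (inv_le_one₀ h3).1 h2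
    exact absurd hpv (not_lt.2 h4)
  have hI := hfl _ hnu
  have hle : (Ideal.span {y : Q0 V B | ¬ IsUnit y}).map inc ≤
      Ideal.span (Set.range fun i => inc ⟨w i, hw i⟩) := by
    rw [Ideal.map_span, Ideal.span_le]
    rintro _ ⟨y, hy, rfl⟩
    have hy' : ((y : F) ≠ 0 → algebraMap F F1 (y : F)⁻¹ ∉ V) := by
      intro h0 h1
      exact hy ((isUnit_lo_iff (A := (V.comap (algebraMap F F1)).toSubring) het.BV y).2 ⟨h0, h1⟩)
    obtain ⟨c, hc, hyc⟩ := hg y y.2 hy'
    have h1 : y = ∑ i, (⟨c i, hc i⟩ : Q0 V B) * ⟨w i, hw i⟩ := by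
      apply Subtype.ext
      push_cast
      exact hyc
    rw [h1, map_sum]
    refine Ideal.sum_mem _ fun i _ => ?_
    rw [map_mul]
    exact Ideal.mul_mem_left _ _ (Ideal.subset_span ⟨i, rfl⟩)
  have hJ := hle hI
  rw [Ideal.mem_span_range_iff_exists_fun] at hJ
  obtain ⟨c, hc⟩ := hJ
  refine ⟨p, hp, fun i => c i, fun i => (c i).2, ?_⟩
  have h1 := congrArg (Subtype.val) hc
  push_cast at h1
  rw [eq_comm, sub_eq_iff_eq_add'] at h1
  rw [h1]
  congr 1
  exact Finset.sum_congr rfl fun i _ => mul_comm _ _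

end Pool.Agent.H893.DD.Pdens

namespace Pool.Agent.H893.DD

open Pool.Agent.W418.LU2 IsLocalRing Polynomial

theorem t_dens : S_dens.{u} := by
  intro F F1 _ _ _ V ζ h B het ha m w hw hg N
  induction N with
  | zero =>
    intro τ hτ
    refine ⟨0, (Q0 V B).zero_mem, fun _ => τ, fun _ => hτ, ?_⟩
    simp
  | succ N ih =>
    intro τ hτ
    obtain ⟨p, hp, r, hr, hτr⟩ := ih τ hτ
    choose p' hp' c hc hrc using fun f => Pdens.key het ha w hw hg (r f) (hr f)
    refine ⟨p + ∑ f, (∏ i, w (f i)) * p' f, ?_, fun g => c (Fin.tail g) (g 0), fun g => hc _ _, ?_⟩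
    · refine (Q0 V B).add_mem hp ((Q0 V B).sum_mem fun f _ => (Q0 V B).mul_mem ?_ (hp' f))
      exact (Q0 V B).prod_mem fun i _ => hw _
    · have h1 : τ - algebraMap F F1 (p + ∑ f, (∏ i, w (f i)) * p' f) =
          ∑ f, ∑ i, algebraMap F F1 (∏ j, w (f j)) * (algebraMap F F1 (w i) * c f i) := by
        rw [map_add, map_sum, ← sub_sub, hτr, ← Finset.sum_sub_distrib]
        refine Finset.sum_congr rfl fun f _ => ?_
        rw [← Finset.mul_sum, map_mul, ← mul_sub]
        congr 1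
        rw [hrc f]
        ring
      rw [h1, ← (Fin.consEquiv (fun _ : Fin (N + 1) => Fin m)).sum_comp, Fintype.sum_prod_type,
        Finset.sum_comm]
      refine Finset.sum_congr rfl fun i _ => Finset.sum_congr rfl fun f _ => ?_
      have ht : Fin.tail ((Fin.consEquiv fun _ : Fin (N + 1) => Fin m) (i, f)) = f := rfl
      simp only [ht]
      simp only [Fin.consEquiv_apply, Fin.prod_univ_succ, Fin.cons_zero, Fin.cons_succ, map_mul]
      ring

end Pool.Agent.H893.DD
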