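import Pool.Agent.H893.DD.Stm2
import Pool.Agent.H893.DD.P_dens

/-!
# Stages over `A[ζ]` are defined over `F` (project DD of helper893, written by helper199)
-/

set_option autoImplicit false
set_option linter.unusedVariables false
set_option linter.unusedSectionVars false

universe u

namespace Pool.Agent.H893.DD.Pcmp

open Pool.Agent.W418.LU2 IsLocalRing Polynomial
open Pool.Agent.H176.DT (Mod SU PP St val_one_iff)
open Pool.Agent.H893.DD

/-- A common denominator. -/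
lemma common {F : Type u} [Field F] {V0 A : Subring F} {ι : Type u} [Finite ι] (p : ι → F)
    (hp : ∀ i, p i ∈ lo V0 A) :
    ∃ σ ∈ A, σ ≠ 0 ∧ σ⁻¹ ∈ V0 ∧ ∀ i, σ * p i ∈ A := by
  classical
  cases nonempty_fintype ι
  have hp' := fun i => mem_lo.1 (hp i)
  choose a ha b hb hb0 hbV hab using hp'
  refine ⟨∏ i, b i, A.prod_mem fun i _ => hb i, Finset.prod_ne_zero_iff.2 fun i _ => hb0 i, ?_,
    fun i => ?_⟩
  · rw [← Finset.prod_inv_distrib]
    exact V0.prod_mem fun i _ => hbV i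
  · have h1 : (∏ i, b i) * p i = a i * ∏ j ∈ Finset.univ.erase i, b j := by
      rw [← Finset.mul_prod_erase _ _ (Finset.mem_univ i), hab i]
      have h2 := hb0 i
      field_simp
    rw [h1]
    exact A.mul_mem (ha i) (A.prod_mem fun j _ => hb j)

/-- A power of the product of the coordinates is divisible by a given monomial. -/
lemma pow_den {F : Type u} [Field F] {A P : Subring F} {s : ℕ} {x : Fin s → F}
    (h : RegP A P x) (hxV : ∀ i, (x i)⁻¹ ∉ A) {β : F} (hβ : β ∈ P) (hm : PMon P x β) :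
    ∃ n : ℕ, (∏ j, x j) ^ n * β⁻¹ ∈ P := by
  obtain ⟨u, u0, u1, u2, b, rfl⟩ := hm
  have hmo : mo x b ∈ P := by
    have h1 : mo x b = u⁻¹ * (u * mo x b) := by rw [← mul_assoc, inv_mul_cancel₀ u0, one_mul]
    rw [h1]
    exact P.mul_mem u2 hβ
  have hb : ∀ i, 0 ≤ b i := fun i => Pool.Agent.H176.DT.p_expo h b hmo i (hxV i)
  refine ⟨∑ i, (b i).toNat, ?_⟩
  have h1 : (∏ j, x j) ^ (∑ i, (b i).toNat) =
      mo x (fun _ => ((∑ i, (b i).toNat : ℕ) : ℤ)) := by
    unfold mo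
    rw [← Finset.prod_pow]
    exact Finset.prod_congr rfl fun i _ => (zpow_natCast _ _).symm
  have h2 : (∏ j, x j) ^ (∑ i, (b i).toNat) * (u * mo x b)⁻¹ =
      u⁻¹ * mo x ((fun _ => ((∑ i, (b i).toNat : ℕ) : ℤ)) + -b) := by
    rw [mo_add h.ne, mo_neg, h1, mul_inv]
    ring
  rw [h2]
  refine P.mul_mem u2 (mo_mem h.mem ?_)
  intro i
  have h3 : (b i).toNat ≤ ∑ i, (b i).toNat :=
    Finset.single_le_sum (f := fun i => (b i).toNat) (fun _ _ => Nat.zero_le _)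
      (Finset.mem_univ i)
  have h4 := Int.toNat_of_nonneg (hb i)
  show (0 : ℤ) ≤ ((∑ i, (b i).toNat : ℕ) : ℤ) + -(b i)
  omega

end Pool.Agent.H893.DD.Pcmp

namespace Pool.Agent.H893.DD

open Pool.Agent.W418.LU2 IsLocalRing Polynomial
open Pool.Agent.H176.DT (Mod SU PP St val_one_iff)
open Pcmp

theorem t_cmp : S_cmp.{u} := by
  classical
  intro F F1 _ _ _ V ζ h A het ha m w hm hwA hwV hg T s x hst hxV hwπ
  obtain ⟨β, hβA, hβm, hβt, -⟩ := hst.den
  have hPV : PP V (Az ζ A) T ≤ V.toSubring := hst.reg.PA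
  have hSV : Subring.closure ((Az ζ A : Set F1) ∪ T) ≤ V.toSubring :=
    (le_lo _ _).trans hPV
  have hAzS : Az ζ A ≤ Subring.closure ((Az ζ A : Set F1) ∪ T) := fun z hz =>
    Subring.subset_closure (Or.inl hz)
  have hAzP : Az ζ A ≤ PP V (Az ζ A) T := hAzS.trans (le_lo _ _)
  have hQ1P : Q1 V ζ A ≤ PP V (Az ζ A) T := lo_mono hAzS
  have hAmap : ∀ a ∈ A, algebraMap F F1 a ∈ Az ζ A := fun a ha =>
    Subring.subset_closure (Or.inl ⟨a, ha, rfl⟩)
  have hAV : ∀ a ∈ A, algebraMap F F1 a ∈ V := fun a ha => het.BV ha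
  have hTP : ∀ t ∈ T, t ∈ PP V (Az ζ A) T := fun t ht =>
    le_lo _ _ (Subring.subset_closure (Or.inr ht))
  have hβ00 : β ≠ 0 := by
    obtain ⟨u, u0, u1, u2, b, rfl⟩ := hβm
    exact mul_ne_zero u0 (mo_ne_zero hst.reg.ne b)
  obtain ⟨n, hn⟩ := pow_den hst.reg hxV (hAzP hβA) hβm
  have hπ : (∏ j, x j) ≠ 0 := Finset.prod_ne_zero_iff.2 fun j _ => hst.reg.ne j
  -- the products of the `w i`
  have hgP : ∀ f : Fin (n + 1) → Fin m,
      algebraMap F F1 (∏ i, w (f i)) * β⁻¹ ∈ PP V (Az ζ A) T ∧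
      V.valuation (algebraMap F F1 (∏ i, w (f i)) * β⁻¹) < 1 := by
    intro f
    have h1 : algebraMap F F1 (∏ i, w (f i)) * β⁻¹ = algebraMap F F1 (w (f 0)) *
        ((∏ i : Fin n, (algebraMap F F1 (w (f i.succ)) * (∏ j, x j)⁻¹)) *
          ((∏ j, x j) ^ n * β⁻¹)) := by
      rw [Fin.prod_univ_succ, map_mul, map_prod, Finset.prod_mul_distrib, Finset.prod_const,
        Finset.card_univ, Fintype.card_fin, inv_pow]
      have h2 : (∏ j, x j) ^ n ≠ 0 := pow_ne_zero _ hπ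
      generalize (∏ j, x j) ^ n = q at h2
      field_simp
    have h2 : (∏ i : Fin n, (algebraMap F F1 (w (f i.succ)) * (∏ j, x j)⁻¹)) *
          ((∏ j, x j) ^ n * β⁻¹) ∈ PP V (Az ζ A) T :=
      Subring.mul_mem _ (Subring.prod_mem _ fun i _ => hwπ _) hn
    rw [h1]
    refine ⟨Subring.mul_mem _ (hAzP (hAmap _ (hwA _))) h2, ?_⟩
    rw [map_mul]
    refine mul_lt_one_of_nonneg_of_lt_one_left zero_le ?_
      ((V.valuation_le_one_iff _).2 (hPV h2))
    refine (lt_one_iff (hAV _ (hwA _))).2 fun _ => ?_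
    rw [← map_inv₀]
    exact hwV _
  have hμ : ∀ (μ : F1) (r : (Fin (n + 1) → Fin m) → F1), (∀ f, r f ∈ Q1 V ζ A) →
      μ = ∑ f, algebraMap F F1 (∏ i, w (f i)) * r f →
      μ * β⁻¹ ∈ PP V (Az ζ A) T ∧ V.valuation (μ * β⁻¹) < 1 := by
    rintro μ r hr rfl
    have h1 : (∑ f, algebraMap F F1 (∏ i, w (f i)) * r f) * β⁻¹ =
        ∑ f, (algebraMap F F1 (∏ i, w (f i)) * β⁻¹) * r f := by
      rw [Finset.sum_mul]
      exact Finset.sum_congr rfl fun f _ => by ring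
    rw [h1]
    refine ⟨Subring.sum_mem _ fun f _ => Subring.mul_mem _ (hgP f).1 (hQ1P (hr f)), ?_⟩
    refine Valuation.map_sum_lt _ one_ne_zero fun f _ => ?_
    rw [map_mul]
    exact mul_lt_one_of_nonneg_of_lt_one_left zero_le (hgP f).2
      ((V.valuation_le_one_iff _).2 (hPV (hQ1P (hr f))))
  have hd := fun (τ : F1) (hτ : τ ∈ Q1 V ζ A) =>
    t_dens V ζ h A het ha w (fun i => le_lo _ _ (hwA i)) hg (n + 1) τ hτ
  obtain ⟨p0, hp0, r0, hr0, hβ0⟩ := hd β (le_lo _ _ hβA)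
  have hd' : ∀ t : T, ∃ p ∈ Q0 V A, ∃ r : (Fin (n + 1) → Fin m) → F1,
      (∀ f, r f ∈ Q1 V ζ A) ∧ β * (t : F1) - algebraMap F F1 p =
        ∑ f, algebraMap F F1 (∏ i, w (f i)) * r f := fun t =>
    hd (β * t) (le_lo _ _ (hβt t t.2))
  choose p hp r hr hβr using hd'
  obtain ⟨he1, he2⟩ := hμ _ r0 hr0 hβ0
  obtain ⟨e, hedef⟩ : ∃ e : F1, e = algebraMap F F1 p0 * β⁻¹ := ⟨_, rfl⟩
  have he : e = 1 - (β - algebraMap F F1 p0) * β⁻¹ := by
    rw [sub_mul, mul_inv_cancel₀ hβ00, hedef]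
    ring
  have heP : e ∈ PP V (Az ζ A) T := by
    rw [he]
    exact Subring.sub_mem _ (Subring.one_mem _) he1
  have hev : V.valuation e = 1 := by
    rw [he, Valuation.map_sub_eq_of_lt_left _ (by rw [map_one]; exact he2), map_one]
  obtain ⟨he0, heV', heV⟩ := (val_one_iff V e).1 hev
  have heP' : e⁻¹ ∈ PP V (Az ζ A) T := inv_mem_lo hSV heP he0 heV
  have hp00 : algebraMap F F1 p0 ≠ 0 := by
    intro h0
    apply he0
    rw [hedef, h0, zero_mul]
  have hp0' : p0 ≠ 0 := by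
    rintro rfl
    exact hp00 (map_zero _)
  have heinv : β * (algebraMap F F1 p0)⁻¹ = e⁻¹ := by
    rw [hedef, mul_inv, inv_inv, mul_comm]
  have := hst.fin.to_subtype
  obtain ⟨T3, hT3⟩ : ∃ T3 : Set F, T3 = Set.range (fun t : T => p t * p0⁻¹) ∪
      Set.range (fun f : Fin (n + 1) → Fin m => (∏ i, w (f i)) * p0⁻¹) := ⟨_, rfl⟩
  have hT3P : ∀ τ ∈ T3, algebraMap F F1 τ ∈ PP V (Az ζ A) T := by
    intro τ hτ
    rw [hT3] at hτ
    rcases hτ with ⟨t, rfl⟩ | ⟨f, rfl⟩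
    · obtain ⟨h1, -⟩ := hμ _ (r t) (hr t) (hβr t)
      have h2 : algebraMap F F1 (p t * p0⁻¹) =
          ((t : F1) - (β * (t : F1) - algebraMap F F1 (p t)) * β⁻¹) * e⁻¹ := by
        rw [← heinv, map_mul, map_inv₀]
        field_simp
        ring
      show algebraMap F F1 (p t * p0⁻¹) ∈ _
      rw [h2]
      exact Subring.mul_mem _ (Subring.sub_mem _ (hTP t t.2) h1) heP'
    · have h2 : algebraMap F F1 ((∏ i, w (f i)) * p0⁻¹) =
          (algebraMap F F1 (∏ i, w (f i)) * β⁻¹) * e⁻¹ := by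
        rw [← heinv, map_mul, map_inv₀]
        field_simp
      show algebraMap F F1 ((∏ i, w (f i)) * p0⁻¹) ∈ _
      rw [h2]
      exact Subring.mul_mem _ (hgP f).1 heP'
  have hB3V : Subring.closure ((A : Set F) ∪ T3) ≤ (V.comap (algebraMap F F1)).toSubring := by
    rw [Subring.closure_le]
    rintro y (hy | hy)
    · exact het.BV hy
    · exact hPV (hT3P y hy)
  have hB3P : ∀ y ∈ Subring.closure ((A : Set F) ∪ T3), algebraMap F F1 y ∈
      PP V (Az ζ A) T := by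
    have h1 : Subring.closure ((A : Set F) ∪ T3) ≤
        (PP V (Az ζ A) T).comap (algebraMap F F1) := by
      rw [Subring.closure_le]
      rintro y (hy | hy)
      · exact hAzP (hAmap y hy)
      · exact hT3P y hy
    exact fun y hy => h1 hy
  have hζP : ζ ∈ Az ζ A := Subring.subset_closure (Or.inr rfl)
  have hCP : Az ζ (Subring.closure ((A : Set F) ∪ T3)) ≤ PP V (Az ζ A) T := by
    refine Subring.closure_le.2 ?_
    rintro z (⟨y, hy, rfl⟩ | hz)
    · exact hB3P y hy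
    · rw [Set.mem_singleton_iff] at hz
      rw [hz]
      exact hAzP hζP
  have hCV : Az ζ (Subring.closure ((A : Set F) ∪ T3)) ≤ V.toSubring := hCP.trans hPV
  have hAzC : Az ζ A ≤ Az ζ (Subring.closure ((A : Set F) ∪ T3)) := by
    refine Subring.closure_mono ?_
    rintro z (⟨y, hy, rfl⟩ | hz)
    · exact Or.inl ⟨y, Subring.subset_closure (Or.inl hy), rfl⟩
    · exact Or.inr hz
  have hQ13 : Q1 V ζ A ≤ Q1 V ζ (Subring.closure ((A : Set F) ∪ T3)) := lo_mono hAzC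
  have hT3Q : ∀ τ ∈ T3, algebraMap F F1 τ ∈ Q1 V ζ (Subring.closure ((A : Set F) ∪ T3)) :=
    fun τ hτ => le_lo _ _ (Subring.subset_closure
      (Or.inl ⟨τ, Subring.subset_closure (Or.inr hτ), rfl⟩))
  have hμQ : ∀ (μ : F1) (r : (Fin (n + 1) → Fin m) → F1), (∀ f, r f ∈ Q1 V ζ A) →
      μ = ∑ f, algebraMap F F1 (∏ i, w (f i)) * r f →
      μ * (algebraMap F F1 p0)⁻¹ ∈ Q1 V ζ (Subring.closure ((A : Set F) ∪ T3)) := by
    rintro μ r hr rfl
    have h1 : (∑ f, algebraMap F F1 (∏ i, w (f i)) * r f) * (algebraMap F F1 p0)⁻¹ =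
        ∑ f, algebraMap F F1 ((∏ i, w (f i)) * p0⁻¹) * r f := by
      rw [Finset.sum_mul]
      refine Finset.sum_congr rfl fun f _ => ?_
      rw [map_mul (algebraMap F F1) (∏ i, w (f i)) p0⁻¹, map_inv₀]
      ring
    rw [h1]
    refine Subring.sum_mem _ fun f _ => Subring.mul_mem _ (hT3Q _ ?_) (hQ13 (hr f))
    rw [hT3]
    exact Or.inr ⟨f, rfl⟩
  have heQ : e ∈ Q1 V ζ (Subring.closure ((A : Set F) ∪ T3)) := by
    have h1 : e⁻¹ = 1 + (β - algebraMap F F1 p0) * (algebraMap F F1 p0)⁻¹ := by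
      rw [← heinv, sub_mul, mul_inv_cancel₀ hp00]
      ring
    have h2 : e⁻¹ ∈ Q1 V ζ (Subring.closure ((A : Set F) ∪ T3)) := by
      rw [h1]
      exact Subring.add_mem _ (Subring.one_mem _) (hμQ _ r0 hr0 hβ0)
    have h3 := inv_mem_lo hCV h2 (inv_ne_zero he0) (by rw [inv_inv]; exact heV')
    rwa [inv_inv] at h3
  have hSQ : Subring.closure ((Az ζ A : Set F1) ∪ T) ≤
      Q1 V ζ (Subring.closure ((A : Set F) ∪ T3)) := by
    rw [Subring.closure_le]
    rintro z (hz | hz)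
    · exact le_lo _ _ (hAzC hz)
    · have h1 : z = (algebraMap F F1 (p ⟨z, hz⟩ * p0⁻¹) +
          (β * z - algebraMap F F1 (p ⟨z, hz⟩)) * (algebraMap F F1 p0)⁻¹) * e := by
        rw [map_mul, map_inv₀, hedef]
        field_simp
        ring
      rw [h1]
      refine Subring.mul_mem _ (Subring.add_mem _ (hT3Q _ ?_)
        (hμQ _ (r ⟨z, hz⟩) (hr _) (hβr ⟨z, hz⟩))) heQ
      rw [hT3]
      exact Or.inl ⟨⟨z, hz⟩, rfl⟩
  refine ⟨T3, ?_, hB3V, le_antisymm (lo_lo hCV hSQ) (lo_lo hSV hCP), ?_⟩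
  · rw [hT3]
    exact (Set.finite_range _).union (Set.finite_range _)
  · obtain ⟨σ₁, hσ₁A, hσ₁0, hσ₁V, hσ₁p⟩ := common (V0 := (V.comap (algebraMap F F1)).toSubring)
      p hp
    obtain ⟨a0, ha0, b0, hb0, hb00, hb0V, hab⟩ := hp0
    refine ⟨σ₁ * a0, A.mul_mem hσ₁A ha0, ?_, ?_, ?_⟩
    · refine mul_ne_zero hσ₁0 ?_
      rintro rfl
      apply hp0'
      rw [hab, zero_mul]
    · have h1 : algebraMap F F1 (σ₁ * a0) = (algebraMap F F1 (σ₁ * b0) * e) * β := by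
        rw [hedef, hab, map_mul, map_mul, map_mul, map_inv₀]
        have h2 : algebraMap F F1 b0 ≠ 0 := (_root_.map_ne_zero _).2 hb00
        field_simp
      have hσP : algebraMap F F1 (σ₁ * b0) ∈ PP V (Az ζ A) T :=
        hAzP (hAmap _ (A.mul_mem hσ₁A hb0))
      have hσ0 : algebraMap F F1 (σ₁ * b0) ≠ 0 := (_root_.map_ne_zero _).2 (mul_ne_zero hσ₁0 hb00)
      have hσV : (algebraMap F F1 (σ₁ * b0))⁻¹ ∈ V.toSubring := by
        rw [← map_inv₀, mul_inv, map_mul]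
        exact Subring.mul_mem _ hσ₁V hb0V
      have hσP' : (algebraMap F F1 (σ₁ * b0))⁻¹ ∈ PP V (Az ζ A) T :=
        inv_mem_lo hSV hσP hσ0 hσV
      rw [h1]
      refine PMon.mul hst.reg.ne ?_ hβm
      refine ⟨_, mul_ne_zero hσ0 he0, Subring.mul_mem _ hσP heP, ?_, 0, ?_⟩
      · rw [mul_inv]
        exact Subring.mul_mem _ hσP' heP'
      · rw [mo_zero, mul_one]
    · intro t ht
      rw [hT3] at ht
      rcases ht with ⟨t, rfl⟩ | ⟨f, rfl⟩
      · have h1 : σ₁ * a0 * (p t * p0⁻¹) = (σ₁ * p t) * b0 := by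
          have h2 : a0 = p0 * b0 := by
            rw [hab, mul_assoc, inv_mul_cancel₀ hb00, mul_one]
          rw [h2]
          field_simp
        show σ₁ * a0 * (p t * p0⁻¹) ∈ A
        rw [h1]
        exact A.mul_mem (hσ₁p t) hb0
      · have h1 : σ₁ * a0 * ((∏ i, w (f i)) * p0⁻¹) = (σ₁ * b0) * ∏ i, w (f i) := by
          have h2 : a0 = p0 * b0 := by
            rw [hab, mul_assoc, inv_mul_cancel₀ hb00, mul_one]
          rw [h2]
          field_simp
        show σ₁ * a0 * ((∏ i, w (f i)) * p0⁻¹) ∈ A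
        rw [h1]
        exact A.mul_mem (A.mul_mem hσ₁A hb0) (A.prod_mem fun i _ => hwA _)

end Pool.Agent.H893.DD
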