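import Pool.Agent.H893.DD.Stm

set_option autoImplicit false
set_option linter.unusedVariables false
set_option linter.unusedSectionVars false

universe u

namespace Pool.Agent.H893.DD

open Pool.Agent.W418.LU2 IsLocalRing Polynomial

namespace Pcolon

variable {F F1 : Type u} [Field F] [Field F1] [Algebra F F1]

/-- elements of `B[ζ]` are values of polynomials with coefficients in `B` -/
theorem exists_poly (ζ : F1) (B : Subring F) (y : F1)
    (hy : y ∈ Subring.closure ((B.map (algebraMap F F1) : Set F1) ∪ {ζ})) :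
    ∃ g : B[X], aeval ζ (g.map B.subtype) = y := by
  induction hy using Subring.closure_induction with
  | mem y hy =>
    rcases hy with ⟨b, hb, rfl⟩ | hy
    · exact ⟨C ⟨b, hb⟩, by simp⟩
    · exact ⟨X, by rw [Polynomial.map_X, aeval_X]; exact hy.symm⟩
  | zero => exact ⟨0, by simp⟩
  | one => exact ⟨1, by simp⟩
  | add a b _ _ ha hb =>
    obtain ⟨f, rfl⟩ := ha
    obtain ⟨g, rfl⟩ := hb
    exact ⟨f + g, by rw [Polynomial.map_add, map_add]⟩
  | neg a _ ha =>
    obtain ⟨f, rfl⟩ := ha
    exact ⟨-f, by rw [Polynomial.map_neg, map_neg]⟩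
  | mul a b _ _ ha hb =>
    obtain ⟨f, rfl⟩ := ha
    obtain ⟨g, rfl⟩ := hb
    exact ⟨f * g, by rw [Polynomial.map_mul, map_mul]⟩

/-- … of degree less than the one of `h` -/
theorem exists_poly_lt {V : ValuationSubring F1} {ζ : F1} {h : F[X]} {B : Subring F}
    (E : Et V ζ h B) (y : F1)
    (hy : y ∈ Subring.closure ((B.map (algebraMap F F1) : Set F1) ∪ {ζ})) :
    ∃ f : F[X], f.degree < h.degree ∧ (∀ i, f.coeff i ∈ B) ∧ aeval ζ f = y := by
  obtain ⟨g, hg⟩ := exists_poly ζ B y hy
  have hc : (↑h.coeffs : Set F) ⊆ B := by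
    intro c hc
    obtain ⟨n, -, rfl⟩ := mem_coeffs_iff.mp hc
    exact E.coeff n
  have hm : (h.toSubring B hc).Monic := (monic_toSubring h B hc).mpr E.monic
  have hmap : (h.toSubring B hc).map B.subtype = h := map_toSubring h B hc
  refine ⟨(g %ₘ h.toSubring B hc).map B.subtype, ?_, ?_, ?_⟩
  · rw [map_modByMonic _ hm, hmap]
    exact degree_modByMonic_lt _ E.monic
  · intro i
    rw [coeff_map]
    exact Subtype.property _
  · rw [map_modByMonic _ hm, hmap, aeval_modByMonic_eq_self_of_root E.root, hg]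

end Pcolon

open Pcolon in
theorem t_colon : S_colon.{u} := by
  intro F F1 _ _ _ V ζ h B E u a hu ha z hz hdv
  obtain ⟨q, hq, s, hs, hs0, hsV, rfl⟩ := hz
  obtain ⟨w, ⟨q', hq', s', hs', hs0', hsV', rfl⟩, hw⟩ := hdv
  set C := Subring.closure ((B.map (algebraMap F F1) : Set F1) ∪ {ζ}) with hC
  have hζ : ζ ∈ C := Subring.subset_closure (Or.inr rfl)
  obtain ⟨f, hf1, hf2, hf3⟩ := exists_poly_lt E (s' * q) (C.mul_mem hs' hq)
  obtain ⟨g, hg1, hg2, hg3⟩ := exists_poly_lt E (s * q') (C.mul_mem hs hq')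
  have hrel : (s' * q) * algebraMap F F1 a = (s * q') * algebraMap F F1 u := by
    field_simp at hw
    linear_combination hw
  have hCd : ∀ (p : F[X]) (c : F), (p * Polynomial.C c).degree ≤ p.degree := by
    intro p c
    refine (degree_mul_le _ _).trans ?_
    calc p.degree + (Polynomial.C c).degree ≤ p.degree + 0 := by
          gcongr
          exact degree_C_le
      _ = p.degree := add_zero _
  have hpoly : f * Polynomial.C a - g * Polynomial.C u = 0 := by
    apply E.min
    · refine lt_of_le_of_lt (degree_sub_le _ _) (max_lt ?_ ?_)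
      · exact lt_of_le_of_lt (hCd f a) hf1
      · exact lt_of_le_of_lt (hCd g u) hg1
    · rw [map_sub, map_mul, map_mul, aeval_C, aeval_C, hf3, hg3, hrel, sub_self]
  have hco : ∀ i, f.coeff i * a = g.coeff i * u := by
    intro i
    have := congrArg (fun p => coeff p i) hpoly
    simp only [coeff_sub, coeff_mul_C, coeff_zero] at this
    exact sub_eq_zero.mp this
  refine ⟨f.natDegree + 1, fun i => f.coeff i, fun i => ζ ^ (i : ℕ) * (s' * s)⁻¹, ?_, ?_, ?_, ?_⟩
  · intro i
    exact le_lo _ _ (hf2 i)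
  · intro i
    exact ⟨g.coeff i, le_lo _ _ (hg2 i), hco i⟩
  · intro i
    refine ⟨ζ ^ (i : ℕ), C.pow_mem hζ _, s' * s, C.mul_mem hs' hs, mul_ne_zero hs0' hs0, ?_, rfl⟩
    rw [mul_inv]
    exact Subring.mul_mem _ hsV' hsV
  · have e : ∑ i : Fin (f.natDegree + 1), algebraMap F F1 (f.coeff i) * (ζ ^ (i : ℕ) * (s' * s)⁻¹)
        = (s' * q) * (s' * s)⁻¹ := by
      rw [← hf3, aeval_eq_sum_range, Finset.sum_mul, ← Fin.sum_univ_eq_sum_range
        (fun i => f.coeff i • ζ ^ i * (s' * s)⁻¹)]
      refine Finset.sum_congr rfl fun i _ => ?_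
      rw [Algebra.smul_def, mul_assoc]
    rw [e]
    field_simp

end Pool.Agent.H893.DD
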