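import Pool.Agent.H893.DD.Stm

/-!
# Project DD, job coord: a parameter of `Q1` whose power descends to `Q0` descends itself
-/

set_option autoImplicit false
set_option linter.unusedVariables false
set_option linter.unusedSectionVars false

universe u

namespace Pool.Agent.H893.DD

open Pool.Agent.W418.LU2 IsLocalRing Polynomial
open Pool.Agent.H176.DT (Mod SU PP St)

namespace Pcoord

variable {F F1 : Type u} [Field F] [Field F1] [Algebra F F1]

theorem map_mem {V : ValuationSubring F1} {ζ : F1} {B : Subring F} {z : F} (hz : z ∈ Q0 V B) :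
    algebraMap F F1 z ∈ Q1 V ζ B := by
  obtain ⟨a, ha, b, hb, hb0, hbV, rfl⟩ := hz
  have hc : ∀ t ∈ B, algebraMap F F1 t ∈
      Subring.closure ((B.map (algebraMap F F1) : Set F1) ∪ {ζ}) := fun t ht =>
    Subring.subset_closure (Or.inl ⟨t, ht, rfl⟩)
  refine ⟨algebraMap F F1 a, hc a ha, algebraMap F F1 b, hc b hb, ?_, ?_, ?_⟩
  · exact (_root_.map_ne_zero _).2 hb0
  · have h1 : algebraMap F F1 b⁻¹ ∈ V := hbV
    rw [map_inv₀] at h1
    exact h1
  · rw [map_mul, map_inv₀]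

theorem desc {V : ValuationSubring F1} {ζ : F1} {h : F[X]} {B : Subring F} (hE : Et V ζ h B)
    {z : F} (hz : algebraMap F F1 z ∈ Q1 V ζ B) : z ∈ Q0 V B := by
  let inc : Q0 V B →+* Q1 V ζ B :=
    ((algebraMap F F1).comp (Q0 V B).subtype).codRestrict (Q1 V ζ B) fun z => map_mem z.2
  exact (Pool.Agent.H176.DT.p_flat V ζ B h hE.BV hE.monic hE.coeff hE.root hE.der hE.min _ _ rfl
    rfl inc (fun _ => rfl)).1 z hz

/-- powers of a prime element -/
theorem pow_dvd {E : Type u} [Field E] {P : Subring E} {x : E} (hx0 : x ≠ 0)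
    (hp : ∀ a ∈ P, ∀ b ∈ P, Dv P x (a * b) → Dv P x a ∨ Dv P x b) {a : E} (ha : a ∈ P)
    (hna : ¬ Dv P x a) (hxP : x ∈ P) (e : ℕ) : ∀ c ∈ P, Dv P (x ^ e) (c * a) → Dv P (x ^ e) c := by
  induction e with
  | zero =>
    intro c hc _
    exact ⟨c, hc, by rw [pow_zero, mul_one]⟩
  | succ e ih =>
    intro c hc h
    obtain ⟨w, hw, hcw⟩ := h
    have h1 : Dv P x (c * a) := ⟨w * x ^ e, P.mul_mem hw (P.pow_mem hxP e), by
      rw [hcw, pow_succ, mul_assoc]⟩
    rcases hp c hc a ha h1 with h2 | h2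
    · obtain ⟨v, hv, rfl⟩ := h2
      have h3 : Dv P (x ^ e) (v * a) := ⟨w, hw, by
        apply mul_right_cancel₀ hx0
        rw [mul_assoc, mul_comm a x, ← mul_assoc, hcw, pow_succ, mul_assoc]⟩
      obtain ⟨t, ht, rfl⟩ := ih v hv h3
      exact ⟨t, ht, by rw [pow_succ, mul_assoc]⟩
    · exact absurd h2 hna

end Pcoord

open Pcoord

theorem t_coord (h2 : S_colon.{u}) (h3 : S_red.{u}) (h4 : S_ord.{u}) : S_coord.{u} := by
  intro F F1 _ _ _ V ζ h B hE ι _ xx hR i hxi hex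
  obtain ⟨x, hx⟩ : ∃ x, x = xx i := ⟨_, rfl⟩
  have hxP : x ∈ Q1 V ζ B := by rw [hx]; exact hR.mem i
  have hx0 : x ≠ 0 := by rw [hx]; exact hR.ne i
  obtain ⟨hprime, hord⟩ := h4 hR i hxi
  rw [← hx] at hprime hord hxi hex
  rw [← hx]
  classical
  have hmin : ∃ n : ℕ, 0 < n ∧ ∃ g : F, As (Q1 V ζ B) (algebraMap F F1 g) (x ^ n) := by
    obtain ⟨n, g, hn, hg⟩ := hex
    exact ⟨n, hn, g, hg⟩
  obtain ⟨n, ⟨hn, g, ε, hε0, hεP, hεi, hg⟩, hnmin⟩ : ∃ n : ℕ, (0 < n ∧ ∃ g : F,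
      As (Q1 V ζ B) (algebraMap F F1 g) (x ^ n)) ∧ ∀ m < n, ¬ (0 < m ∧ ∃ g : F,
      As (Q1 V ζ B) (algebraMap F F1 g) (x ^ m)) :=
    ⟨Nat.find hmin, Nat.find_spec hmin, fun m hm => Nat.find_min hmin hm⟩
  have hg0' : algebraMap F F1 g ≠ 0 := by
    rw [hg]
    exact mul_ne_zero hε0 (pow_ne_zero _ hx0)
  have hg0 : g ≠ 0 := fun h0 => hg0' (by rw [h0, map_zero])
  have hgP : g ∈ Q0 V B := desc hE (by
    rw [hg]
    exact (Q1 V ζ B).mul_mem hεP ((Q1 V ζ B).pow_mem hxP n))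
  -- divisibility by `g`
  have hdiv : ∀ (a : F) (a' : F1) (α : ℕ), a' ∈ Q1 V ζ B → n ≤ α →
      algebraMap F F1 a = a' * x ^ α → Dv (Q0 V B) g a := by
    intro a a' α ha' hα ha
    refine ⟨a * g⁻¹, desc hE ?_, by field_simp⟩
    rw [map_mul, map_inv₀, ha, hg]
    have h5 : a' * x ^ α * (ε * x ^ n)⁻¹ = a' * ε⁻¹ * x ^ (α - n) := by
      obtain ⟨k, rfl⟩ := Nat.exists_eq_add_of_le hα
      rw [Nat.add_sub_cancel_left, pow_add]
      field_simp
    rw [h5]
    exact (Q1 V ζ B).mul_mem ((Q1 V ζ B).mul_mem ha' hεi) ((Q1 V ζ B).pow_mem hxP _)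
  -- `g` is prime
  have hgprime : ∀ a ∈ Q0 V B, ∀ b ∈ Q0 V B, Dv (Q0 V B) g (a * b) →
      Dv (Q0 V B) g a ∨ Dv (Q0 V B) g b := by
    intro a ha b hb hab
    by_cases ha0 : a = 0
    · exact Or.inl ⟨0, (Q0 V B).zero_mem, by rw [ha0, zero_mul]⟩
    by_cases hb0 : b = 0
    · exact Or.inr ⟨0, (Q0 V B).zero_mem, by rw [hb0, zero_mul]⟩
    obtain ⟨α, a', ha', haa, hna⟩ := hord _ (map_mem (ζ := ζ) ha) ((_root_.map_ne_zero _).2 ha0)
    obtain ⟨β, b', hb', hbb, hnb⟩ := hord _ (map_mem (ζ := ζ) hb) ((_root_.map_ne_zero _).2 hb0)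
    by_cases hαn : n ≤ α
    · exact Or.inl (hdiv a a' α ha' hαn haa)
    have hαβ : n ≤ α + β := by
      by_contra hlt
      obtain ⟨w, hw, habw⟩ := hab
      have h5 : algebraMap F F1 w * ε * x ^ n = a' * b' * x ^ (α + β) := by
        have := congrArg (algebraMap F F1) habw
        rw [map_mul, map_mul, haa, hbb, hg] at this
        rw [pow_add]
        linear_combination -this
      have h6 : a' * b' = algebraMap F F1 w * ε * x ^ (n - (α + β) - 1) * x := by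
        apply mul_right_cancel₀ (pow_ne_zero (α + β) hx0)
        rw [← h5, mul_assoc _ (x ^ _) x, ← pow_succ, mul_assoc _ (x ^ _) (x ^ _), ← pow_add]
        congr 2
        omega
      have h7 : Dv (Q1 V ζ B) x (a' * b') := ⟨_, (Q1 V ζ B).mul_mem ((Q1 V ζ B).mul_mem
        (map_mem hw) hεP) ((Q1 V ζ B).pow_mem hxP _), h6⟩
      rcases hprime _ ha' _ hb' h7 with h8 | h8
      · exact hna h8
      · exact hnb h8
    right
    -- the colon ideal
    have he : 0 < n - α := by omega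
    have hy : x ^ (n - α) ∈ Q1 V ζ B := (Q1 V ζ B).pow_mem hxP _
    obtain ⟨m, c, r, hc, hcd, hr, hyc⟩ := h2 V ζ h B hE g a hgP ha (x ^ (n - α)) hy
      ⟨a' * ε⁻¹, (Q1 V ζ B).mul_mem ha' hεi, by
        rw [haa, hg]
        have h5 : x ^ (n - α) * (a' * x ^ α) = a' * x ^ (n - α + α) := by
          rw [pow_add]; ring
        rw [h5, Nat.sub_add_cancel (by omega)]
        field_simp⟩
    have hcx : ∀ j, Dv (Q1 V ζ B) (x ^ (n - α)) (algebraMap F F1 (c j)) := by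
      intro j
      obtain ⟨w, hw, hcw⟩ := hcd j
      refine pow_dvd hx0 hprime ha' hna hxP (n - α) _ (map_mem (hc j))
        ⟨algebraMap F F1 w * ε, (Q1 V ζ B).mul_mem (map_mem hw) hεP, ?_⟩
      apply mul_right_cancel₀ (pow_ne_zero α hx0)
      have := congrArg (algebraMap F F1) hcw
      rw [map_mul, map_mul, haa, hg] at this
      rw [mul_assoc _ (x ^ _) (x ^ _), ← pow_add, Nat.sub_add_cancel (by omega)]
      linear_combination this
    choose v hv hcv using hcx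
    have hone : ∑ j, v j * r j = 1 := by
      apply mul_right_cancel₀ (pow_ne_zero (n - α) hx0)
      rw [one_mul]
      conv_rhs => rw [hyc]
      rw [Finset.sum_mul]
      refine Finset.sum_congr rfl fun j _ => ?_
      rw [hcv j]
      ring
    -- some `v j` is a unit
    have hloc : IsLocalRing (Q1 V ζ B) := hR.reg.toIsLocalRing
    obtain ⟨j, hj⟩ : ∃ j, IsUnit (⟨v j, hv j⟩ : Q1 V ζ B) := by
      by_contra hno
      have h5 : (∑ j, (⟨v j, hv j⟩ : Q1 V ζ B) * ⟨r j, hr j⟩) ∈ maximalIdeal (Q1 V ζ B) :=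
        Ideal.sum_mem _ fun j _ => Ideal.mul_mem_right _ _ ((mem_maximalIdeal _).2 (fun hu => hno ⟨j, hu⟩))
      have h6 : (∑ j, (⟨v j, hv j⟩ : Q1 V ζ B) * ⟨r j, hr j⟩) = 1 := by
        apply Subtype.ext
        have h9 : (((∑ j, (⟨v j, hv j⟩ : Q1 V ζ B) * ⟨r j, hr j⟩) : Q1 V ζ B) : F1) =
            ∑ j, v j * r j := by
          push_cast
          rfl
        rw [h9, hone]
        rfl
      rw [h6] at h5
      exact (Ideal.ne_top_iff_one _).1 (maximalIdeal.isMaximal _).ne_top h5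
    obtain ⟨h5, h6⟩ := (hR.isUnit _).1 hj
    have h7 : n - α = n := by
      by_contra hne
      refine hnmin (n - α) (by omega) ⟨he, c j, v j, h5, hv j, hR.inv _ (hv j) h5 h6, ?_⟩
      exact hcv j
    have h8 : α = 0 := by omega
    exact hdiv b b' β hb' (by omega) hbb
  -- conclusion
  obtain ⟨w, hw, hxw⟩ := h3 V ζ h B hE g hgP hg0 hgprime x hxP n
    ⟨ε⁻¹, hεi, by rw [hg]; field_simp⟩
  have hn1 : n = 1 := by
    by_contra hne
    apply hxi
    have h5 : x⁻¹ = w * ε * x ^ (n - 2) := by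
      apply mul_right_cancel₀ (pow_ne_zero 2 hx0)
      rw [mul_assoc _ (x ^ _) (x ^ _), ← pow_add, Nat.sub_add_cancel (by omega)]
      rw [hg] at hxw
      rw [mul_assoc, ← hxw]
      field_simp
    rw [h5]
    exact hR.PA ((Q1 V ζ B).mul_mem ((Q1 V ζ B).mul_mem hw hεP) ((Q1 V ζ B).pow_mem hxP _))
  rw [hn1, pow_one] at hg
  exact ⟨g, ε, hε0, hεP, hεi, hg⟩

end Pool.Agent.H893.DD
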