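import Pool.Agent.H893.DD.Stm

/-!
# Project DD (helper893): task ext (helper120)

An immediate extension of rank one which contains a root of a separable polynomial over a trivially
valued subfield.  The Newton sequence `x n` converges in the completion; the value of a polynomial
`f` is the limit of the values of `f (x n)`.
-/

set_option autoImplicit false
set_option linter.unusedVariables false

universe u

namespace Pool.Agent.H893.DD.Pext

open Polynomial Filter Topology
open scoped NNReal

section

variable {k K : Type u} [Field k] [Field K] [Algebra k K] (v : Valuation K ℝ≥0)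

lemma le_one_coe (hk : ∀ c : k, c ≠ 0 → v (algebraMap k K c) = 1) (c : k) :
    v (algebraMap k K c) ≤ 1 := by
  by_cases h : c = 0
  · rw [h, map_zero, map_zero]
    exact zero_le_one
  · exact (hk c h).le

/-- the base field in the valuation ring -/
noncomputable def phi (hk : ∀ c : k, c ≠ 0 → v (algebraMap k K c) = 1) : k →+* v.integer :=
  (algebraMap k K).codRestrict v.integer (fun c => le_one_coe v hk c)

lemma coe_eval (hk : ∀ c : k, c ≠ 0 → v (algebraMap k K c) = 1) (m : k[X]) (x : v.integer) :
    ((eval x (m.map (phi v hk)) : v.integer) : K) = aeval (x : K) m := by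
  rw [eval_map, aeval_def]
  have h := hom_eval₂ m (phi v hk) (v.integer.subtype) x
  exact h

/-- one Newton step -/
lemma step (hk : ∀ c : k, c ≠ 0 → v (algebraMap k K c) = 1) {m : k[X]} (hs : m.Separable)
    (x : v.integer) (hx : v (aeval (x : K) m) < 1) :
    ∃ y : v.integer, v ((y : K) - x) ≤ v (aeval (x : K) m) ∧
      v (aeval (y : K) m) ≤ v (aeval (x : K) m) ^ 2 := by
  set M := m.map (phi v hk) with hM
  have hder : derivative M = (derivative m).map (phi v hk) := by rw [hM, derivative_map]
  obtain ⟨p, q, hpq⟩ := hs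
  have h1 : v (aeval (x : K) (derivative m)) = 1 := by
    have h2 : aeval (x : K) p * aeval (x : K) m + aeval (x : K) q * aeval (x : K) (derivative m) =
        1 := by
      rw [← map_mul, ← map_mul, ← map_add, hpq, map_one]
    have hle : ∀ f : k[X], v (aeval (x : K) f) ≤ 1 := by
      intro f
      rw [← coe_eval v hk f x]
      exact (eval x (f.map (phi v hk))).2
    have h3 : v (aeval (x : K) p * aeval (x : K) m) < 1 := by
      rw [map_mul]
      calc v (aeval (x : K) p) * v (aeval (x : K) m) ≤ 1 * v (aeval (x : K) m) :=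
            mul_le_mul_left (hle p) _
        _ < 1 := by rw [one_mul]; exact hx
    have h4 : v (aeval (x : K) q * aeval (x : K) (derivative m)) = 1 := by
      have h5 : aeval (x : K) q * aeval (x : K) (derivative m) =
          1 - aeval (x : K) p * aeval (x : K) m := by
        rw [← h2]; ring
      rw [h5]
      exact (v.map_one_sub_of_lt h3)
    rw [map_mul] at h4
    refine le_antisymm (hle _) ?_
    rw [← h4]
    exact mul_le_of_le_one_left' (hle q)
  have h0 : aeval (x : K) (derivative m) ≠ 0 := by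
    intro h
    rw [h, map_zero] at h1
    exact zero_ne_one h1
  -- the inverse of the derivative
  set c : v.integer := ⟨(aeval (x : K) (derivative m))⁻¹, by
    rw [Valuation.mem_integer_iff, map_inv₀, h1, inv_one]⟩ with hc
  set d : v.integer := - (eval x M * c) with hd
  have hdK : (d : K) = - (aeval (x : K) m * (aeval (x : K) (derivative m))⁻¹) := by
    rw [← coe_eval v hk m x]
    rfl
  have hdv : v (d : K) = v (aeval (x : K) m) := by
    rw [hdK, Valuation.map_neg, map_mul, map_inv₀, h1, inv_one, mul_one]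
  refine ⟨x + d, ?_, ?_⟩
  · have : ((x + d : v.integer) : K) - x = d := by
      push_cast
      ring
    rw [this, hdv]
  · obtain ⟨r, hr⟩ := M.binomExpansion x d
    rw [← coe_eval v hk m (x + d), ← hM, hr]
    have h5 : ((eval x M + eval x (derivative M) * d + r * d ^ 2 : v.integer) : K) =
        (r : K) * (d : K) ^ 2 := by
      push_cast
      have e1 : ((eval x M : v.integer) : K) = aeval (x : K) m := coe_eval v hk m x
      have e2 : ((eval x (derivative M) : v.integer) : K) = aeval (x : K) (derivative m) := by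
        rw [hder]
        exact coe_eval v hk _ x
      rw [e1, e2, hdK]
      field_simp
      ring
    rw [h5, map_mul, map_pow, hdv]
    exact mul_le_of_le_one_left' r.2

/-- the Newton sequence -/
lemma seq (hk : ∀ c : k, c ≠ 0 → v (algebraMap k K c) = 1) {m : k[X]} (hs : m.Separable)
    (a : v.integer) (ha : v (aeval (a : K) m) < 1) :
    ∃ x : ℕ → v.integer, x 0 = a ∧
      (∀ n, v ((x (n + 1) : K) - x n) ≤ v (aeval (a : K) m) ^ (n + 1)) ∧
      ∀ n, v (aeval (x n : K) m) ≤ v (aeval (a : K) m) ^ (n + 1) := by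
  classical
  set δ := v (aeval (a : K) m) with hδ
  have hst : ∀ x : {x : v.integer // v (aeval (x : K) m) < 1}, ∃ y : {x : v.integer //
      v (aeval (x : K) m) < 1}, v ((y.1 : K) - x.1) ≤ v (aeval (x.1 : K) m) ∧
      v (aeval (y.1 : K) m) ≤ v (aeval (x.1 : K) m) ^ 2 := by
    rintro ⟨x, hx⟩
    obtain ⟨y, h1, h2⟩ := step v hk hs x hx
    exact ⟨⟨y, h2.trans_lt (pow_lt_one₀ zero_le hx (by norm_num))⟩, h1, h2⟩
  choose g hg1 hg2 using hst
  let X : ℕ → {x : v.integer // v (aeval (x : K) m) < 1} := fun n =>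
    Nat.rec ⟨a, ha⟩ (fun _ x => g x) n
  have hX : ∀ n, X (n + 1) = g (X n) := fun n => rfl
  have hv : ∀ n, v (aeval ((X n).1 : K) m) ≤ δ ^ (n + 1) := by
    intro n
    induction n with
    | zero => rw [zero_add, pow_one]; exact le_refl _
    | succ n ih =>
      rw [hX]
      refine (hg2 (X n)).trans ?_
      refine (pow_le_pow_left₀ zero_le ih 2).trans ?_
      rw [← pow_mul]
      exact pow_le_pow_of_le_one zero_le ha.le (by omega)
  refine ⟨fun n => (X n).1, rfl, fun n => ?_, hv⟩
  have := hg1 (X n)
  rw [← hX] at this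
  exact this.trans (hv n)

/-- differences in the Newton sequence -/
lemma seq_diff {x : ℕ → v.integer} {δ : ℝ≥0} (hδ : δ < 1)
    (hx : ∀ n, v ((x (n + 1) : K) - x n) ≤ δ ^ (n + 1)) (n j : ℕ) :
    v ((x (n + j) : K) - x n) ≤ δ ^ (n + 1) := by
  induction j with
  | zero => rw [add_zero, sub_self, map_zero]; exact zero_le
  | succ j ih =>
    have e : ((x (n + (j + 1)) : K) - x n) = ((x (n + j + 1) : K) - x (n + j)) +
        ((x (n + j) : K) - x n) := by
      rw [← add_assoc]; ring
    rw [e]
    refine (v.map_add _ _).trans (max_le ?_ ih)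
    exact (hx _).trans (pow_le_pow_of_le_one zero_le hδ.le (by omega))

/-- polynomials are Lipschitz -/
lemma lip (f : K[X]) : ∃ C : ℝ≥0, ∀ x y : v.integer,
    v (eval (y : K) f - eval (x : K) f) ≤ C * v ((y : K) - x) := by
  refine ⟨∑ i ∈ f.support, v (f.coeff i), fun x y => ?_⟩
  have e : eval (y : K) f - eval (x : K) f =
      ∑ i ∈ f.support, f.coeff i * ((y : K) ^ i - (x : K) ^ i) := by
    rw [eval_eq_sum, eval_eq_sum, Polynomial.sum, Polynomial.sum, ← Finset.sum_sub_distrib]
    exact Finset.sum_congr rfl fun i _ => by ring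
  rw [e]
  refine v.map_sum_le fun i hi => ?_
  rw [map_mul]
  have h1 : v (f.coeff i) ≤ ∑ i ∈ f.support, v (f.coeff i) :=
    Finset.single_le_sum (f := fun i => v (f.coeff i)) (fun _ _ => zero_le) hi
  have h2 : v ((y : K) ^ i - (x : K) ^ i) ≤ v ((y : K) - x) := by
    obtain ⟨c, hc⟩ := sub_dvd_pow_sub_pow y x i
    have h3 : (y : K) ^ i - (x : K) ^ i = ((y : K) - x) * c := by
      have := congrArg (fun z : v.integer => (z : K)) hc
      push_cast at this
      exact this
    rw [h3, map_mul]
    exact mul_le_of_le_one_right' c.2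
  exact mul_le_mul' h1 h2

/-- the values are Lipschitz -/
lemma vlip (x y : K) : |(v x : ℝ) - v y| ≤ (v (x - y) : ℝ) := by
  have h1 : v x ≤ v (x - y) + v y := by
    have h2 := v.map_add (x - y) y
    rw [sub_add_cancel] at h2
    exact h2.trans (max_le (le_add_of_nonneg_right zero_le) (le_add_of_nonneg_left zero_le))
  have h3 : v y ≤ v (x - y) + v x := by
    have h2 := v.map_add (y - x) x
    rw [sub_add_cancel, v.map_sub_swap] at h2
    exact h2.trans (max_le (le_add_of_nonneg_right zero_le) (le_add_of_nonneg_left zero_le))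
  have h1' : (v x : ℝ) ≤ (v (x - y) : ℝ) + v y := by exact_mod_cast h1
  have h3' : (v y : ℝ) ≤ (v (x - y) : ℝ) + v x := by exact_mod_cast h3
  rw [abs_le]
  constructor <;> linarith

/-- the values of a polynomial converge along the Newton sequence -/
lemma conv {x : ℕ → v.integer} {δ : ℝ≥0} (hδ : δ < 1)
    (hx : ∀ n, v ((x (n + 1) : K) - x n) ≤ δ ^ (n + 1)) (f : K[X]) :
    ∃ l : ℝ≥0, Tendsto (fun n => v (eval (x n : K) f)) atTop (𝓝 l) := by
  obtain ⟨C, hC⟩ := lip v f
  have hcs : CauchySeq (fun n => v (eval (x n : K) f)) := by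
    refine cauchySeq_of_le_geometric (δ : ℝ) (C * δ : ℝ) (by exact_mod_cast hδ) (fun n => ?_)
    rw [NNReal.dist_eq]
    refine (vlip v _ _).trans ?_
    rw [v.map_sub_swap]
    have h1 := (hC (x n) (x (n + 1))).trans (mul_le_mul_right (hx n) C)
    have h2 : ((v (eval (x (n + 1) : K) f - eval (x n : K) f) : ℝ≥0) : ℝ) ≤
        ((C * δ ^ (n + 1) : ℝ≥0) : ℝ) := by exact_mod_cast h1
    refine h2.trans (le_of_eq ?_)
    push_cast
    ring
  exact cauchySeq_tendsto_of_complete hcs

/-- the limit valuation on the polynomials -/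
noncomputable def W (x : ℕ → v.integer) (l : K[X] → ℝ≥0)
    (hl : ∀ f, Tendsto (fun n => v (eval (x n : K) f)) atTop (𝓝 (l f))) :
    Valuation K[X] ℝ≥0 where
  toFun := l
  map_zero' := tendsto_nhds_unique (hl 0) (by simp only [eval_zero, map_zero]; exact tendsto_const_nhds)
  map_one' := tendsto_nhds_unique (hl 1) (by simp only [eval_one, map_one]; exact tendsto_const_nhds)
  map_mul' f g := tendsto_nhds_unique (hl (f * g)) (by
    simp only [eval_mul, map_mul]
    exact (hl f).mul (hl g))
  map_add_le_max' f g := le_of_tendsto_of_tendsto' (hl (f + g)) ((hl f).max (hl g)) (fun n => by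
    rw [eval_add]
    exact v.map_add _ _)

lemma W_apply (x : ℕ → v.integer) (l : K[X] → ℝ≥0)
    (hl : ∀ f, Tendsto (fun n => v (eval (x n : K) f)) atTop (𝓝 (l f))) (f : K[X]) :
    W v x l hl f = l f := rfl

end

end Pool.Agent.H893.DD.Pext

namespace Pool.Agent.H893.DD

open Polynomial Filter Topology Pext
open scoped NNReal

theorem t_ext : S_ext.{u} := by
  intro k K _ _ _ v hk a m hm hirr hs ha hma
  let a' : v.integer := ⟨a, ha⟩
  obtain ⟨x, hx0, hx1, hx2⟩ := seq v hk hs a' hma
  have hδ : v (aeval (a' : K) m) < 1 := hma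
  set δ := v (aeval (a' : K) m) with hδdef
  have hconv := conv v hδ hx1
  choose l hl using hconv
  let w0 : Valuation K[X] ℝ≥0 := W v x l hl
  have hw0 : ∀ f, w0 f = l f := fun f => rfl
  let P : Ideal K[X] := w0.supp
  have hpow : Tendsto (fun n : ℕ => δ ^ (n + 1)) atTop (𝓝 0) :=
    (NNReal.tendsto_pow_atTop_nhds_zero_of_lt_one hδ).comp (tendsto_add_atTop_nat 1)
  have hmP : m.map (algebraMap k K) ∈ P := by
    rw [Valuation.mem_supp_iff, hw0]
    refine tendsto_nhds_unique (hl _) ?_
    refine tendsto_of_tendsto_of_tendsto_of_le_of_le tendsto_const_nhds hpow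
      (fun n => zero_le) (fun n => ?_)
    have : eval (x n : K) (m.map (algebraMap k K)) = aeval (x n : K) m := by
      rw [eval_map_algebraMap]
    simp only [this]
    exact hx2 n
  have hm0 : m.map (algebraMap k K) ≠ 0 := (hm.map _).ne_zero
  have hP : P ≠ ⊥ := by
    intro h
    rw [h, Ideal.mem_bot] at hmP
    exact hm0 hmP
  have hPp : P.IsPrime := inferInstanceAs (w0.supp).IsPrime
  have hPm : P.IsMaximal := hPp.isMaximal hP
  let _ : Field (K[X] ⧸ P) := Ideal.Quotient.field P
  have hQ : ∀ f : K[X], (w0.onQuot (le_refl P)) (Ideal.Quotient.mk P f) = l f := fun f => rfl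
  have haev : ∀ f : K[X], aeval (Ideal.Quotient.mk P X) f = Ideal.Quotient.mk P f := by
    intro f
    have h1 := Polynomial.aeval_algHom_apply (Ideal.Quotient.mkₐ K P) (X : K[X]) f
    rw [aeval_X_left_apply] at h1
    exact h1
  refine ⟨K[X] ⧸ P, inferInstance, inferInstance, inferInstance, inferInstance,
    w0.onQuot (le_refl P), Ideal.Quotient.mk P X, ?_, ?_, ?_, ?_, ?_⟩
  · have h1 := haev (m.map (algebraMap k K))
    rw [aeval_map_algebraMap] at h1
    rw [h1]
    exact Ideal.Quotient.eq_zero_iff_mem.2 hmP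
  · have h1 : Ideal.Quotient.mk P X - algebraMap K (K[X] ⧸ P) a = Ideal.Quotient.mk P (X - C a) := rfl
    rw [h1, hQ]
    refine lt_of_le_of_lt (le_of_tendsto' (hl (X - C a)) (fun n => ?_)) hδ
    have h2 := seq_diff v hδ hx1 0 n
    rw [zero_add, zero_add, hx0, pow_one] at h2
    simp only [eval_sub, eval_X, eval_C]
    exact h2
  · intro z
    have h1 : algebraMap K (K[X] ⧸ P) z = Ideal.Quotient.mk P (C z) := rfl
    rw [h1, hQ]
    refine tendsto_nhds_unique (hl (C z)) ?_
    simp only [eval_C]
    exact tendsto_const_nhds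
  · intro z
    obtain ⟨f, rfl⟩ := Ideal.Quotient.mk_surjective z
    exact ⟨f, haev f⟩
  · intro z hz
    obtain ⟨f, rfl⟩ := Ideal.Quotient.mk_surjective z
    have hlf : l f ≠ 0 := by
      intro h
      apply hz
      rw [Ideal.Quotient.eq_zero_iff_mem]
      exact (Valuation.mem_supp_iff _ _).2 h
    obtain ⟨C', hC'⟩ := lip v f
    -- choose `n` with `C' * δ ^ (n + 1) < l f`
    have h1 : Tendsto (fun n : ℕ => C' * δ ^ (n + 1)) atTop (𝓝 0) := by
      have := hpow.const_mul C'
      rwa [mul_zero] at this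
    obtain ⟨n, hn⟩ := ((tendsto_order.1 h1).2 (l f) (pos_iff_ne_zero.2 hlf)).exists
    refine ⟨eval (x n : K) f, ?_⟩
    have h2 : Ideal.Quotient.mk P f - algebraMap K (K[X] ⧸ P) (eval (x n : K) f) =
      Ideal.Quotient.mk P (f - C (eval (x n : K) f)) := rfl
    rw [h2, hQ, hQ]
    refine lt_of_le_of_lt ?_ hn
    refine le_of_tendsto (hl (f - C (eval (x n : K) f))) ?_
    filter_upwards [eventually_ge_atTop n] with j hj
    obtain ⟨i, rfl⟩ := Nat.exists_eq_add_of_le hj
    simp only [eval_sub, eval_C]
    exact (hC' (x n) (x (n + i))).trans (mul_le_mul_right (seq_diff v hδ hx1 n i) C')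

end Pool.Agent.H893.DD
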