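import Pool.Agent.H893.DD.Stm

/-!
# Parameters are prime elements, and the orders of nonzero elements are finite
-/

set_option autoImplicit false
set_option linter.unusedVariables false

universe u

namespace Pool.Agent.H893.DD

open Pool.Agent.W418.LU2 IsLocalRing

namespace Pord

variable {F : Type u} [Field F]

lemma dv_iff {P : Subring F} {a b : F} (ha : a ∈ P) (hb : b ∈ P) :
    Dv P a b ↔ (⟨a, ha⟩ : P) ∣ ⟨b, hb⟩ := by
  constructor
  · rintro ⟨w, hw, h⟩
    exact ⟨⟨w, hw⟩, Subtype.ext (h.trans (mul_comm w a))⟩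
  · rintro ⟨w, h⟩
    exact ⟨w, w.2, (congrArg Subtype.val h).trans (mul_comm a (w : F))⟩

end Pord

open Pord in
theorem t_ord : S_ord.{u} := by
  intro F _ A P ι _ x h i hi
  classical
  have hreg := h.reg
  have h2 : (⟨x i, h.mem i⟩ : P) ∈ maximalIdeal P := by
    rw [h.mem_max]
    exact fun h3 => hi h3.2
  have hInd : Ind (fun j : {j : ι // (⟨x j, h.mem j⟩ : P) ∈ maximalIdeal P} =>
      (⟨x j, h.mem j⟩ : P)) :=
    h.ind.ind (Subtype.val : {j : ι // (⟨x j, h.mem j⟩ : P) ∈ maximalIdeal P} → ι)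
      Subtype.val_injective fun i => i.2
  have hpr : Prime (⟨x i, h.mem i⟩ : P) := hInd.prime ⟨i, h2⟩
  constructor
  · intro a ha b hb hab
    rw [dv_iff (h.mem i) (P.mul_mem ha hb)] at hab
    rw [dv_iff (h.mem i) ha, dv_iff (h.mem i) hb]
    exact hpr.dvd_or_dvd (a := ⟨a, ha⟩) (b := ⟨b, hb⟩) hab
  · intro a ha ha0
    have hne : (⟨a, ha⟩ : P) ≠ 0 := fun h0 => ha0 (congrArg Subtype.val h0)
    have hfm : FiniteMultiplicity (⟨x i, h.mem i⟩ : P) ⟨a, ha⟩ :=
      FiniteMultiplicity.of_not_isUnit hpr.not_isUnit hne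
    obtain ⟨c, hc, hc'⟩ := hfm.exists_eq_pow_mul_and_not_dvd
    refine ⟨multiplicity (⟨x i, h.mem i⟩ : P) ⟨a, ha⟩, c, c.2, ?_, ?_⟩
    · have h3 := congrArg Subtype.val hc
      rw [mul_comm]
      exact h3
    · rw [dv_iff (h.mem i) c.2]
      exact hc'

end Pool.Agent.H893.DD
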