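import Pool.Agent.H893.DD.Stm

/-! # Reduced fibres of the standard etale extension -/

set_option autoImplicit false

universe u

namespace Pool.Agent.H893.DD

open Pool.Agent.W418.LU2 IsLocalRing Polynomial

namespace Pred

variable {F F1 : Type u} [Field F] [Field F1] [Algebra F F1]

/-- evaluation at `ζ` of the polynomials over `P` -/
noncomputable def ev (P : Subring F) (ζ : F1) : P[X] →+* F1 :=
  eval₂RingHom ((algebraMap F F1).comp P.subtype) ζ

lemma ev_eq (P : Subring F) (ζ : F1) (p : P[X]) : ev P ζ p = aeval ζ (p.map P.subtype) := by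
  unfold ev
  rw [coe_eval₂RingHom, aeval_def, eval₂_map]

lemma ev_C (P : Subring F) (ζ : F1) (a : P) : ev P ζ (C a) = algebraMap F F1 a := by
  unfold ev
  rw [coe_eval₂RingHom, eval₂_C]
  rfl

lemma ev_X (P : Subring F) (ζ : F1) : ev P ζ X = ζ := by
  unfold ev
  rw [coe_eval₂RingHom, eval₂_X]

lemma map_mem_Q1 (V : ValuationSubring F1) (ζ : F1) (B : Subring F) {a : F} (ha : a ∈ Q0 V B) :
    algebraMap F F1 a ∈ Q1 V ζ B := by
  obtain ⟨b, hb, c, hc, hc0, hcV, rfl⟩ := ha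
  refine ⟨algebraMap F F1 b, Subring.subset_closure (Or.inl ⟨b, hb, rfl⟩), algebraMap F F1 c,
    Subring.subset_closure (Or.inl ⟨c, hc, rfl⟩), (_root_.map_ne_zero _).2 hc0, ?_, ?_⟩
  · rw [← map_inv₀]
    exact hcV
  · rw [map_mul, map_inv₀]

lemma zeta_mem (V : ValuationSubring F1) (ζ : F1) (B : Subring F) : ζ ∈ Q1 V ζ B :=
  le_lo _ _ (Subring.subset_closure (Or.inr rfl))

lemma ev_mem (V : ValuationSubring F1) (ζ : F1) (B : Subring F) (p : (Q0 V B)[X]) :
    ev (Q0 V B) ζ p ∈ Q1 V ζ B := by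
  unfold ev
  rw [coe_eval₂RingHom, eval₂_eq_sum_range]
  refine Subring.sum_mem _ fun i _ => Subring.mul_mem _ ?_ (Subring.pow_mem _ (zeta_mem V ζ B) _)
  exact map_mem_Q1 V ζ B (p.coeff i).2

/-- the elements of `B[ζ]` are values of polynomials -/
lemma exists_ev (V : ValuationSubring F1) (ζ : F1) (B : Subring F) {z : F1}
    (hz : z ∈ Subring.closure ((B.map (algebraMap F F1) : Set F1) ∪ {ζ})) :
    ∃ p : (Q0 V B)[X], ev (Q0 V B) ζ p = z := by
  have h1 : Subring.closure ((B.map (algebraMap F F1) : Set F1) ∪ {ζ}) ≤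
      (ev (Q0 V B) ζ).range := by
    rw [Subring.closure_le]
    rintro y (⟨b, hb, rfl⟩ | hy)
    · exact ⟨C ⟨b, le_lo _ _ hb⟩, by rw [ev_C]⟩
    · rw [Set.mem_singleton_iff] at hy
      subst hy
      exact ⟨X, ev_X _ _⟩
  exact h1 hz

section

variable {V : ValuationSubring F1} {ζ : F1} {h : F[X]} {B : Subring F} (hE : Et V ζ h B)

include hE

lemma coeff_mem (i : ℕ) : h.coeff i ∈ Q0 V B := le_lo _ _ (hE.coeff i)

lemma coeffs_sub : (↑h.coeffs : Set F) ⊆ (Q0 V B : Set F) := by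
  intro c hc
  obtain ⟨i, _, rfl⟩ := Polynomial.mem_coeffs_iff.1 hc
  exact coeff_mem hE i

/-- the lift of `h` -/
lemma exists_lift : ∃ h0 : (Q0 V B)[X], h0.map (Q0 V B).subtype = h ∧ h0.Monic := by
  refine ⟨h.toSubring (Q0 V B) (coeffs_sub hE), ?_, ?_⟩
  · exact Polynomial.map_toSubring _ _ _
  · rw [Polynomial.monic_toSubring]
    exact hE.monic

lemma closure_le_V :
    Subring.closure ((B.map (algebraMap F F1) : Set F1) ∪ {ζ}) ≤ V.toSubring := by
  have hζ : ζ ∈ V := by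
    -- `ζ` is integral over `B`
    have h1 : IsIntegral V.toSubring ζ := by
      have h2 : ∀ i, algebraMap F F1 (h.coeff i) ∈ V.toSubring := fun i => hE.BV (hE.coeff i)
      have hco : (↑(h.map (algebraMap F F1)).coeffs : Set F1) ⊆ (V.toSubring : Set F1) := by
        intro c hc
        obtain ⟨i, _, rfl⟩ := Polynomial.mem_coeffs_iff.1 hc
        rw [Polynomial.coeff_map]
        exact h2 i
      refine ⟨(h.map (algebraMap F F1)).toSubring V.toSubring hco, ?_, ?_⟩
      · rw [Polynomial.monic_toSubring]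
        exact hE.monic.map _
      · have h3 := hE.root
        rw [aeval_def, ← Polynomial.eval_map] at h3
        rw [← h3, ← Polynomial.eval_map]
        congr 1
        exact Polynomial.map_toSubring _ _ _
    have h2 : IsIntegral V ζ := h1
    obtain ⟨y, hy⟩ := IsIntegrallyClosed.isIntegral_iff.1 h2
    rw [← hy]
    exact y.2
  rw [Subring.closure_le]
  rintro y (⟨b, hb, rfl⟩ | hy)
  · exact hE.BV hb
  · rw [Set.mem_singleton_iff] at hy
    subst hy
    exact hζ

end

end Pred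

open Pool.Agent.H893.DD.Pred in
theorem t_red (h1 : S_alg1.{u}) : S_red.{u} := by
  intro F F1 _ _ _ V ζ h B hE u hu hu0 hprime q hq n hqn
  classical
  have hBV := closure_le_V hE
  by_cases hunit : u⁻¹ ∈ (V.comap (algebraMap F F1)).toSubring
  · -- `u` is a unit
    have h2 : u⁻¹ ∈ Q0 V B := inv_mem_lo hE.BV hu hu0 hunit
    refine ⟨q * algebraMap F F1 u⁻¹, Subring.mul_mem _ hq (map_mem_Q1 V ζ B h2), ?_⟩
    rw [mul_assoc, ← map_mul, inv_mul_cancel₀ hu0, map_one, mul_one]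
  -- the quotient ring
  set P : Subring F := Q0 V B with hP
  let u0 : P := ⟨u, hu⟩
  have hIp : (Ideal.span {u0} : Ideal P).IsPrime := by
    have hne : u0 ≠ 0 := fun h => hu0 (congrArg Subtype.val h)
    rw [Ideal.span_singleton_prime hne]
    refine ⟨hne, ?_, ?_⟩
    · intro hun
      exact hunit ((isUnit_lo_iff hE.BV u0).1 hun).2
    · intro a b hab
      obtain ⟨c, hc⟩ := hab
      have h2 : Dv P u ((a : F) * b) := ⟨c, c.2, by
        have := congrArg Subtype.val hc
        simp only [Subring.coe_mul] at this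
        rw [this, mul_comm]⟩
      rcases hprime a a.2 b b.2 h2 with ⟨w, hw, hw2⟩ | ⟨w, hw, hw2⟩
      · exact Or.inl ⟨⟨w, hw⟩, Subtype.ext (by simp only [Subring.coe_mul]; rw [hw2, mul_comm])⟩
      · exact Or.inr ⟨⟨w, hw⟩, Subtype.ext (by simp only [Subring.coe_mul]; rw [hw2, mul_comm])⟩
  let R := P ⧸ (Ideal.span {u0} : Ideal P)
  have : IsDomain R := Ideal.Quotient.isDomain _
  let κ := FractionRing R
  let φ : P →+* κ := (algebraMap R κ).comp (Ideal.Quotient.mk _)
  have hker : ∀ a : P, φ a = 0 ↔ u0 ∣ a := by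
    intro a
    rw [← Ideal.mem_span_singleton, ← Ideal.Quotient.eq_zero_iff_mem]
    constructor
    · intro h2
      exact (IsFractionRing.injective R κ) (by rw [map_zero]; exact h2)
    · intro h2
      show algebraMap R κ (Ideal.Quotient.mk _ a) = 0
      rw [h2, map_zero]
  -- write everything with polynomials
  obtain ⟨q1, hq1, s1, hs1, hs10, hs1V, rfl⟩ := hq
  obtain ⟨w, ⟨w1, hw1, t1, ht1, ht10, ht1V, rfl⟩, hw⟩ := hqn
  obtain ⟨Qp, hQp⟩ := exists_ev V ζ B hq1
  obtain ⟨Sp, hSp⟩ := exists_ev V ζ B ht1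
  obtain ⟨Wp, hWp⟩ := exists_ev V ζ B (Subring.mul_mem _ hw1 (Subring.pow_mem _ hs1 n))
  obtain ⟨h0, hh0, hmon⟩ := exists_lift hE
  have hev0 : ev P ζ h0 = 0 := by rw [ev_eq, hh0, hE.root]
  have hzero : ∀ p : P[X], ev P ζ p = 0 → h0 ∣ p := by
    intro p hp
    rw [← Polynomial.modByMonic_eq_zero_iff_dvd hmon]
    have h2 : ev P ζ (p %ₘ h0) = 0 := by
      have h3 := Polynomial.modByMonic_add_div p h0
      have h4 := congrArg (ev P ζ) h3
      rw [map_add, map_mul, hev0, zero_mul, add_zero, hp] at h4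
      exact h4
    have h3 : (p %ₘ h0).map P.subtype = 0 := by
      refine hE.min _ ?_ ?_
      · rw [← hh0, Polynomial.map_modByMonic _ hmon]
        exact Polynomial.degree_modByMonic_lt _ (hmon.map _)
      · rw [← ev_eq]
        exact h2
    exact (Polynomial.map_eq_zero_iff P.subtype_injective).1 h3
  -- the relation
  have hrel : ev P ζ (Sp * Qp ^ n - C u0 * Wp) = 0 := by
    rw [map_sub, map_mul, map_mul, map_pow, ev_C, hQp, hSp, hWp]
    have h2 : (q1 * s1⁻¹) ^ n = w1 * t1⁻¹ * algebraMap F F1 u := hw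
    rw [mul_pow, inv_pow] at h2
    have h3 : s1 ^ n ≠ 0 := pow_ne_zero n hs10
    have h4 : q1 ^ n = w1 * t1⁻¹ * algebraMap F F1 u * s1 ^ n := by
      rw [← h2, mul_assoc, inv_mul_cancel₀ h3, mul_one]
    rw [h4]
    show t1 * (w1 * t1⁻¹ * algebraMap F F1 u * s1 ^ n) - algebraMap F F1 u * (w1 * s1 ^ n) = 0
    field_simp
    ring
  have hdvd : h0.map φ ∣ Sp.map φ * Qp.map φ ^ n := by
    have h2 := Polynomial.map_dvd φ (hzero _ hrel)
    rw [Polynomial.map_sub, Polynomial.map_mul, Polynomial.map_mul, Polynomial.map_pow,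
      Polynomial.map_C, (hker u0).2 dvd_rfl, C_0, zero_mul, sub_zero] at h2
    exact h2
  have hdvd2 := h1 (h0.map φ) (Sp.map φ) (Qp.map φ) n hdvd
  set T : P[X] := derivative h0 ^ 2 * Sp * Qp with hT
  have hT0 : (T %ₘ h0).map φ = 0 := by
    rw [Polynomial.map_modByMonic _ hmon, Polynomial.modByMonic_eq_zero_iff_dvd (hmon.map φ)]
    rw [hT, Polynomial.map_mul, Polynomial.map_mul, Polynomial.map_pow, ← Polynomial.derivative_map]
    exact hdvd2
  have hTu : C u0 ∣ T %ₘ h0 := by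
    rw [Polynomial.C_dvd_iff_dvd_coeff]
    intro i
    rw [← hker, ← Polynomial.coeff_map, hT0, Polynomial.coeff_zero]
  obtain ⟨W', hW'⟩ := hTu
  have hTev : ev P ζ T = algebraMap F F1 u * ev P ζ W' := by
    have h3 := Polynomial.modByMonic_add_div T h0
    have h4 := congrArg (ev P ζ) h3
    rw [map_add, map_mul, hev0, zero_mul, add_zero, hW', map_mul, ev_C] at h4
    exact h4.symm
  -- the derivative
  have hder : ev P ζ (derivative h0) = aeval ζ (derivative h) := by
    rw [ev_eq, ← Polynomial.derivative_map, hh0]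
  set D : F1 := aeval ζ (derivative h) with hD
  have hD0 : D ≠ 0 := by
    intro h2
    have h3 := hE.der
    rw [← hD, h2, map_zero] at h3
    exact zero_ne_one h3
  have hDV : D⁻¹ ∈ V := by
    rw [← ValuationSubring.valuation_le_one_iff, map_inv₀, hD, hE.der, inv_one]
  have hDQ : D⁻¹ ∈ Q1 V ζ B := by
    refine inv_mem_lo hBV ?_ hD0 hDV
    rw [← hder]
    exact ev_mem V ζ B _
  have htQ : t1⁻¹ ∈ Q1 V ζ B := inv_mem_lo hBV (le_lo _ _ ht1) ht10 ht1V
  have hsQ : s1⁻¹ ∈ Q1 V ζ B := inv_mem_lo hBV (le_lo _ _ hs1) hs10 hs1V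
  have hkey : D ^ 2 * t1 * q1 = algebraMap F F1 u * ev P ζ W' := by
    rw [← hTev, hT, map_mul, map_mul, map_pow, hder, hSp, hQp]
  refine ⟨ev P ζ W' * (D⁻¹ ^ 2 * t1⁻¹ * s1⁻¹), ?_, ?_⟩
  · exact Subring.mul_mem _ (ev_mem V ζ B W') (Subring.mul_mem _ (Subring.mul_mem _
      (Subring.pow_mem _ hDQ 2) htQ) hsQ)
  · have h2 : q1 = algebraMap F F1 u * ev P ζ W' * (D⁻¹ ^ 2 * t1⁻¹) := by
      rw [← hkey]
      field_simp
    rw [h2]
    ring

end Pool.Agent.H893.DD
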