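import Pool.Agent.H893.N15
import Pool.Agent.H893.DD.Asm2
import Pool.Agent.H893.DD.P_alg1
import Pool.Agent.H893.DD.P_colon
import Pool.Agent.H893.DD.P_red
import Pool.Agent.H893.DD.P_ord
import Pool.Agent.H893.DD.P_coord
import Pool.Agent.H893.DD.P_pos
import Pool.Agent.H893.DD.P_cmp
import Pool.Agent.H893.DD.P_ext
import Pool.Agent.H893.DD.P_Lk

/-!
# Strong uniformization if the residue field is a finite separable extension of the ground field
-/

set_option autoImplicit false
set_option linter.unusedVariables false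
set_option linter.unusedSectionVars false

universe u

namespace Pool.Agent.H893.DD

open Pool.Agent.W418.LU2 IsLocalRing Polynomial
open Pool.Agent.H176.DT (Mod SU PP St)
open scoped NNReal

/-- Models from generators of the field. -/
lemma mod_of_clos {F : Type u} [Field F] {V : ValuationSubring F} {A : Subring F}
    (hA : A ≤ V.toSubring) (h : ∀ z : F, z ∈ Subfield.closure (A : Set F)) : Mod V A := by
  refine ⟨hA, fun z => ?_⟩
  obtain ⟨a, ha, b, hb, rfl⟩ := Subfield.mem_closure_iff.1 (h z)
  rw [Subring.closure_eq] at ha hb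
  by_cases hb0 : b = 0
  · exact ⟨0, A.zero_mem, 1, A.one_mem, one_ne_zero, by rw [hb0, div_zero, zero_mul]⟩
  · exact ⟨a, ha, b, hb, hb0, div_eq_mul_inv _ _⟩

section rat

variable {K : Type u} [Field K] {v : Valuation K ℝ≥0}

lemma val_lt_iff {z z' : K} : v.valuationSubring.valuation z < v.valuationSubring.valuation z' ↔
    v z < v z' :=
  (Valuation.isEquiv_valuation_valuationSubring v).lt_iff_lt.symm

lemma val_lt_one_iff {z : K} : v.valuationSubring.valuation z < 1 ↔ v z < 1 :=
  (Valuation.isEquiv_valuation_valuationSubring v).lt_one_iff_lt_one.symm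

lemma val_eq_one_iff {z : K} : v.valuationSubring.valuation z = 1 ↔ v z = 1 :=
  (Valuation.isEquiv_valuation_valuationSubring v).eq_one_iff_eq_one.symm

lemma val_eq_iff {z z' : K} : v.valuationSubring.valuation z = v.valuationSubring.valuation z' ↔
    v z = v z' := by
  constructor
  · intro h
    apply le_antisymm
    · exact (Valuation.isEquiv_valuation_valuationSubring v).le_iff_le.2 h.le
    · exact (Valuation.isEquiv_valuation_valuationSubring v).le_iff_le.2 h.ge
  · intro h
    apply le_antisymm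
    · exact (Valuation.isEquiv_valuation_valuationSubring v).le_iff_le.1 h.le
    · exact (Valuation.isEquiv_valuation_valuationSubring v).le_iff_le.1 h.ge

lemma mem_vs {z : K} : z ∈ v.valuationSubring ↔ v z ≤ 1 := Iff.rfl

lemma arch (a b : K) (hb : b ≠ 0) (ha : a ∈ v.valuationSubring)
    (hai : a⁻¹ ∉ v.valuationSubring) : ∃ N : ℕ, a ^ N * b⁻¹ ∈ v.valuationSubring := by
  have ha0 : a ≠ 0 := by
    rintro rfl
    apply hai
    rw [inv_zero]
    exact zero_mem _
  have h1 : v a < 1 := by
    by_contra h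
    apply hai
    rw [mem_vs, map_inv₀]
    exact inv_le_one_of_one_le₀ (not_lt.1 h)
  have hvb : 0 < v b := zero_lt_iff.2 ((Valuation.ne_zero_iff _).2 hb)
  obtain ⟨N, hN⟩ := exists_pow_lt_of_lt_one hvb h1
  refine ⟨N, ?_⟩
  rw [mem_vs, map_mul, map_pow, map_inv₀]
  exact (mul_inv_le_iff₀ hvb).2 (by rw [one_mul]; exact hN.le)

end rat

/-- Every finitely generated field has a model. -/
lemma exists_mod {k K : Type u} [Field k] [Field K] [Algebra k K] [Algebra.EssFiniteType k K]
    (v : Valuation K ℝ≥0) (hk : ∀ c : k, c ≠ 0 → v (algebraMap k K c) = 1) :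
    ∃ S : Set K, S.Finite ∧ (∀ s ∈ S, v s ≤ 1) ∧ ∀ A : Subring K,
      (∀ c : k, algebraMap k K c ∈ A) → S ⊆ A → A ≤ v.valuationSubring.toSubring →
      Mod v.valuationSubring A := by
  classical
  obtain ⟨S0, hS0⟩ := IntermediateField.fg_top k K
  let q : K → K := fun s => if v s ≤ 1 then s else s⁻¹
  refine ⟨q '' (S0 : Set K), S0.finite_toSet.image q, ?_, ?_⟩
  · rintro _ ⟨s, -, rfl⟩
    by_cases h : v s ≤ 1
    · simp only [q, if_pos h]
      exact h
    · simp only [q, if_neg h]
      rw [map_inv₀]
      exact inv_le_one_of_one_le₀ (not_le.1 h).le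
  · intro A hkA hSA hAV
    refine mod_of_clos hAV ?_
    let F0 : IntermediateField k K :=
      (Subfield.closure (A : Set K)).toIntermediateField
        (fun c => Subfield.subset_closure (hkA c))
    have h1 : F0 = ⊤ := by
      rw [eq_top_iff, ← hS0, IntermediateField.adjoin_le_iff]
      intro s hs
      change s ∈ Subfield.closure (A : Set K)
      have h2 : q s ∈ Subfield.closure (A : Set K) := Subfield.subset_closure (hSA ⟨s, hs, rfl⟩)
      by_cases h : v s ≤ 1
      · simp only [q, if_pos h] at h2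
        exact h2
      · simp only [q, if_neg h] at h2
        have h3 := inv_mem h2
        rwa [inv_inv] at h3
    intro z
    have h2 : z ∈ F0 := by rw [h1]; trivial
    exact h2

/-- The residue field is a finite separable extension of the ground field. -/
theorem su_gen {k K : Type u} [Field k] (p : ℕ) [Fact p.Prime] [CharP k p]
    [Field K] [Algebra k K] [Algebra.EssFiniteType k K] (v : Valuation K ℝ≥0)
    (hk : ∀ c : k, c ≠ 0 → v (algebraMap k K c) = 1) (a : K) (m : k[X]) (hm : m.Monic)
    (hirr : Irreducible m) (hsep : m.Separable) (ha : v a ≤ 1) (hma : v (aeval a m) < 1)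
    (hres : ∀ x : K, v x ≤ 1 → ∃ q : k[X], v (x - aeval a q) < 1)
    (r : ℕ) (hr : 2 ≤ r) (htr : Algebra.trdeg k K = ((r + 1 : ℕ) : Cardinal))
    (x : Fin r → K) (hx0 : ∀ i, x i ≠ 0)
    (hind : ∀ m : Fin r → ℤ, ∏ i, v (x i) ^ m i = 1 → m = 0)
    (hrr : ∀ z : K, z ≠ 0 → ∃ n : ℕ, n ≠ 0 ∧ ∃ m : Fin r → ℤ, v z ^ n = ∏ i, v (x i) ^ m i) :
    ∃ U : Set K, U.Finite ∧
      Mod v.valuationSubring (Subring.closure (Set.range (algebraMap k K) ∪ U)) ∧
      SU v.valuationSubring (Subring.closure (Set.range (algebraMap k K) ∪ U)) := by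
  classical
  obtain ⟨L, _, _, _, _, w, ζ, hζm, hζa, hwv, hgen, hdens⟩ :=
    t_ext v hk a m hm hirr hsep ha hma
  obtain ⟨e1, e2, e3, e4, e5, e6⟩ := t_Lk v w hk a ζ m hm hζm ha hres hζa hwv hgen hdens
    (IntermediateField.adjoin k {ζ}) rfl
  set k' := IntermediateField.adjoin k {ζ} with hk'
  have hchar : CharP k' p := charP_of_injective_algebraMap (algebraMap k k').injective p
  have hvk : ∀ c : k, v (algebraMap k K c) ≤ 1 := by
    intro c
    by_cases h : c = 0
    · rw [h, map_zero, map_zero]
      exact zero_le_one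
    · exact (hk c h).le
  -- the extension
  obtain ⟨U1, hU1, hM1, hSU1⟩ := su_res (k := k') p w (fun c hc => e2 c hc) e3 r hr
    (e5.trans htr) (fun i => algebraMap K L (x i)) (fun i => (_root_.map_ne_zero _).2 (hx0 i))
    (by
      intro m hm
      apply hind m
      rw [← hm]
      refine Finset.prod_congr rfl fun i _ => ?_
      rw [hwv])
    (by
      intro z hz
      obtain ⟨b, hb, h1⟩ := e4 z hz
      obtain ⟨n, hn, m, h2⟩ := hrr b hb
      refine ⟨n, hn, m, ?_⟩
      rw [h1, h2]
      refine Finset.prod_congr rfl fun i _ => ?_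
      rw [hwv])
  set V := w.valuationSubring with hV
  have hcomap : V.comap (algebraMap K L) = v.valuationSubring := by
    ext z
    rw [ValuationSubring.mem_comap, hV, mem_vs, mem_vs, hwv]
  have hwk : ∀ c : k, w (algebraMap k L c) ≤ 1 := by
    intro c
    rw [IsScalarTower.algebraMap_apply k K L, hwv]
    exact hvk c
  have hwζ : w ζ ≤ 1 := by
    have h1 : ζ = (ζ - algebraMap K L a) + algebraMap K L a := by ring
    rw [h1]
    refine (w.map_add _ _).trans (max_le hζa.le ?_)
    rw [hwv]
    exact ha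
  have hev : ∀ q : k[X], w (aeval ζ q) ≤ 1 := by
    intro q
    rw [aeval_eq_sum_range]
    refine w.map_sum_le fun i _ => ?_
    rw [Algebra.smul_def, map_mul, map_pow]
    exact mul_le_one₀ (hwk _) zero_le (pow_le_one₀ zero_le hwζ)
  -- the minimal polynomial
  obtain ⟨h, h1, h2, h3, h4, h5⟩ := Pool.Agent.H176.DT.exists_min V ζ (m.map (algebraMap k K))
    (hm.map _) (fun i => by
      rw [coeff_map, hV, mem_vs, hwv]
      exact hvk _) (by rw [aeval_map_algebraMap, hζm]) (by
      rw [derivative_map, aeval_map_algebraMap, hV, val_eq_one_iff]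
      obtain ⟨s, t, hst⟩ := hsep
      have h6 : aeval ζ t * aeval ζ (derivative m) = 1 := by
        have h7 := congrArg (aeval ζ) hst
        rw [map_add, map_mul, map_mul, hζm, mul_zero, zero_add, map_one] at h7
        exact h7
      have h8 := congrArg w h6
      rw [map_mul, map_one] at h8
      refine le_antisymm (hev _) ?_
      rw [← h8]
      exact mul_le_of_le_one_left zero_le (hev _))
  obtain ⟨S0, hS0, hS0V, hS0M⟩ := exists_mod v hk
  set S : Set K := S0 ∪ {a} ∪ Set.range (fun i : Fin (h.natDegree + 1) => h.coeff i) with hS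
  have hSfin : S.Finite := (hS0.union (Set.finite_singleton a)).union (Set.finite_range _)
  have hSV : ∀ s ∈ S, v s ≤ 1 := by
    rintro s ((hs | hs) | ⟨i, rfl⟩)
    · exact hS0V s hs
    · rw [Set.mem_singleton_iff.1 hs]
      exact ha
    · have := h2 i
      rw [hV, mem_vs, hwv] at this
      exact this
  set A := Subring.closure (Set.range (algebraMap k K) ∪ S) with hA
  have hAV : A ≤ v.valuationSubring.toSubring := by
    rw [hA, Subring.closure_le]
    rintro z (⟨c, rfl⟩ | hz)
    · exact hvk c
    · exact hSV z hz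
  have hkA : ∀ c : k, algebraMap k K c ∈ A := fun c => Subring.subset_closure (Or.inl ⟨c, rfl⟩)
  have hSA : ∀ s ∈ S, s ∈ A := fun s hs => Subring.subset_closure (Or.inr hs)
  have hAM : Mod v.valuationSubring A :=
    hS0M A hkA (fun s hs => hSA s (Or.inl (Or.inl hs))) hAV
  have hnoe : IsNoetherianRing A := by
    have hR : ((algebraMap k K).range : Set K) = Set.range (algebraMap k K) := rfl
    rw [hA, ← hR]
    exact Pool.Agent.H176.DT.p_noe _ S hSfin
  have hEt : Et V ζ h A :=
    { BV := by rw [hcomap]; exact hAV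
      monic := h1
      coeff := by
        intro i
        by_cases hi : i < h.natDegree + 1
        · exact hSA _ (Or.inr ⟨⟨i, hi⟩, rfl⟩)
        · rw [coeff_eq_zero_of_natDegree_lt (by omega)]
          exact zero_mem _
      root := h3
      der := h4
      min := h5
      gen := hgen
      frac := hAM.2
      noe := hnoe }
  -- the model of the extension
  set Z := Az ζ A with hZ
  have hAZ : ∀ z ∈ A, algebraMap K L z ∈ Z := fun z hz =>
    Subring.subset_closure (Or.inl ⟨z, hz, rfl⟩)
  have hζZ : ζ ∈ Z := Subring.subset_closure (Or.inr rfl)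
  have hk'Z : ∀ c : k', (c : L) ∈ Z := by
    intro c
    have h6 : (c : L) ∈ (Algebra.adjoin k {ζ} : Set L) := by
      rw [← e6]
      exact c.2
    rw [SetLike.mem_coe, Algebra.adjoin_singleton_eq_range_aeval] at h6
    obtain ⟨q, hq⟩ := h6
    rw [← hq]
    change aeval ζ q ∈ Z
    rw [aeval_eq_sum_range]
    refine sum_mem fun i _ => ?_
    rw [Algebra.smul_def]
    refine mul_mem ?_ (pow_mem hζZ _)
    rw [IsScalarTower.algebraMap_apply k K L]
    exact hAZ _ (hkA _)
  have hζk' : ζ ∈ k' := IntermediateField.mem_adjoin_simple_self k ζ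
  have hZV : Z ≤ V.toSubring := by
    rw [hZ, Subring.closure_le]
    rintro z (⟨z, hz, rfl⟩ | hz)
    · change w (algebraMap K L z) ≤ 1
      rw [hwv]
      exact hAV hz
    · rw [Set.mem_singleton_iff.1 hz]
      exact hwζ
  have hZM : Mod V Z := by
    refine mod_of_clos hZV fun z => ?_
    obtain ⟨f, rfl⟩ := hgen z
    rw [aeval_eq_sum_range]
    refine sum_mem fun i _ => ?_
    rw [Algebra.smul_def]
    refine mul_mem ?_ (pow_mem (Subfield.subset_closure hζZ) _)
    obtain ⟨b, hb, c, hc, -, h6⟩ := hAM.2 (f.coeff i)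
    rw [h6, map_mul, map_inv₀]
    exact mul_mem (Subfield.subset_closure (hAZ b hb)) (inv_mem (Subfield.subset_closure
      (hAZ c hc)))
  set B1 := Subring.closure (Set.range (algebraMap k' L) ∪ U1) with hB1
  have hU1V : ∀ u ∈ U1, u ∈ V := fun u hu => hM1.1 (Subring.subset_closure (Or.inr hu))
  set S' : Set L := algebraMap K L '' S with hS'
  have hS'V : ∀ s ∈ S', s ∈ V := by
    rintro _ ⟨s, hs, rfl⟩
    rw [hV, mem_vs, hwv]
    exact hSV s hs
  have h6 := (Pool.Agent.H176.DT.p_move V B1 hM1 S' (hSfin.image _) hS'V).1 hSU1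
  have h7 : Subring.closure ((B1 : Set L) ∪ S') = Subring.closure ((Z : Set L) ∪ U1) := by
    apply le_antisymm
    · rw [Subring.closure_le]
      rintro z (hz | ⟨s, hs, rfl⟩)
      · refine (?_ : B1 ≤ _) hz
        rw [hB1, Subring.closure_le]
        rintro z (⟨c, rfl⟩ | hz)
        · exact Subring.subset_closure (Or.inl (hk'Z c))
        · exact Subring.subset_closure (Or.inr hz)
      · exact Subring.subset_closure (Or.inl (hAZ s (hSA s hs)))
    · rw [Subring.closure_le]
      rintro z (hz | hz)
      · refine (?_ : Z ≤ _) hz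
        rw [hZ, Subring.closure_le]
        rintro z (⟨z, hz, rfl⟩ | hz)
        · have h8 : A ≤ (Subring.closure ((B1 : Set L) ∪ S')).comap (algebraMap K L) := by
            rw [hA, Subring.closure_le]
            rintro z (⟨c, rfl⟩ | hz)
            · rw [SetLike.mem_coe, Subring.mem_comap, ← IsScalarTower.algebraMap_apply k K L]
              refine Subring.subset_closure (Or.inl (Subring.subset_closure (Or.inl ?_)))
              exact ⟨algebraMap k k' c, rfl⟩
            · exact Subring.subset_closure (Or.inr ⟨z, hz, rfl⟩)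
          exact h8 hz
        · rw [Set.mem_singleton_iff.1 hz]
          exact Subring.subset_closure (Or.inl (Subring.subset_closure (Or.inl ⟨⟨ζ, hζk'⟩, rfl⟩)))
      · exact Subring.subset_closure (Or.inl (Subring.subset_closure (Or.inr hz)))
  rw [h7] at h6
  have hSUZ : SU V Z := (Pool.Agent.H176.DT.p_move V Z hZM U1 hU1 hU1V).2 h6
  -- the descent
  have hnt : ∃ a : K, algebraMap K L a ∈ V ∧ algebraMap K L a⁻¹ ∉ V := by
    have hi : 0 < r := by omega
    set y := x ⟨0, hi⟩ with hy
    have hy0 : y ≠ 0 := hx0 _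
    have hvy : v y ≠ 1 := by
      intro h8
      have h9 := hind (Pi.single ⟨0, hi⟩ 1) (by
        rw [Finset.prod_eq_single (⟨0, hi⟩ : Fin r)]
        · rw [Pi.single_eq_same, zpow_one]
          exact h8
        · intro j _ hj
          rw [Pi.single_eq_of_ne hj, zpow_zero]
        · intro h9
          exact absurd (Finset.mem_univ _) h9)
      have h10 := congrFun h9 ⟨0, hi⟩
      rw [Pi.single_eq_same] at h10
      exact one_ne_zero h10
    rcases lt_or_gt_of_ne hvy with h8 | h8
    · refine ⟨y, ?_, ?_⟩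
      · rw [hV, mem_vs, hwv]
        exact h8.le
      · rw [hV, mem_vs, hwv, map_inv₀, not_le]
        exact (one_lt_inv₀ (zero_lt_iff.2 ((Valuation.ne_zero_iff _).2 hy0))).2 h8
    · refine ⟨y⁻¹, ?_, ?_⟩
      · rw [hV, mem_vs, hwv, map_inv₀]
        exact inv_le_one_of_one_le₀ h8.le
      · rw [hV, mem_vs, hwv, inv_inv, not_le]
        exact h8
  have hfin := desc_su (V := V) (ζ := ζ) (t_coord t_colon (t_red t_alg1) t_ord) t_pos t_cmp h A
    hEt ⟨a, hSA a (Or.inl (Or.inr rfl)), by rw [hV, val_lt_one_iff]; exact hζa⟩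
    arch hnt x hx0 (by
      intro z hz
      obtain ⟨b, hb, h8⟩ := e4 z hz
      obtain ⟨n, hn, m, h9⟩ := hrr b hb
      refine ⟨n, Nat.pos_of_ne_zero hn, m, ?_⟩
      rw [← map_pow, hV, val_eq_iff, map_pow, h8, h9, mo, hwv, map_prod]
      refine Finset.prod_congr rfl fun i _ => ?_
      rw [map_zpow₀]) hSUZ
  rw [hcomap] at hfin
  exact ⟨S, hSfin, hAM, hfin⟩

end Pool.Agent.H893.DD
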