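import Pool.Agent.H893.DD.Stm

/-!
# Descent of strong uniformization, preparations
-/

set_option autoImplicit false
set_option linter.unusedVariables false
set_option linter.unusedSectionVars false

universe u

namespace Pool.Agent.H893.DD

open Pool.Agent.W418.LU2 IsLocalRing Polynomial
open Pool.Agent.H176.DT (Mod SU PP St val_one_iff)

section gen

variable {F : Type u} [Field F] {V : ValuationSubring F}

lemma lt_one_iff {z : F} (hz : z ∈ V) : V.valuation z < 1 ↔ (z ≠ 0 → z⁻¹ ∉ V) := by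
  constructor
  · intro h h0 h1
    exact absurd ((val_one_iff V z).2 ⟨h0, hz, h1⟩) h.ne
  · intro h
    refine lt_of_le_of_ne ((V.valuation_le_one_iff z).2 hz) fun h1 => ?_
    obtain ⟨h2, -, h3⟩ := (val_one_iff V z).1 h1
    exact h h2 h3

lemma ne_zero_of_inv {z : F} (h : z⁻¹ ∉ V) : z ≠ 0 := by
  rintro rfl
  apply h
  rw [inv_zero]
  exact V.zero_mem

/-- The numerators of a local ring. -/
lemma lo_lo {A S : Subring F} (hS : S ≤ A) {S' : Subring F} (h : S' ≤ lo A S) :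
    lo A S' ≤ lo A S := by
  rintro x ⟨a, ha, b, hb, hb0, hbA, rfl⟩
  exact mul_mem (h ha) (inv_mem_lo hS (h hb) hb0 hbA)

/-- The generators of the maximal ideal. -/
lemma exists_gens {W : ValuationSubring F} (B : Subring F) (hB : B ≤ W.toSubring)
    [IsNoetherianRing B] : ∃ (m : ℕ) (w : Fin m → F), (∀ i, w i ∈ B) ∧ (∀ i, (w i)⁻¹ ∉ W) ∧
      ∀ z ∈ lo W.toSubring B, (z ≠ 0 → z⁻¹ ∉ W) →
        ∃ c : Fin m → F, (∀ i, c i ∈ lo W.toSubring B) ∧ z = ∑ i, c i * w i := by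
  classical
  let inc : B →+* W := Subring.inclusion hB
  let M : Ideal B := (maximalIdeal W).comap inc
  have hM : ∀ a : B, a ∈ M ↔ ((a : F) ≠ 0 → (a : F)⁻¹ ∉ W) := by
    intro a
    rw [Ideal.mem_comap]
    exact (W.valuation_lt_one_iff (inc a)).trans (lt_one_iff (hB a.2))
  obtain ⟨s, hs⟩ := (isNoetherianRing_iff_ideal_fg B).1 inferInstance M
  let t : Finset B := s.filter fun a : B => (a : F) ≠ 0
  have ht : Ideal.span (t : Set B) = M := by
    rw [← hs]
    apply le_antisymm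
    · exact Ideal.span_mono fun a ha => (Finset.mem_filter.1 ha).1
    · rw [Ideal.span_le]
      intro a ha
      by_cases h0 : (a : F) = 0
      · have h1 : a = 0 := Subtype.ext h0
        rw [h1]
        exact zero_mem _
      · exact Ideal.subset_span (Finset.mem_coe.2 (Finset.mem_filter.2 ⟨ha, h0⟩))
  let e := t.equivFin
  refine ⟨t.card, fun i => ((e.symm i : B) : F), fun i => (e.symm i : B).2, fun i => ?_,
    fun z hz hn => ?_⟩
  · have h1 : (e.symm i : B) ∈ M := by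
      rw [← ht]
      exact Ideal.subset_span (e.symm i).2
    exact (hM _).1 h1 (Finset.mem_filter.1 (e.symm i).2).2
  · obtain ⟨a, ha, b, hb, hb0, hbA, rfl⟩ := hz
    have h1 : (⟨a, ha⟩ : B) ∈ M := by
      rw [hM]
      intro ha0 h2
      apply hn (mul_ne_zero ha0 (inv_ne_zero hb0))
      rw [mul_inv, inv_inv]
      exact mul_mem h2 (hB hb)
    rw [← ht, Submodule.mem_span_finset'] at h1
    obtain ⟨c, hc⟩ := h1
    refine ⟨fun i => (c (e.symm i) : F) * b⁻¹, fun i => ⟨_, (c (e.symm i)).2, b, hb, hb0, hbA,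
      rfl⟩, ?_⟩
    have h2 := congrArg (Subtype.val : B → F) hc
    rw [← e.symm.sum_comp] at h2
    have h3 : ((∑ i, c (e.symm i) • ((e.symm i : B)) : B) : F) = ∑ i, (c (e.symm i) : F) *
        ((e.symm i : B) : F) := by
      rw [AddSubmonoidClass.coe_finsetSum]
      rfl
    have h4 : a = ∑ i, (c (e.symm i) : F) * ((e.symm i : B) : F) := h2.symm.trans h3
    conv_lhs => rw [h4]
    rw [Finset.sum_mul]
    exact Finset.sum_congr rfl fun i _ => by ring

lemma As.refl {P : Subring F} (a : F) : As P a a :=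
  ⟨1, one_ne_zero, P.one_mem, by rw [inv_one]; exact P.one_mem, (one_mul a).symm⟩

lemma As.symm {P : Subring F} {a b : F} (h : As P a b) : As P b a := by
  obtain ⟨ε, h0, h1, h2, rfl⟩ := h
  exact ⟨ε⁻¹, inv_ne_zero h0, h2, by rwa [inv_inv], by rw [← mul_assoc, inv_mul_cancel₀ h0,
    one_mul]⟩

lemma As.trans {P : Subring F} {a b c : F} (h : As P a b) (h' : As P b c) : As P a c := by
  obtain ⟨ε, h0, h1, h2, rfl⟩ := h
  obtain ⟨δ, k0, k1, k2, rfl⟩ := h'
  exact ⟨ε * δ, mul_ne_zero h0 k0, mul_mem h1 k1, by rw [mul_inv]; exact mul_mem h2 k2,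
    (mul_assoc _ _ _).symm⟩

lemma As.mul {P : Subring F} {a b c d : F} (h : As P a b) (h' : As P c d) :
    As P (a * c) (b * d) := by
  obtain ⟨ε, h0, h1, h2, rfl⟩ := h
  obtain ⟨δ, k0, k1, k2, rfl⟩ := h'
  exact ⟨ε * δ, mul_ne_zero h0 k0, mul_mem h1 k1, by rw [mul_inv]; exact mul_mem h2 k2, by ring⟩

lemma As.inv {P : Subring F} {a b : F} (h : As P a b) : As P a⁻¹ b⁻¹ := by
  obtain ⟨ε, h0, h1, h2, rfl⟩ := h
  exact ⟨ε⁻¹, inv_ne_zero h0, h2, by rwa [inv_inv], by rw [mul_inv]⟩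

lemma As.zpow {P : Subring F} {a b : F} (h : As P a b) (n : ℤ) : As P (a ^ n) (b ^ n) := by
  obtain ⟨ε, h0, h1, h2, rfl⟩ := h
  refine ⟨ε ^ n, zpow_ne_zero _ h0, ?_, ?_, mul_zpow _ _ _⟩
  · obtain ⟨m, rfl | rfl⟩ := n.eq_nat_or_neg
    · rw [zpow_natCast]
      exact pow_mem h1 m
    · rw [zpow_neg, zpow_natCast, ← inv_pow]
      exact pow_mem h2 m
  · obtain ⟨m, rfl | rfl⟩ := n.eq_nat_or_neg
    · rw [zpow_natCast, ← inv_pow]
      exact pow_mem h2 m
    · rw [zpow_neg, zpow_natCast, inv_inv]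
      exact pow_mem h1 m

lemma As.mo {P : Subring F} {ι : Type} [Fintype ι] {x y : ι → F} (h : ∀ i, As P (x i) (y i))
    (δ : ι → ℤ) : As P (mo x δ) (mo y δ) := by
  classical
  unfold Pool.Agent.W418.LU2.mo
  refine Finset.induction_on (motive := fun s => As P (∏ i ∈ s, x i ^ δ i) (∏ i ∈ s, y i ^ δ i))
    Finset.univ ?_ ?_
  · rw [Finset.prod_empty, Finset.prod_empty]
    exact As.refl 1
  · intro i s hi hs
    rw [Finset.prod_insert hi, Finset.prod_insert hi]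
    exact ((h i).zpow _).mul hs

lemma PMon.as {P : Subring F} {ι : Type} [Fintype ι] {x y : ι → F} (h : ∀ i, As P (x i) (y i))
    {g : F} (hg : PMon P x g) : PMon P y g := by
  obtain ⟨u, u0, u1, u2, δ, rfl⟩ := hg
  obtain ⟨ε, e0, e1, e2, he⟩ := As.mo h δ
  exact ⟨u * ε, mul_ne_zero u0 e0, mul_mem u1 e1, by rw [mul_inv]; exact mul_mem u2 e2, δ,
    by rw [he, mul_assoc]⟩

lemma pmon_iff_as {P : Subring F} {ι : Type} [Fintype ι] {x : ι → F} {g : F} :
    PMon P x g ↔ ∃ δ, As P g (Pool.Agent.W418.LU2.mo x δ) := by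
  constructor
  · rintro ⟨u, u0, u1, u2, δ, h⟩
    exact ⟨δ, u, u0, u1, u2, h⟩
  · rintro ⟨δ, u, u0, u1, u2, h⟩
    exact ⟨u, u0, u1, u2, δ, h⟩

/-- Units as factors of the coordinates. -/
lemma RegP.as {A P : Subring F} {ι : Type} [Fintype ι] {x y : ι → F} (h : RegP A P x)
    (hy : ∀ i, As P (y i) (x i)) : RegP A P y := by
  have hmem : ∀ i, y i ∈ P := by
    intro i
    obtain ⟨ε, h0, h1, h2, h3⟩ := hy i
    rw [h3]
    exact mul_mem h1 (h.mem i)
  have hloc := h.reg.toIsLocalRing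
  refine ⟨h.PA, fun i => ?_, hmem, h.reg, h.inv, ?_⟩
  · obtain ⟨ε, h0, h1, h2, h3⟩ := hy i
    rw [h3]
    exact mul_ne_zero h0 (h.ne i)
  · choose ε h0 h1 h2 h3 using hy
    have hu : ∀ i, IsUnit (⟨ε i, h1 i⟩ : P) := fun i =>
      isUnit_iff_exists_inv.2 ⟨⟨(ε i)⁻¹, h2 i⟩, Subtype.ext (mul_inv_cancel₀ (h0 i))⟩
    have he : ∀ i, (⟨y i, hmem i⟩ : P) = ⟨ε i, h1 i⟩ * ⟨x i, h.mem i⟩ := fun i =>
      Subtype.ext (h3 i)
    intro c hc hs i
    have h4 := h.ind (fun i => c i * ⟨ε i, h1 i⟩) (fun i hi => by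
      rw [hc i, zero_mul]
      change (⟨y i, hmem i⟩ : P) ∉ _
      rw [he]
      intro h5
      exact hi ((Ideal.IsPrime.mem_or_mem inferInstance h5).resolve_left
        fun h6 => (mem_maximalIdeal _).1 h6 (hu i))) (by
      have h5 : ∑ i, c i * ⟨ε i, h1 i⟩ * (⟨x i, h.mem i⟩ : P) =
          ∑ i, c i * (⟨y i, hmem i⟩ : P) :=
        Finset.sum_congr rfl fun i _ => by rw [he, mul_assoc]
      rw [h5]
      exact hs) i
    exact (Ideal.IsPrime.mem_or_mem inferInstance h4).resolve_right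
        fun h6 => (mem_maximalIdeal _).1 h6 (hu i)

end gen

end Pool.Agent.H893.DD
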