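import Pool.Graph.R_seed8.H176.DT.H8

/-!
# Statements for the project DD: descent of strong uniformization along dense finite extensions

Everything is relative to the library modules `Pool.Graph.R_seed8.W418.LU2` (`lo`, `RegP`, `PMon`,
`mo`, `Ref`, `IndN`) and `Pool.Graph.R_seed8.H176.DT` (`Mod`, `SU`, `PP`, `St`, `p_flat`, `p_ref`,
`p_expo`, `p_ind`, `p_fac`, `p_noe`).
-/

set_option autoImplicit false
set_option linter.unusedVariables false
set_option linter.unusedSectionVars false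

universe u

namespace Pool.Agent.H893.DD

open Pool.Agent.W418.LU2 IsLocalRing Polynomial
open Pool.Agent.H176.DT (Mod SU PP St)
open scoped NNReal

section defs

variable {F F1 : Type u} [Field F] [Field F1] [Algebra F F1]

/-- The local ring of `B` at the centre of `V ∩ F`, in `F`. -/
abbrev Q0 (V : ValuationSubring F1) (B : Subring F) : Subring F :=
  lo (V.comap (algebraMap F F1)).toSubring B

/-- The local ring of `B[ζ]` at the centre of `V`, in `F1`. -/
abbrev Q1 (V : ValuationSubring F1) (ζ : F1) (B : Subring F) : Subring F1 :=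
  lo V.toSubring (Subring.closure ((B.map (algebraMap F F1) : Set F1) ∪ {ζ}))

/-- The local extension `Q0 → Q1` is etale: `ζ` is a simple root of the monic polynomial `h` with
coefficients in `B`, which is the minimal polynomial of `ζ`, and `ζ` generates `F1`. -/
structure Et (V : ValuationSubring F1) (ζ : F1) (h : F[X]) (B : Subring F) : Prop where
  BV : B ≤ (V.comap (algebraMap F F1)).toSubring
  monic : h.Monic
  coeff : ∀ i, h.coeff i ∈ B
  root : aeval ζ h = 0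
  der : V.valuation (aeval ζ (derivative h)) = 1
  min : ∀ q : F[X], q.degree < h.degree → aeval ζ q = 0 → q = 0
  gen : ∀ z : F1, ∃ f : F[X], aeval ζ f = z
  frac : ∀ z : F, ∃ a ∈ B, ∃ b ∈ B, b ≠ 0 ∧ z = a * b⁻¹
  noe : IsNoetherianRing B

/-- Divisibility in a subring. -/
def Dv {E : Type u} [Field E] (P : Subring E) (a b : E) : Prop := ∃ w ∈ P, b = w * a

/-- Equality up to a unit of a subring. -/
def As {E : Type u} [Field E] (P : Subring E) (a b : E) : Prop :=
  ∃ ε, ε ≠ 0 ∧ ε ∈ P ∧ ε⁻¹ ∈ P ∧ a = ε * b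

end defs

/-- A polynomial identity: the factors of `h` of multiplicity at least two divide its derivative. -/
def S_alg1 : Prop :=
  ∀ {κ : Type u} [Field κ] (h s q : κ[X]) (n : ℕ), h ∣ s * q ^ n → h ∣ derivative h ^ 2 * s * q

/-- Flatness: the colon ideal of principal ideals commutes with the extension `Q0 → Q1`. -/
def S_colon : Prop :=
  ∀ {F F1 : Type u} [Field F] [Field F1] [Algebra F F1] (V : ValuationSubring F1) (ζ : F1)
    (h : F[X]) (B : Subring F), Et V ζ h B → ∀ u a : F, u ∈ Q0 V B → a ∈ Q0 V B →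
    ∀ z ∈ Q1 V ζ B, Dv (Q1 V ζ B) (algebraMap F F1 u) (z * algebraMap F F1 a) →
    ∃ (m : ℕ) (c : Fin m → F) (r : Fin m → F1), (∀ i, c i ∈ Q0 V B) ∧
      (∀ i, Dv (Q0 V B) u (c i * a)) ∧ (∀ i, r i ∈ Q1 V ζ B) ∧
      z = ∑ i, algebraMap F F1 (c i) * r i

/-- The fibres of an etale extension are reduced: if `u` is a prime element of `Q0` (or a unit),
then `u` generates a radical ideal of `Q1`. -/
def S_red : Prop :=
  ∀ {F F1 : Type u} [Field F] [Field F1] [Algebra F F1] (V : ValuationSubring F1) (ζ : F1)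
    (h : F[X]) (B : Subring F), Et V ζ h B → ∀ u : F, u ∈ Q0 V B → u ≠ 0 →
    (∀ a ∈ Q0 V B, ∀ b ∈ Q0 V B, Dv (Q0 V B) u (a * b) → Dv (Q0 V B) u a ∨ Dv (Q0 V B) u b) →
    ∀ q ∈ Q1 V ζ B, ∀ n : ℕ, Dv (Q1 V ζ B) (algebraMap F F1 u) (q ^ n) →
    Dv (Q1 V ζ B) (algebraMap F F1 u) q

/-- The nonunits among the elements `x i` are prime elements, and every nonzero element has a
finite order with respect to them. -/
def S_ord : Prop :=
  ∀ {F : Type u} [Field F] {A P : Subring F} {ι : Type} [Fintype ι] {x : ι → F}, RegP A P x →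
    ∀ i, (x i)⁻¹ ∉ A →
    (∀ a ∈ P, ∀ b ∈ P, Dv P (x i) (a * b) → Dv P (x i) a ∨ Dv P (x i) b) ∧
    ∀ a ∈ P, a ≠ 0 → ∃ (α : ℕ) (a' : F), a' ∈ P ∧ a = a' * x i ^ α ∧ ¬ Dv P (x i) a'

/-- The coordinates of the regular local ring `Q1` descend to `Q0` if powers of them do. -/
def S_coord : Prop :=
  ∀ {F F1 : Type u} [Field F] [Field F1] [Algebra F F1] (V : ValuationSubring F1) (ζ : F1)
    (h : F[X]) (B : Subring F), Et V ζ h B → ∀ {ι : Type} [Fintype ι] (x : ι → F1),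
    RegP V.toSubring (Q1 V ζ B) x → ∀ i, (x i)⁻¹ ∉ V →
    (∃ (n : ℕ) (g : F), 0 < n ∧ As (Q1 V ζ B) (algebraMap F F1 g) (x i ^ n)) →
    ∃ y : F, As (Q1 V ζ B) (algebraMap F F1 y) (x i)

/-- Density: modulo every power of the maximal ideal the elements of `Q1` come from `Q0`. -/
def S_dens : Prop :=
  ∀ {F F1 : Type u} [Field F] [Field F1] [Algebra F F1] (V : ValuationSubring F1) (ζ : F1)
    (h : F[X]) (B : Subring F), Et V ζ h B →
    (∃ a ∈ B, V.valuation (ζ - algebraMap F F1 a) < 1) →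
    ∀ {m : ℕ} (w : Fin m → F), (∀ i, w i ∈ Q0 V B) →
    (∀ z ∈ Q0 V B, (z ≠ 0 → algebraMap F F1 z⁻¹ ∉ V) →
      ∃ c : Fin m → F, (∀ i, c i ∈ Q0 V B) ∧ z = ∑ i, c i * w i) →
    ∀ (N : ℕ) (τ : F1), τ ∈ Q1 V ζ B →
    ∃ p ∈ Q0 V B, ∃ r : (Fin N → Fin m) → F1, (∀ f, r f ∈ Q1 V ζ B) ∧
      τ - algebraMap F F1 p = ∑ f, algebraMap F F1 (∏ i, w (f i)) * r f

/-- After a change of monomials all coordinates divide all monomials of positive value. -/
def S_pos : Prop :=
  ∀ {F : Type u} [Field F] (V : ValuationSubring F),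
    (∀ a b : F, b ≠ 0 → a ∈ V → a⁻¹ ∉ V → ∃ N : ℕ, a ^ N * b⁻¹ ∈ V) →
    ∀ (A : Subring F) (T : Set F) {s : ℕ} (x : Fin s → F), St V A T x → (∀ i, (x i)⁻¹ ∉ V) →
    (∀ δ : Fin s → ℤ, V.valuation (mo x δ) = 1 → δ = 0) →
    ∀ G : Set F, G.Finite → (∀ g ∈ G, PMon (PP V A T) x g) →
    ∃ (T' : Set F) (x' : Fin s → F), St V A T' x' ∧ (∀ i, (x' i)⁻¹ ∉ V) ∧
      (∀ δ : Fin s → ℤ, V.valuation (mo x' δ) = 1 → δ = 0) ∧
      (∀ g ∈ G, PMon (PP V A T') x' g ∧ (g ∈ V → g ∈ PP V A T')) ∧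
      ∀ w ∈ PP V A T, w⁻¹ ∉ V → PMon (PP V A T) x w → w * (∏ i, x' i)⁻¹ ∈ PP V A T'

/-- Lifts of separable elements of the residue field to an immediate extension of rank one. -/
def S_ext : Prop :=
  ∀ {k K : Type u} [Field k] [Field K] [Algebra k K] (v : Valuation K ℝ≥0),
    (∀ c : k, c ≠ 0 → v (algebraMap k K c) = 1) →
    ∀ (a : K) (m : k[X]), m.Monic → Irreducible m → m.Separable → v a ≤ 1 → v (aeval a m) < 1 →
    ∃ (L : Type u) (_ : Field L) (_ : Algebra K L) (_ : Algebra k L) (_ : IsScalarTower k K L)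
      (w : Valuation L ℝ≥0) (ζ : L), aeval ζ m = 0 ∧ w (ζ - algebraMap K L a) < 1 ∧
      (∀ z : K, w (algebraMap K L z) = v z) ∧ (∀ z : L, ∃ f : K[X], aeval ζ f = z) ∧
      ∀ z : L, z ≠ 0 → ∃ b : K, w (z - algebraMap K L b) < w z

end Pool.Agent.H893.DD
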