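import Pool.Agent.H893.DD.Asm1

/-!
# Statements for the project DD, part two
-/

set_option autoImplicit false
set_option linter.unusedVariables false
set_option linter.unusedSectionVars false

universe u

namespace Pool.Agent.H893.DD

open Pool.Agent.W418.LU2 IsLocalRing Polynomial
open Pool.Agent.H176.DT (Mod SU PP St)
open scoped NNReal

/-- The ring `A[ζ]`. -/
abbrev Az {F F1 : Type u} [Field F] [Field F1] [Algebra F F1] (ζ : F1) (A : Subring F) :
    Subring F1 := Subring.closure ((A.map (algebraMap F F1) : Set F1) ∪ {ζ})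

/-- The stages over `A[ζ]` for which all coordinates divide the maximal ideal of `Q0` are defined
by elements of `F`. -/
def S_cmp : Prop :=
  ∀ {F F1 : Type u} [Field F] [Field F1] [Algebra F F1] (V : ValuationSubring F1) (ζ : F1)
    (h : F[X]) (A : Subring F), Et V ζ h A →
    (∃ a ∈ A, V.valuation (ζ - algebraMap F F1 a) < 1) →
    ∀ {m : ℕ} (w : Fin m → F), 0 < m → (∀ i, w i ∈ A) → (∀ i, algebraMap F F1 (w i)⁻¹ ∉ V) →
    (∀ z ∈ Q0 V A, (z ≠ 0 → algebraMap F F1 z⁻¹ ∉ V) →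
      ∃ c : Fin m → F, (∀ i, c i ∈ Q0 V A) ∧ z = ∑ i, c i * w i) →
    ∀ (T : Set F1) {s : ℕ} (x : Fin s → F1), St V (Az ζ A) T x → (∀ i, (x i)⁻¹ ∉ V) →
    (∀ i, algebraMap F F1 (w i) * (∏ j, x j)⁻¹ ∈ PP V (Az ζ A) T) →
    ∃ T3 : Set F, T3.Finite ∧
      Subring.closure ((A : Set F) ∪ T3) ≤ (V.comap (algebraMap F F1)).toSubring ∧
      PP V (Az ζ A) T = Q1 V ζ (Subring.closure ((A : Set F) ∪ T3)) ∧
      ∃ α ∈ A, α ≠ 0 ∧ PMon (PP V (Az ζ A) T) x (algebraMap F F1 α) ∧ ∀ t ∈ T3, α * t ∈ A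

end Pool.Agent.H893.DD
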