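import Pool.Agent.H893.DD.Stm2

/-!
# Statements for the project DD, part three
-/

set_option autoImplicit false
set_option linter.unusedVariables false
set_option linter.unusedSectionVars false

universe u

namespace Pool.Agent.H893.DD

open Pool.Agent.W418.LU2 IsLocalRing Polynomial
open Pool.Agent.H176.DT (Mod SU PP St)
open scoped NNReal

/-- The residue field of the valuation. -/
abbrev Rf {K : Type u} [Field K] (v : Valuation K ℝ≥0) : Type u :=
  IsLocalRing.ResidueField v.valuationSubring

lemma kV_mem {k K : Type u} [Field k] [Field K] [Algebra k K] (v : Valuation K ℝ≥0)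
    (hk : ∀ c : k, c ≠ 0 → v (algebraMap k K c) = 1) (c : k) :
    algebraMap k K c ∈ v.valuationSubring.toSubring := by
  change v (algebraMap k K c) ≤ 1
  by_cases h : c = 0
  · rw [h, map_zero, map_zero]
    exact zero_le_one
  · exact (hk c h).le

/-- The ground field in the valuation ring. -/
noncomputable def kV {k K : Type u} [Field k] [Field K] [Algebra k K] (v : Valuation K ℝ≥0)
    (hk : ∀ c : k, c ≠ 0 → v (algebraMap k K c) = 1) : k →+* v.valuationSubring :=
  (algebraMap k K).codRestrict v.valuationSubring.toSubring (kV_mem v hk)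

/-- The residue field as an extension of the ground field. -/
noncomputable abbrev rAlg {k K : Type u} [Field k] [Field K] [Algebra k K] (v : Valuation K ℝ≥0)
    (hk : ∀ c : k, c ≠ 0 → v (algebraMap k K c) = 1) : Algebra k (Rf v) :=
  ((IsLocalRing.residue v.valuationSubring).comp (kV v hk)).toAlgebra

/-- The lifts of a separating transcendence basis and of a primitive element of the residue
field. -/
def S_rdata : Prop :=
  ∀ {k K : Type u} [Field k] [Field K] [Algebra k K] [PerfectField k] (v : Valuation K ℝ≥0)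
    (hk : ∀ c : k, c ≠ 0 → v (algebraMap k K c) = 1),
    (letI := rAlg v hk; Algebra.EssFiniteType k (Rf v)) →
    ∃ (S : Finset K) (F0 : IntermediateField k K) (a : K) (m : F0[X]),
      F0 = IntermediateField.adjoin k (S : Set K) ∧
      (∀ c : F0, c ≠ 0 → v (c : K) = 1) ∧ v a ≤ 1 ∧ m.Monic ∧ Irreducible m ∧ m.Separable ∧
      v (aeval a m) < 1 ∧ (∀ x : K, v x ≤ 1 → ∃ q : F0[X], v (x - aeval a q) < 1) ∧
      (letI := rAlg v hk; Algebra.trdeg k F0 = Algebra.trdeg k (Rf v))

/-- From an intermediate field to the ground field. -/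
def S_down : Prop :=
  ∀ {k K : Type u} [Field k] [Field K] [Algebra k K] (v : Valuation K ℝ≥0) (S : Finset K)
    (F0 : IntermediateField k K), F0 = IntermediateField.adjoin k (S : Set K) →
    (∀ c : F0, c ≠ 0 → v (c : K) = 1) → ∀ U : Set K, U.Finite →
    Mod v.valuationSubring (Subring.closure ((F0 : Set K) ∪ U)) →
    SU v.valuationSubring (Subring.closure ((F0 : Set K) ∪ U)) →
    ∃ U' : Set K, U'.Finite ∧
      Mod v.valuationSubring (Subring.closure (Set.range (algebraMap k K) ∪ U')) ∧
      SU v.valuationSubring (Subring.closure (Set.range (algebraMap k K) ∪ U'))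

/-- An extension `L = K(ζ)` of rank one in which `K` is dense, where `ζ` is a root of a separable
polynomial over `k` with the residue of `a`, over the field `k(ζ)`. -/
def S_Lk : Prop :=
  ∀ {k K L : Type u} [Field k] [Field K] [Field L] [Algebra k K] [Algebra K L] [Algebra k L]
    [IsScalarTower k K L] [Algebra.EssFiniteType k K] (v : Valuation K ℝ≥0) (w : Valuation L ℝ≥0),
    (∀ c : k, c ≠ 0 → v (algebraMap k K c) = 1) → ∀ (a : K) (ζ : L) (m : k[X]), m.Monic →
    aeval ζ m = 0 → v a ≤ 1 →
    (∀ x : K, v x ≤ 1 → ∃ q : k[X], v (x - aeval a q) < 1) → w (ζ - algebraMap K L a) < 1 →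
    (∀ z : K, w (algebraMap K L z) = v z) → (∀ z : L, ∃ f : K[X], aeval ζ f = z) →
    (∀ z : L, z ≠ 0 → ∃ b : K, w (z - algebraMap K L b) < w z) →
    ∀ k' : IntermediateField k L, k' = IntermediateField.adjoin k {ζ} →
      Algebra.EssFiniteType k' L ∧ (∀ c : k', c ≠ 0 → w (c : L) = 1) ∧
      (∀ x : L, w x ≤ 1 → ∃ c : k', w (x - (c : L)) < 1) ∧
      (∀ z : L, z ≠ 0 → ∃ b : K, b ≠ 0 ∧ w z = v b) ∧
      Algebra.trdeg k' L = Algebra.trdeg k K ∧
      (k' : Set L) = (Algebra.adjoin k {ζ} : Set L)

end Pool.Agent.H893.DD
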