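import Pool.Agent.H893.DD.Stm2

/-!
# Statements for the simultaneous uniformization of finitely many valuations
-/

set_option autoImplicit false
set_option linter.unusedVariables false
set_option linter.unusedSectionVars false

universe u

namespace Pool.Agent.H893.DD

open Pool.Agent.W418.LU2 IsLocalRing Polynomial
open Pool.Agent.H176.DT (Mod SU PP St)
open scoped NNReal

/-- One stage: all coordinates divide the centre, and a power of the centre is divisible by the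
denominator. -/
def S_stage : Prop :=
  ∀ {F : Type u} [Field F] (V : ValuationSubring F) (A : Subring F) [IsNoetherianRing A],
    A ≤ V.toSubring →
    (∀ a b : F, b ≠ 0 → a ∈ V → a⁻¹ ∉ V → ∃ N : ℕ, a ^ N * b⁻¹ ∈ V) → SU V A →
    ∀ G : Set F, G.Finite → (∀ g ∈ G, g ≠ 0) →
    ∃ (T : Set F) (n : ℕ) (x : Fin n → F) (β : F) (N : ℕ), T.Finite ∧
      RegP V.toSubring (PP V A T) x ∧ β ∈ A ∧ PMon (PP V A T) x β ∧ (∀ t ∈ T, β * t ∈ A) ∧
      (∀ g ∈ G, PMon (PP V A T) x g ∧ (g ∈ V → g ∈ PP V A T)) ∧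
      ∀ w : Fin N → F, (∀ i, w i ∈ A ∧ V.valuation (w i) < 1) → (∏ i, w i) * β⁻¹ ∈ PP V A T

/-- Simultaneous log uniformization of finitely many valuations with incomparable centres. -/
def S_sim : Prop :=
  ∀ {F : Type u} [Field F] (A : Subring F) [IsNoetherianRing A] {m : ℕ}
    (V : Fin m → ValuationSubring F), (∀ i, A ≤ (V i).toSubring) →
    (∀ i, ∀ a b : F, b ≠ 0 → a ∈ V i → a⁻¹ ∉ V i → ∃ N : ℕ, a ^ N * b⁻¹ ∈ V i) →
    (∀ i, SU (V i) A) →
    (∀ i j, i ≠ j → ∃ a ∈ A, (V i).valuation a < 1 ∧ (V j).valuation a = 1) →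
    ∀ D I₀ : Ideal A, D ≠ ⊥ → I₀ ≠ ⊥ → ∃ I₁ : Ideal A, I₁ ≠ ⊥ ∧
      (∀ i, LogDesing (V i) A D (I₀ * I₁)) ∧
      ∀ q : Ideal A, q.IsPrime → I₁ ≤ q →
        ∃ i, ∀ a : A, (V i).valuation (a : F) < 1 → a ∈ q

end Pool.Agent.H893.DD
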