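import Pool.Agent.H893.DD.Stm4

/-!
# Statements for the simultaneous uniformization of finitely many valuations, part two
-/

set_option autoImplicit false
set_option linter.unusedVariables false
set_option linter.unusedSectionVars false

universe u

namespace Pool.Agent.H893.DD

open Pool.Agent.W418.LU2 IsLocalRing Polynomial
open Pool.Agent.H176.DT (Mod SU PP St)
open scoped NNReal

/-- Separation of the centres of finitely many valuations of rank one by one ideal `J`. -/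
def S_sep : Prop :=
  ∀ {F : Type u} [Field F] (A : Subring F) [IsNoetherianRing A] {m : ℕ}
    (V : Fin m → ValuationSubring F), (∀ i, Mod (V i) A) →
    (∀ i, ∀ a b : F, b ≠ 0 → a ∈ V i → a⁻¹ ∉ V i → ∃ N : ℕ, a ^ N * b⁻¹ ∈ V i) →
    (∀ i j, i ≠ j → ∃ z : F, (V i).valuation z < 1 ∧ 1 < (V j).valuation z) →
    ∃ (J : Ideal A) (f : Fin m → A),
      (∀ i, f i ∈ J ∧ (f i : F) ≠ 0 ∧ ∀ a ∈ J, (a : F) / (f i : F) ∈ V i) ∧
      (∀ i j, i ≠ j → ∃ c ∈ J, (V i).valuation ((c : F) / (f i : F)) < 1 ∧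
        (V j).valuation ((c : F) / (f j : F)) = 1) ∧
      ∀ q : Ideal A, q.IsPrime → J ≤ q →
        ∃ i, ∀ a : A, (V i).valuation (a : F) < 1 → a ∈ q

/-- Simultaneous log uniformization of finitely many different valuations of rank one. -/
def S_sim2 : Prop :=
  ∀ {F : Type u} [Field F] (A : Subring F) [IsNoetherianRing A] {m : ℕ}
    (V : Fin m → ValuationSubring F), (∀ i, Mod (V i) A) →
    (∀ i, ∀ a b : F, b ≠ 0 → a ∈ V i → a⁻¹ ∉ V i → ∃ N : ℕ, a ^ N * b⁻¹ ∈ V i) →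
    (∀ i, SU (V i) A) →
    (∀ i j, i ≠ j → ∃ z : F, (V i).valuation z < 1 ∧ 1 < (V j).valuation z) →
    ∀ D I₀ : Ideal A, D ≠ ⊥ → I₀ ≠ ⊥ → ∃ I₁ : Ideal A, I₁ ≠ ⊥ ∧
      (∀ i, LogDesing (V i) A D (I₀ * I₁)) ∧
      ∀ q : Ideal A, q.IsPrime → I₁ ≤ q →
        ∃ i, ∀ a : A, (V i).valuation (a : F) < 1 → a ∈ q

end Pool.Agent.H893.DD
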